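import Mathlib

set_option autoImplicit false

open Finset Classical

namespace Pool.Agent.Helper3.RG

/-! ## The function `N / max ν (1/2)` -/

noncomputable def gE (N : ℝ) (ν : ℕ) : ℝ := N / max (ν : ℝ) (1 / 2)

lemma gE_pos {N : ℝ} (hN : 0 < N) (ν : ℕ) : 0 < gE N ν := by
  unfold gE
  have : (0 : ℝ) < max (ν : ℝ) (1 / 2) := lt_max_of_lt_right (by norm_num)
  positivity

lemma gE_anti {N : ℝ} (hN : 0 < N) {a b : ℕ} (h : a ≤ b) : gE N b ≤ gE N a := by
  unfold gE
  have h1 : (0 : ℝ) < max (a : ℝ) (1 / 2) := lt_max_of_lt_right (by norm_num)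
  apply div_le_div_of_nonneg_left hN.le h1
  apply max_le_max _ le_rfl
  exact_mod_cast h

lemma one_le_gE {N : ℝ} (hN : 1 ≤ N) {ν : ℕ} (h : (ν : ℝ) ≤ N) : 1 ≤ gE N ν := by
  unfold gE
  have h1 : (0 : ℝ) < max (ν : ℝ) (1 / 2) := lt_max_of_lt_right (by norm_num)
  rw [le_div_iff₀ h1, one_mul]
  exact max_le h (by linarith)

lemma gE_of_pos {N : ℝ} {ν : ℕ} (h : 1 ≤ ν) : gE N ν = N / ν := by
  unfold gE
  have : (1 : ℝ) ≤ ν := by exact_mod_cast h
  rw [max_eq_left (by linarith)]

lemma bern_le (t : ℝ) (h0 : 0 ≤ t) (h1 : t ≤ 1) (e : ℕ) :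
    (1 + t) ^ e ≤ 1 + (2 ^ e - 1) * t := by
  induction e with
  | zero => simp
  | succ e ih =>
    have h2 : (1 : ℝ) ≤ 2 ^ e := one_le_pow₀ (by norm_num)
    have h3 : t * t ≤ t := by nlinarith
    calc (1 + t) ^ (e + 1) = (1 + t) ^ e * (1 + t) := pow_succ _ _
      _ ≤ (1 + (2 ^ e - 1) * t) * (1 + t) := by
        apply mul_le_mul_of_nonneg_right ih (by linarith)
      _ = 1 + t + (2 ^ e - 1) * t + (2 ^ e - 1) * (t * t) := by ring
      _ ≤ 1 + t + (2 ^ e - 1) * t + (2 ^ e - 1) * t := by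
        have : (2 ^ e - 1) * (t * t) ≤ (2 ^ e - 1) * t := by
          apply mul_le_mul_of_nonneg_left h3 (by linarith)
        linarith
      _ = 1 + (2 ^ (e + 1) - 1) * t := by ring

lemma gE_step {N : ℝ} (hN : 0 < N) (e ν : ℕ) (hν : 1 ≤ ν) :
    (ν : ℝ) * (gE N (ν - 1) ^ e - gE N ν ^ e) ≤ 2 ^ (e + 1) * gE N ν ^ e := by
  have hg : 0 < gE N ν := gE_pos hN ν
  -- ratio
  obtain ⟨t, ht0, ht1, htν, hr⟩ : ∃ t : ℝ, 0 ≤ t ∧ t ≤ 1 ∧ (ν : ℝ) * t ≤ 2 ∧
      gE N (ν - 1) = gE N ν * (1 + t) := by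
    rcases Nat.lt_or_ge ν 2 with h | h
    · have : ν = 1 := by omega
      subst this
      refine ⟨1, by norm_num, le_rfl, by norm_num, ?_⟩
      unfold gE
      have e1 : max (((1 - 1 : ℕ) : ℝ)) (1 / 2) = 1 / 2 := by norm_num
      have e2 : max (((1 : ℕ) : ℝ)) (1 / 2) = 1 := by norm_num
      rw [e1, e2]
      ring
    · have h2 : (2 : ℝ) ≤ ν := by exact_mod_cast h
      have hpos : (0 : ℝ) < (ν : ℝ) - 1 := by linarith
      refine ⟨1 / ((ν : ℝ) - 1), by positivity, ?_, ?_, ?_⟩
      · rw [div_le_one hpos]; linarith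
      · rw [mul_one_div, div_le_iff₀ hpos]; linarith
      · rw [gE_of_pos (by omega), gE_of_pos (by omega)]
        have : ((ν - 1 : ℕ) : ℝ) = (ν : ℝ) - 1 := by
          rw [Nat.cast_sub (by omega)]; simp
        rw [this]
        field_simp
        ring
  rw [hr, mul_pow]
  have hb := bern_le t ht0 ht1 e
  have hge : 0 < gE N ν ^ e := pow_pos hg e
  have h2e : (1 : ℝ) ≤ 2 ^ e := one_le_pow₀ (by norm_num)
  have hν0 : (0 : ℝ) ≤ ν := Nat.cast_nonneg ν
  calc (ν : ℝ) * (gE N ν ^ e * (1 + t) ^ e - gE N ν ^ e)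
      = gE N ν ^ e * (ν * ((1 + t) ^ e - 1)) := by ring
    _ ≤ gE N ν ^ e * (ν * ((2 ^ e - 1) * t)) := by
      apply mul_le_mul_of_nonneg_left _ hge.le
      apply mul_le_mul_of_nonneg_left _ hν0
      linarith
    _ = gE N ν ^ e * ((2 ^ e - 1) * (ν * t)) := by ring
    _ ≤ gE N ν ^ e * ((2 ^ e - 1) * 2) := by
      apply mul_le_mul_of_nonneg_left _ hge.le
      apply mul_le_mul_of_nonneg_left htν (by linarith)
    _ ≤ 2 ^ (e + 1) * gE N ν ^ e := by
      rw [pow_succ]
      nlinarith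

/-! ## Averages over completions -/

variable {V : Type*} {m : ℕ}

/-- The set of completions: coordinates in `B` range over `S`, the others are those of `φ`. -/
noncomputable def compl (B : Finset (Fin m)) (S : Fin m → Finset V) (φ : Fin m → V) :
    Finset (Fin m → V) :=
  Fintype.piFinset (fun y => if y ∈ B then S y else {φ y})

lemma mem_compl {B : Finset (Fin m)} {S : Fin m → Finset V} {φ P : Fin m → V} :
    P ∈ compl B S φ ↔ ∀ y, if y ∈ B then P y ∈ S y else P y = φ y := by
  unfold compl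
  rw [Fintype.mem_piFinset]
  apply forall_congr'
  intro y
  split_ifs <;> simp

lemma compl_empty (S : Fin m → Finset V) (φ : Fin m → V) : compl ∅ S φ = {φ} := by
  ext P
  rw [mem_compl, mem_singleton]
  constructor
  · intro h; funext y; simpa using h y
  · rintro rfl y; simp

noncomputable def avg (N : ℝ) (S : Fin m → Finset V) (B : Finset (Fin m))
    (h : (Fin m → V) → ℝ) (φ : Fin m → V) : ℝ :=
  (N ^ B.card)⁻¹ * ∑ P ∈ compl B S φ, h P

lemma avg_empty (N : ℝ) (S : Fin m → Finset V) (h : (Fin m → V) → ℝ) (φ : Fin m → V) :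
    avg N S ∅ h φ = h φ := by
  simp [avg, compl_empty]

lemma avg_nonneg {N : ℝ} (hN : 0 ≤ N) (S : Fin m → Finset V) (B : Finset (Fin m))
    {h : (Fin m → V) → ℝ} (hh : ∀ P, 0 ≤ h P) (φ : Fin m → V) : 0 ≤ avg N S B h φ := by
  unfold avg
  apply mul_nonneg
  · positivity
  · exact Finset.sum_nonneg (fun P _ => hh P)

lemma sum_compl_erase (S : Fin m → Finset V) (B : Finset (Fin m)) (τ : Fin m) (hτ : τ ∈ B)
    (h : (Fin m → V) → ℝ) (φ : Fin m → V) :
    ∑ P ∈ compl B S φ, h P =
      ∑ x ∈ S τ, ∑ P ∈ compl (B.erase τ) S (Function.update φ τ x), h P := by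
  rw [← Finset.sum_fiberwise_of_maps_to (s := compl B S φ) (t := S τ) (g := fun P => P τ)]
  · apply Finset.sum_congr rfl
    intro x hx
    apply Finset.sum_congr _ (fun _ _ => rfl)
    ext P
    rw [mem_filter, mem_compl, mem_compl]
    constructor
    · rintro ⟨h1, h2⟩ y
      by_cases hy : y = τ
      · subst hy; simpa using h2
      · have := h1 y
        simpa [hy] using this
    · intro h1
      refine ⟨fun y => ?_, ?_⟩
      · by_cases hy : y = τ
        · subst hy
          have := h1 y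
          simp at this
          simp [hτ, this, hx]
        · have := h1 y
          simpa [hy] using this
      · have := h1 τ
        simpa using this
  · intro P hP
    rw [mem_compl] at hP
    have := hP τ
    simpa [hτ] using this

lemma avg_erase {N : ℝ} (hN : 0 < N) (S : Fin m → Finset V) (B : Finset (Fin m)) (τ : Fin m)
    (hτ : τ ∈ B) (h : (Fin m → V) → ℝ) (φ : Fin m → V) :
    N * avg N S B h φ = ∑ x ∈ S τ, avg N S (B.erase τ) h (Function.update φ τ x) := by
  unfold avg
  rw [sum_compl_erase S B τ hτ h φ, ← Finset.mul_sum]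
  have hc : B.card = (B.erase τ).card + 1 := by
    rw [Finset.card_erase_of_mem hτ]
    have := Finset.card_pos.mpr ⟨τ, hτ⟩
    omega
  rw [hc, pow_succ, mul_inv, ← mul_assoc]
  congr 1
  field_simp

lemma card_compl_le {N : ℝ} (S : Fin m → Finset V) (B : Finset (Fin m))
    (hS : ∀ y, ((S y).card : ℝ) ≤ N) (φ : Fin m → V) :
    ((compl B S φ).card : ℝ) ≤ N ^ B.card := by
  unfold compl
  rw [Fintype.card_piFinset]
  push_cast
  calc (∏ y : Fin m, (((if y ∈ B then S y else {φ y} : Finset V).card : ℕ) : ℝ))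
      ≤ ∏ y : Fin m, (if y ∈ B then N else 1) := by
        apply Finset.prod_le_prod
        · intro i _; positivity
        · intro i _
          split_ifs
          · exact hS i
          · simp
    _ = N ^ B.card := by
        rw [Finset.prod_ite]
        simp

lemma avg_sq_le {N : ℝ} (hN : 0 < N) (S : Fin m → Finset V) (B : Finset (Fin m))
    (hS : ∀ y, ((S y).card : ℝ) ≤ N) (h : (Fin m → V) → ℝ) (φ : Fin m → V) :
    avg N S B h φ ^ 2 ≤ avg N S B (fun P => h P ^ 2) φ := by
  unfold avg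
  have hcs : (∑ P ∈ compl B S φ, h P) ^ 2 ≤
      ((compl B S φ).card : ℝ) * ∑ P ∈ compl B S φ, h P ^ 2 := by
    exact sq_sum_le_card_mul_sum_sq
  have hpos : 0 < N ^ B.card := by positivity
  have hnn : 0 ≤ ∑ P ∈ compl B S φ, h P ^ 2 := Finset.sum_nonneg (fun _ _ => sq_nonneg _)
  have hcard := card_compl_le S B hS φ
  rw [mul_pow]
  calc ((N ^ B.card)⁻¹) ^ 2 * (∑ P ∈ compl B S φ, h P) ^ 2
      ≤ ((N ^ B.card)⁻¹) ^ 2 * (N ^ B.card * ∑ P ∈ compl B S φ, h P ^ 2) := by
        apply mul_le_mul_of_nonneg_left _ (by positivity)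
        exact hcs.trans (mul_le_mul_of_nonneg_right hcard hnn)
    _ = (N ^ B.card)⁻¹ * ∑ P ∈ compl B S φ, h P ^ 2 := by
        field_simp

lemma avg_mono {N : ℝ} (hN : 0 ≤ N) (S : Fin m → Finset V) (B : Finset (Fin m))
    {h h' : (Fin m → V) → ℝ} (φ : Fin m → V) (hh : ∀ P ∈ compl B S φ, h P ≤ h' P) :
    avg N S B h φ ≤ avg N S B h' φ := by
  unfold avg
  apply mul_le_mul_of_nonneg_left _ (by positivity)
  exact Finset.sum_le_sum hh

lemma avg_const_mul (N : ℝ) (S : Fin m → Finset V) (B : Finset (Fin m))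
    (c : ℝ) (h : (Fin m → V) → ℝ) (φ : Fin m → V) :
    avg N S B (fun P => c * h P) φ = c * avg N S B h φ := by
  unfold avg
  rw [← Finset.mul_sum]
  ring

lemma avg_sum {α : Type*} (C : Finset α) (N : ℝ) (S : Fin m → Finset V) (B : Finset (Fin m))
    (h : α → (Fin m → V) → ℝ) (φ : Fin m → V) :
    ∑ x ∈ C, avg N S B (h x) φ = avg N S B (fun P => ∑ x ∈ C, h x P) φ := by
  unfold avg
  rw [← Finset.mul_sum, Finset.sum_comm]

/-- If `h` only depends on the coordinates other than `τ` and `τ ∉ B`. -/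
lemma avg_update {N : ℝ} (S : Fin m → Finset V) (B : Finset (Fin m)) (τ : Fin m) (hτ : τ ∉ B)
    (h : (Fin m → V) → ℝ) (hh : ∀ P x, h (Function.update P τ x) = h P) (φ : Fin m → V) (x : V) :
    avg N S B h (Function.update φ τ x) = avg N S B h φ := by
  unfold avg
  congr 1
  refine Finset.sum_bij' (fun P _ => Function.update P τ (φ τ))
    (fun P _ => Function.update P τ x) ?_ ?_ ?_ ?_ ?_
  · intro P hP
    rw [mem_compl] at hP ⊢
    intro y
    by_cases hy : y = τ
    · subst hy; simp [hτ]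
    · have := hP y
      simpa [hy] using this
  · intro P hP
    rw [mem_compl] at hP ⊢
    intro y
    by_cases hy : y = τ
    · subst hy; simp [hτ]
    · have := hP y
      simpa [hy] using this
  · intro P hP
    rw [mem_compl] at hP
    have := hP τ
    simp [hτ] at this
    rw [Function.update_idem, ← this, Function.update_eq_self]
  · intro P hP
    rw [mem_compl] at hP
    have := hP τ
    simp [hτ] at this
    rw [Function.update_idem, ← this, Function.update_eq_self]
  · intro P hP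
    rw [hh]

/-! ## Weights -/

lemma exists_weights {m : ℕ} (back : Fin m → Finset (Fin m)) (hback : ∀ w, ∀ y ∈ back w, y < w)
    (d : ℕ) (hd : ∀ w, (back w).card ≤ d) (κ : ℝ) (hκ0 : 0 ≤ κ) (hκ : κ * d ≤ 1 / 2) :
    ∃ μ : Fin m → ℝ, (∀ τ, 0 ≤ μ τ) ∧
      (∀ τ, μ τ = 1 + κ * ∑ w ∈ univ.filter (fun w => τ ∈ back w), μ w) ∧
      ∑ w, μ w ≤ 2 * m := by
  -- existence with equality for all indices at least `m - k`
  have key : ∀ k : ℕ, ∃ μ : Fin m → ℝ, (∀ τ, 0 ≤ μ τ) ∧
      (∀ τ : Fin m, m ≤ (τ : ℕ) + k →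
        μ τ = 1 + κ * ∑ w ∈ univ.filter (fun w => τ ∈ back w), μ w) := by
    intro k
    induction k with
    | zero =>
      refine ⟨fun _ => 1, fun _ => zero_le_one, fun τ hτ => ?_⟩
      have := τ.2
      omega
    | succ k ih =>
      obtain ⟨μ, h0, h1⟩ := ih
      refine ⟨fun τ => if m ≤ (τ : ℕ) + k then μ τ else
        1 + κ * ∑ w ∈ univ.filter (fun w => τ ∈ back w), μ w, ?_, ?_⟩
      · intro τ
        dsimp only
        split_ifs
        · exact h0 τ
        · have : 0 ≤ ∑ w ∈ univ.filter (fun w => τ ∈ back w), μ w :=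
            Finset.sum_nonneg (fun w _ => h0 w)
          positivity
      · intro τ hτ
        have hsum : ∑ w ∈ univ.filter (fun w => τ ∈ back w),
            (if m ≤ (w : ℕ) + k then μ w else
              1 + κ * ∑ w' ∈ univ.filter (fun w' => w ∈ back w'), μ w') =
            ∑ w ∈ univ.filter (fun w => τ ∈ back w), μ w := by
          apply Finset.sum_congr rfl
          intro w hw
          rw [mem_filter] at hw
          have h2 : (τ : ℕ) < w := hback w τ hw.2
          rw [if_pos (by omega)]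
        dsimp only
        rw [hsum]
        by_cases hτ2 : m ≤ (τ : ℕ) + k
        · rw [if_pos hτ2]; exact h1 τ hτ2
        · rw [if_neg hτ2]
  obtain ⟨μ, h0, h1⟩ := key m
  refine ⟨μ, h0, fun τ => h1 τ (by omega), ?_⟩
  have h2 : ∑ τ, μ τ = m + κ * ∑ w, ((back w).card : ℝ) * μ w := by
    calc ∑ τ, μ τ = ∑ τ, (1 + κ * ∑ w ∈ univ.filter (fun w => τ ∈ back w), μ w) :=
          Finset.sum_congr rfl (fun τ _ => h1 τ (by omega))
      _ = m + κ * ∑ τ, ∑ w ∈ univ.filter (fun w => τ ∈ back w), μ w := by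
          rw [Finset.sum_add_distrib, ← Finset.mul_sum]; simp
      _ = m + κ * ∑ w, ((back w).card : ℝ) * μ w := by
          congr 2
          simp_rw [Finset.sum_filter]
          rw [Finset.sum_comm]
          apply Finset.sum_congr rfl
          intro w _
          rw [← Finset.sum_filter]
          simp
  have h3 : ∑ w, ((back w).card : ℝ) * μ w ≤ d * ∑ w, μ w := by
    rw [Finset.mul_sum]
    apply Finset.sum_le_sum
    intro w _
    apply mul_le_mul_of_nonneg_right _ (h0 w)
    exact_mod_cast hd w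
  have h4 : 0 ≤ ∑ w, μ w := Finset.sum_nonneg (fun w _ => h0 w)
  have h5 : κ * ∑ w, ((back w).card : ℝ) * μ w ≤ κ * (d * ∑ w, μ w) :=
    mul_le_mul_of_nonneg_left h3 hκ0
  nlinarith

/-! ## Candidate sets -/

section LemmaE

variable {V : Type*} {m : ℕ}

/-- Unused vertices of the target set of `w` adjacent to the images of all earlier neighbours. -/
noncomputable def cand (R : SimpleGraph V) (S : Fin m → Finset V) (back : Fin m → Finset (Fin m))
    (w : Fin m) (P : Fin m → V) (U : Finset V) : Finset V :=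
  (S w).filter (fun x => x ∉ U ∧ ∀ y ∈ back w, R.Adj (P y) x)

lemma mem_cand {R : SimpleGraph V} {S : Fin m → Finset V} {back : Fin m → Finset (Fin m)}
    {w : Fin m} {P : Fin m → V} {U : Finset V} {x : V} :
    x ∈ cand R S back w P U ↔ x ∈ S w ∧ x ∉ U ∧ ∀ y ∈ back w, R.Adj (P y) x := by
  unfold cand; rw [mem_filter]

lemma cand_insert (R : SimpleGraph V) (S : Fin m → Finset V) (back : Fin m → Finset (Fin m))
    (w : Fin m) (P : Fin m → V) (U : Finset V) (x : V) :
    cand R S back w P (insert x U) = (cand R S back w P U).erase x := by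
  ext z
  rw [mem_cand, mem_erase, mem_cand, mem_insert]
  tauto

noncomputable def hfun (R : SimpleGraph V) (S : Fin m → Finset V) (back : Fin m → Finset (Fin m))
    (N : ℝ) (w : Fin m) (U : Finset V) (e : ℕ) (P : Fin m → V) : ℝ :=
  gE N (cand R S back w P U).card ^ e

lemma hfun_nonneg (R : SimpleGraph V) (S : Fin m → Finset V) (back : Fin m → Finset (Fin m))
    {N : ℝ} (hN : 0 < N) (w : Fin m) (U : Finset V) (e : ℕ) (P : Fin m → V) :
    0 ≤ hfun R S back N w U e P := pow_nonneg (gE_pos hN _).le _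

lemma sum_insert_le (R : SimpleGraph V) (S : Fin m → Finset V) (back : Fin m → Finset (Fin m))
    {N : ℝ} (hN : 0 < N) (w : Fin m) (U : Finset V) (e : ℕ) (P : Fin m → V) (C : Finset V) :
    ∑ x ∈ C, hfun R S back N w (insert x U) e P ≤
      ((C.card : ℝ) + 2 ^ (e + 1)) * hfun R S back N w U e P := by
  unfold hfun
  set K := cand R S back w P U with hK
  set ν := K.card with hν
  have hterm : ∀ x ∈ C, gE N (cand R S back w P (insert x U)).card ^ e =
      gE N ν ^ e + (if x ∈ K then (gE N (ν - 1) ^ e - gE N ν ^ e) else 0) := by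
    intro x _
    rw [cand_insert, ← hK]
    by_cases hx : x ∈ K
    · rw [if_pos hx, Finset.card_erase_of_mem hx]; ring
    · rw [if_neg hx, Finset.erase_eq_of_notMem hx]; ring
  rw [Finset.sum_congr rfl hterm, Finset.sum_add_distrib, Finset.sum_const, ← Finset.sum_filter,
    Finset.sum_const, nsmul_eq_mul, nsmul_eq_mul]
  have hdiff : 0 ≤ gE N (ν - 1) ^ e - gE N ν ^ e := by
    have := pow_le_pow_left₀ (gE_pos hN ν).le (gE_anti hN (Nat.sub_le ν 1)) e
    linarith
  have hcard : ((C.filter (fun x => x ∈ K)).card : ℝ) ≤ ν := by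
    rw [hν]
    exact_mod_cast Finset.card_le_card (fun x hx => (mem_filter.mp hx).2)
  have hmain : ((C.filter (fun x => x ∈ K)).card : ℝ) * (gE N (ν - 1) ^ e - gE N ν ^ e) ≤
      2 ^ (e + 1) * gE N ν ^ e := by
    rcases Nat.eq_zero_or_pos ν with h0 | h0
    · have : ((C.filter (fun x => x ∈ K)).card : ℝ) = 0 := by
        apply le_antisymm _ (Nat.cast_nonneg _)
        rw [h0] at hcard
        simpa using hcard
      rw [this, zero_mul]
      exact mul_nonneg (by positivity) (pow_nonneg (gE_pos hN _).le _)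
    · calc _ ≤ (ν : ℝ) * (gE N (ν - 1) ^ e - gE N ν ^ e) :=
            mul_le_mul_of_nonneg_right hcard hdiff
        _ ≤ _ := gE_step hN e ν h0
  linarith

lemma avg_insert_le (R : SimpleGraph V) (S : Fin m → Finset V) (back : Fin m → Finset (Fin m))
    {N : ℝ} (hN : 0 < N) (w : Fin m) (U : Finset V) (e : ℕ) (B : Finset (Fin m))
    (φ : Fin m → V) (C : Finset V) :
    ∑ x ∈ C, avg N S B (hfun R S back N w (insert x U) e) φ ≤
      ((C.card : ℝ) + 2 ^ (e + 1)) * avg N S B (hfun R S back N w U e) φ := by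
  rw [avg_sum, ← avg_const_mul]
  apply avg_mono hN.le
  intro P _
  exact sum_insert_le R S back hN w U e P C

lemma hfun_update (R : SimpleGraph V) (S : Fin m → Finset V) (back : Fin m → Finset (Fin m))
    (N : ℝ) (w : Fin m) (U : Finset V) (e : ℕ) (τ : Fin m) (hτ : τ ∉ back w)
    (P : Fin m → V) (x : V) :
    hfun R S back N w U e (Function.update P τ x) = hfun R S back N w U e P := by
  unfold hfun
  congr 2
  congr 1
  ext z
  rw [mem_cand, mem_cand]
  constructor
  · rintro ⟨h1, h2, h3⟩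
    refine ⟨h1, h2, fun y hy => ?_⟩
    have hne : y ≠ τ := fun h => hτ (h ▸ hy)
    have := h3 y hy
    rwa [Function.update_of_ne hne] at this
  · rintro ⟨h1, h2, h3⟩
    refine ⟨h1, h2, fun y hy => ?_⟩
    have hne : y ≠ τ := fun h => hτ (h ▸ hy)
    have := h3 y hy
    rwa [Function.update_of_ne hne]

lemma avg_step_le (S : Fin m → Finset V) {N : ℝ} (hN : 0 < N) (B : Finset (Fin m)) (τ : Fin m)
    (hτ : τ ∈ B) {h : (Fin m → V) → ℝ} (hh : ∀ P, 0 ≤ h P) (φ : Fin m → V) (C : Finset V)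
    (hC : C ⊆ S τ) :
    ∑ x ∈ C, avg N S (B.erase τ) h (Function.update φ τ x) ≤ N * avg N S B h φ := by
  rw [avg_erase hN S B τ hτ h φ]
  apply Finset.sum_le_sum_of_subset_of_nonneg hC
  intro x _ _
  exact avg_nonneg hN.le S _ hh _


/-! ## The potential -/

/-- The constants attached to the number of neighbours not yet embedded. -/
noncomputable def gam (κ : ℝ) : ℕ → ℝ
  | 0 => 1
  | (u + 1) => gam κ u ^ 2 / (4 * κ)

lemma gam_ge_one {κ : ℝ} (h0 : 0 < κ) (h1 : κ ≤ 1 / 4) (u : ℕ) : 1 ≤ gam κ u := by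
  induction u with
  | zero => simp [gam]
  | succ u ih =>
    rw [gam, le_div_iff₀ (by positivity)]
    have : 1 ≤ gam κ u ^ 2 := one_le_pow₀ ih
    linarith

lemma gam_mono {κ : ℝ} (h0 : 0 < κ) (h1 : κ ≤ 1 / 4) {a b : ℕ} (hab : a ≤ b) :
    gam κ a ≤ gam κ b := by
  induction hab with
  | refl => exact le_rfl
  | @step c _ ih =>
    refine ih.trans ?_
    rw [gam, le_div_iff₀ (by positivity)]
    have h := gam_ge_one h0 h1 c
    nlinarith

def ex (u : ℕ) : ℕ := 4 * 2 ^ u

lemma ex_succ (u : ℕ) : ex (u + 1) = 2 * ex u := by unfold ex; ring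

lemma ex_mono {a b : ℕ} (h : a ≤ b) : ex a ≤ ex b := by
  unfold ex
  exact Nat.mul_le_mul_left _ (Nat.pow_le_pow_right (by norm_num) h)

/-- Earlier neighbours of `w` that are not embedded at time `t`. -/
noncomputable def Bt (back : Fin m → Finset (Fin m)) (w : Fin m) (t : ℕ) : Finset (Fin m) :=
  (back w).filter (fun y => t ≤ (y : ℕ))

noncomputable def Ut (φ : Fin m → V) (t : ℕ) : Finset V :=
  (univ.filter (fun y : Fin m => (y : ℕ) < t)).image φ

lemma Ut_succ (φ : Fin m → V) (t : ℕ) (ht : t < m) (x : V) :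
    Ut (Function.update φ ⟨t, ht⟩ x) (t + 1) = insert x (Ut φ t) := by
  unfold Ut
  ext z
  simp only [mem_image, mem_filter, mem_univ, true_and, mem_insert]
  constructor
  · rintro ⟨y, hy, rfl⟩
    by_cases h : y = ⟨t, ht⟩
    · subst h; left; simp
    · right
      refine ⟨y, ?_, ?_⟩
      · have : (y : ℕ) ≠ t := fun h' => h (Fin.ext h')
        omega
      · rw [Function.update_of_ne h]
  · rintro (rfl | ⟨y, hy, rfl⟩)
    · exact ⟨⟨t, ht⟩, by simp, by simp⟩
    · refine ⟨y, by omega, ?_⟩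
      rw [Function.update_of_ne]
      rintro rfl
      simp at hy

noncomputable def pot (R : SimpleGraph V) (S : Fin m → Finset V) (back : Fin m → Finset (Fin m))
    (N κ : ℝ) (μ : Fin m → ℝ) (w : Fin m) (t : ℕ) (φ : Fin m → V) : ℝ :=
  μ w * (gam κ (Bt back w t).card *
    avg N S (Bt back w t) (hfun R S back N w (Ut φ t) (ex (Bt back w t).card)) φ)

lemma pot_nonneg (R : SimpleGraph V) (S : Fin m → Finset V) (back : Fin m → Finset (Fin m))
    {N κ : ℝ} (hN : 0 < N) (h0 : 0 < κ) (h1 : κ ≤ 1 / 4) {μ : Fin m → ℝ} (hμ : ∀ w, 0 ≤ μ w)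
    (w : Fin m) (t : ℕ) (φ : Fin m → V) : 0 ≤ pot R S back N κ μ w t φ := by
  unfold pot
  apply mul_nonneg (hμ w)
  apply mul_nonneg (by linarith [gam_ge_one h0 h1 (Bt back w t).card])
  exact avg_nonneg hN.le S _ (hfun_nonneg R S back hN w _ _) φ

noncomputable def Ftot (R : SimpleGraph V) (S : Fin m → Finset V)
    (back : Fin m → Finset (Fin m))
    (N κ : ℝ) (μ : Fin m → ℝ) (t : ℕ) (φ : Fin m → V) : ℝ :=
  ∑ w ∈ univ.filter (fun w : Fin m => t ≤ (w : ℕ)), pot R S back N κ μ w t φ

/-- Step for a later neighbour of the vertex being embedded. -/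
lemma pot_step_nbr (R : SimpleGraph V) (S : Fin m → Finset V) (back : Fin m → Finset (Fin m))
    {N κ : ℝ} (hN : 0 < N) (h0 : 0 < κ) (_h1 : κ ≤ 1 / 4) {μ : Fin m → ℝ} (hμ : ∀ w, 0 ≤ μ w)
    (hS : ∀ y, ((S y).card : ℝ) ≤ N)
    (w : Fin m) (t : ℕ) (ht : t < m) (φ : Fin m → V) (hw : (⟨t, ht⟩ : Fin m) ∈ back w)
    (C : Finset V) (hC : C ⊆ S ⟨t, ht⟩) (hCpos : 0 < C.card) :
    ∑ x ∈ C, pot R S back N κ μ w (t + 1) (Function.update φ ⟨t, ht⟩ x) ≤
      C.card * (κ * μ w * (N / C.card) ^ 2 + pot R S back N κ μ w t φ) := by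
  set τ : Fin m := ⟨t, ht⟩ with hτ
  have hτB : τ ∈ Bt back w t := by
    unfold Bt; rw [mem_filter]; exact ⟨hw, by simp [hτ]⟩
  have hB : Bt back w (t + 1) = (Bt back w t).erase τ := by
    ext y
    unfold Bt
    rw [mem_filter, mem_erase, mem_filter]
    constructor
    · rintro ⟨h2, h3⟩
      refine ⟨?_, h2, by omega⟩
      rintro rfl
      simp [hτ] at h3
    · rintro ⟨h2, h3, h4⟩
      refine ⟨h3, ?_⟩
      have : (y : ℕ) ≠ t := fun h' => h2 (Fin.ext h')
      omega
  obtain ⟨u, hu⟩ : ∃ u, (Bt back w t).card = u + 1 := by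
    have := Finset.card_pos.mpr ⟨τ, hτB⟩
    exact ⟨(Bt back w t).card - 1, by omega⟩
  have hu' : (Bt back w (t + 1)).card = u := by
    rw [hB, Finset.card_erase_of_mem hτB, hu]; simp
  -- replace the used set
  have hterm : ∀ x ∈ C, pot R S back N κ μ w (t + 1) (Function.update φ τ x) =
      μ w * (gam κ u * avg N S ((Bt back w t).erase τ) (hfun R S back N w (Ut φ t) (ex u))
        (Function.update φ τ x)) := by
    intro x _
    unfold pot
    rw [hu', hB]
    congr 2
    rw [Ut_succ φ t ht x]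
    unfold avg
    congr 1
    apply Finset.sum_congr rfl
    intro P hP
    rw [mem_compl] at hP
    have hPx : P τ = x := by
      have := hP τ
      simpa using this
    unfold hfun
    congr 2
    congr 1
    ext z
    rw [mem_cand, mem_cand, mem_insert]
    constructor
    · rintro ⟨h2, h3, h4⟩
      exact ⟨h2, fun h => h3 (Or.inr h), h4⟩
    · rintro ⟨h2, h3, h4⟩
      refine ⟨h2, ?_, h4⟩
      rintro (rfl | h5)
      · have := h4 τ hw
        rw [hPx] at this
        exact R.loopless.irrefl _ this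
      · exact h3 h5
  rw [Finset.sum_congr rfl hterm, ← Finset.mul_sum, ← Finset.mul_sum]
  set h := hfun R S back N w (Ut φ t) (ex u) with hh
  have hhn : ∀ P, 0 ≤ h P := hfun_nonneg R S back hN w _ _
  have hstep := avg_step_le S hN (Bt back w t) τ hτB hhn φ C hC
  set a := avg N S (Bt back w t) h φ with ha
  have ha0 : 0 ≤ a := avg_nonneg hN.le S _ hhn φ
  have hY : a ^ 2 ≤ avg N S (Bt back w t) (hfun R S back N w (Ut φ t) (ex (u + 1))) φ := by
    have h2 := avg_sq_le hN S (Bt back w t) hS h φ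
    refine h2.trans (le_of_eq ?_)
    congr 1
    funext P
    rw [hh]
    unfold hfun
    rw [← pow_mul, ex_succ, mul_comm]
  have hpot : pot R S back N κ μ w t φ = μ w * (gam κ (u + 1) *
      avg N S (Bt back w t) (hfun R S back N w (Ut φ t) (ex (u + 1))) φ) := by
    unfold pot
    rw [hu]
  rw [hpot]
  set Y := avg N S (Bt back w t) (hfun R S back N w (Ut φ t) (ex (u + 1))) φ with hYdef
  have hg : 1 ≤ gam κ u := gam_ge_one h0 _h1 u
  have hc : (0 : ℝ) < C.card := by exact_mod_cast hCpos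
  -- main numeric inequality
  set L := N / (C.card : ℝ) with hL
  have hNL : N = C.card * L := by rw [hL]; field_simp
  have hkey : gam κ u * (L * a) ≤ κ * L ^ 2 + gam κ (u + 1) * Y := by
    have e1 : gam κ (u + 1) = gam κ u ^ 2 / (4 * κ) := rfl
    have e2 : gam κ u ^ 2 / (4 * κ) * a ^ 2 ≤ gam κ (u + 1) * Y := by
      rw [e1]
      apply mul_le_mul_of_nonneg_left hY (by positivity)
    have e3 : gam κ u * (L * a) ≤ κ * L ^ 2 + gam κ u ^ 2 / (4 * κ) * a ^ 2 := by
      have e4 : κ * L ^ 2 + gam κ u ^ 2 / (4 * κ) * a ^ 2 - gam κ u * (L * a) =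
          (2 * κ * L - gam κ u * a) ^ 2 / (4 * κ) := by
        field_simp
        ring
      have e5 : 0 ≤ (2 * κ * L - gam κ u * a) ^ 2 / (4 * κ) := by positivity
      linarith
    linarith
  calc μ w * (gam κ u * ∑ x ∈ C, avg N S ((Bt back w t).erase τ) h (Function.update φ τ x))
      ≤ μ w * (gam κ u * (N * a)) := by
        apply mul_le_mul_of_nonneg_left _ (hμ w)
        apply mul_le_mul_of_nonneg_left hstep (by linarith)
    _ = C.card * (μ w * (gam κ u * (L * a))) := by
        rw [hNL]; ring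
    _ ≤ C.card * (μ w * (κ * L ^ 2 + gam κ (u + 1) * Y)) := by
        apply mul_le_mul_of_nonneg_left _ hc.le
        exact mul_le_mul_of_nonneg_left hkey (hμ w)
    _ = C.card * (κ * μ w * L ^ 2 + μ w * (gam κ (u + 1) * Y)) := by ring

/-- Step for a vertex that is not a later neighbour of the vertex being embedded. -/
lemma pot_step_non (R : SimpleGraph V) (S : Fin m → Finset V) (back : Fin m → Finset (Fin m))
    {N κ : ℝ} (hN : 0 < N) (h0 : 0 < κ) (h1 : κ ≤ 1 / 4) {μ : Fin m → ℝ} (hμ : ∀ w, 0 ≤ μ w)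
    (d : ℕ) (hd : ∀ w, (back w).card ≤ d)
    (w : Fin m) (t : ℕ) (ht : t < m) (φ : Fin m → V) (hw : (⟨t, ht⟩ : Fin m) ∉ back w)
    (C : Finset V) :
    ∑ x ∈ C, pot R S back N κ μ w (t + 1) (Function.update φ ⟨t, ht⟩ x) ≤
      (C.card + 2 ^ (ex d + 1)) * pot R S back N κ μ w t φ := by
  set τ : Fin m := ⟨t, ht⟩ with hτ
  have hB : Bt back w (t + 1) = Bt back w t := by
    ext y
    unfold Bt
    rw [mem_filter, mem_filter]
    constructor
    · rintro ⟨h2, h3⟩
      exact ⟨h2, by omega⟩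
    · rintro ⟨h2, h3⟩
      refine ⟨h2, ?_⟩
      have : (y : ℕ) ≠ t := fun h' => hw (by
        have : y = τ := Fin.ext h'
        rwa [← this])
      omega
  have hτB : τ ∉ Bt back w t := by
    unfold Bt; rw [mem_filter]; exact fun h => hw h.1
  have hterm : ∀ x ∈ C, pot R S back N κ μ w (t + 1) (Function.update φ τ x) =
      μ w * (gam κ (Bt back w t).card * avg N S (Bt back w t)
        (hfun R S back N w (insert x (Ut φ t)) (ex (Bt back w t).card)) φ) := by
    intro x _
    unfold pot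
    rw [hB, Ut_succ φ t ht x]
    congr 2
    apply avg_update S (Bt back w t) τ hτB
    intro P z
    exact hfun_update R S back N w _ _ τ hw P z
  rw [Finset.sum_congr rfl hterm, ← Finset.mul_sum, ← Finset.mul_sum]
  have hcard : (Bt back w t).card ≤ d := by
    refine le_trans (Finset.card_le_card ?_) (hd w)
    exact Finset.filter_subset _ _
  have hins := avg_insert_le R S back hN w (Ut φ t) (ex (Bt back w t).card) (Bt back w t) φ C
  have hg : 1 ≤ gam κ (Bt back w t).card := gam_ge_one h0 h1 _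
  have hav : 0 ≤ avg N S (Bt back w t)
      (hfun R S back N w (Ut φ t) (ex (Bt back w t).card)) φ :=
    avg_nonneg hN.le S _ (hfun_nonneg R S back hN w _ _) φ
  have hpow : (2 : ℝ) ^ (ex (Bt back w t).card + 1) ≤ 2 ^ (ex d + 1) := by
    apply pow_le_pow_right₀ (by norm_num)
    have := ex_mono hcard
    omega
  calc _ ≤ μ w * (gam κ (Bt back w t).card * (((C.card : ℝ) +
        2 ^ (ex (Bt back w t).card + 1)) * avg N S (Bt back w t)
          (hfun R S back N w (Ut φ t) (ex (Bt back w t).card)) φ)) := by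
        apply mul_le_mul_of_nonneg_left _ (hμ w)
        exact mul_le_mul_of_nonneg_left hins (by linarith)
    _ ≤ μ w * (gam κ (Bt back w t).card * (((C.card : ℝ) +
        2 ^ (ex d + 1)) * avg N S (Bt back w t)
          (hfun R S back N w (Ut φ t) (ex (Bt back w t).card)) φ)) := by
        apply mul_le_mul_of_nonneg_left _ (hμ w)
        apply mul_le_mul_of_nonneg_left _ (by linarith)
        apply mul_le_mul_of_nonneg_right _ hav
        linarith
    _ = _ := by
        unfold pot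
        ring

/-- One step of the potential argument. -/
lemma Ftot_step (R : SimpleGraph V) (S : Fin m → Finset V) (back : Fin m → Finset (Fin m))
    (hback : ∀ w, ∀ y ∈ back w, y < w)
    {N κ : ℝ} (hN : 1 ≤ N) (h0 : 0 < κ) (h1 : κ ≤ 1 / 4) {μ : Fin m → ℝ} (hμ : ∀ w, 0 ≤ μ w)
    (hμ2 : ∀ τ, μ τ = 1 + κ * ∑ w ∈ univ.filter (fun w => τ ∈ back w), μ w)
    (hS : ∀ y, ((S y).card : ℝ) ≤ N)
    (d : ℕ) (hd : ∀ w, (back w).card ≤ d) (F0 : ℝ) (hF0 : 2 ^ (ex d + 1) * F0 ≤ N)
    (t : ℕ) (ht : t < m) (φ : Fin m → V) (hF : Ftot R S back N κ μ t φ ≤ F0) :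
    ∃ x ∈ cand R S back ⟨t, ht⟩ φ (Ut φ t),
      Ftot R S back N κ μ (t + 1) (Function.update φ ⟨t, ht⟩ x) ≤ F0 := by
  have hN0 : 0 < N := by linarith
  set τ : Fin m := ⟨t, ht⟩ with hτ
  set C := cand R S back τ φ (Ut φ t) with hC
  have hCS : C ⊆ S τ := fun x hx => (mem_cand.mp hx).1
  have hBτ : Bt back τ t = ∅ := by
    unfold Bt
    rw [Finset.filter_eq_empty_iff]
    intro y hy
    have : (y : ℕ) < t := hback τ y hy
    omega
  -- the potential of `τ`
  have hpotτ : pot R S back N κ μ τ t φ = μ τ * gE N C.card ^ 4 := by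
    unfold pot
    rw [hBτ, avg_empty]
    simp [gam, ex, hfun, hC]
  have hsplit : univ.filter (fun w : Fin m => t ≤ (w : ℕ)) =
      insert τ (univ.filter (fun w : Fin m => t + 1 ≤ (w : ℕ))) := by
    ext w
    simp only [mem_filter, mem_univ, true_and, mem_insert]
    constructor
    · intro h
      rcases Nat.lt_or_ge t w with h' | h'
      · right; omega
      · left; exact Fin.ext (by simp [hτ]; omega)
    · rintro (rfl | h)
      · simp [hτ]
      · omega
  have hτnot : τ ∉ univ.filter (fun w : Fin m => t + 1 ≤ (w : ℕ)) := by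
    simp [hτ]
  have hFsplit : Ftot R S back N κ μ t φ = μ τ * gE N C.card ^ 4 +
      ∑ w ∈ univ.filter (fun w : Fin m => t + 1 ≤ (w : ℕ)), pot R S back N κ μ w t φ := by
    unfold Ftot
    rw [hsplit, Finset.sum_insert hτnot, hpotτ]
  have hrest : 0 ≤ ∑ w ∈ univ.filter (fun w : Fin m => t + 1 ≤ (w : ℕ)),
      pot R S back N κ μ w t φ :=
    Finset.sum_nonneg (fun w _ => pot_nonneg R S back hN0 h0 h1 hμ w t φ)
  have hμτ : 1 ≤ μ τ := by
    rw [hμ2 τ]
    have : 0 ≤ κ * ∑ w ∈ univ.filter (fun w => τ ∈ back w), μ w :=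
      mul_nonneg h0.le (Finset.sum_nonneg (fun w _ => hμ w))
    linarith
  have h2pow : (1 : ℝ) ≤ 2 ^ (ex d + 1) := one_le_pow₀ (by norm_num)
  have hF0nn : 0 ≤ F0 := by
    have : 0 ≤ μ τ * gE N C.card ^ 4 :=
      mul_nonneg (by linarith) (pow_nonneg (gE_pos hN0 _).le _)
    linarith
  have hF0N : F0 ≤ N := by nlinarith
  -- the candidate set is nonempty
  have hCpos : 0 < C.card := by
    by_contra hcon
    have hc0 : C.card = 0 := by omega
    have hg : gE N C.card = 2 * N := by
      rw [hc0]; unfold gE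
      have e1 : max (((0 : ℕ) : ℝ)) (1 / 2) = 1 / 2 := by norm_num
      rw [e1]; ring
    rw [hg] at hFsplit
    have e2 : (2 * N) ^ 4 ≤ μ τ * (2 * N) ^ 4 := by
      have : 0 ≤ (2 * N) ^ 4 := by positivity
      nlinarith
    have e3 : (2 * N) ^ 4 ≤ N := by linarith
    have e4 : N < (2 * N) ^ 4 := by
      have : 1 ≤ N ^ 3 := one_le_pow₀ hN
      calc N < 16 * (1 * N) := by linarith
        _ ≤ 16 * (N ^ 3 * N) := by
          apply mul_le_mul_of_nonneg_left _ (by norm_num)
          exact mul_le_mul_of_nonneg_right this hN0.le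
        _ = (2 * N) ^ 4 := by ring
    linarith
  have hc : (0 : ℝ) < C.card := by exact_mod_cast hCpos
  have hgC : gE N C.card = N / C.card := gE_of_pos hCpos
  set L := N / (C.card : ℝ) with hL
  have hL1 : 1 ≤ L := by
    rw [hL, le_div_iff₀ hc, one_mul]
    refine le_trans ?_ (hS τ)
    exact_mod_cast Finset.card_le_card hCS
  have hNL : N = C.card * L := by rw [hL, ← mul_div_assoc, mul_div_cancel_left₀ _ hc.ne']
  by_contra hcon
  push Not at hcon
  have hlt : (C.card : ℝ) * F0 < ∑ x ∈ C, Ftot R S back N κ μ (t + 1) (Function.update φ τ x) := by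
    have : ∑ x ∈ C, F0 < ∑ x ∈ C, Ftot R S back N κ μ (t + 1) (Function.update φ τ x) := by
      apply Finset.sum_lt_sum_of_nonempty (Finset.card_pos.mp hCpos)
      intro x hx
      exact hcon x hx
    simpa using this
  have hle : ∑ x ∈ C, Ftot R S back N κ μ (t + 1) (Function.update φ τ x) ≤
      ∑ w ∈ univ.filter (fun w : Fin m => t + 1 ≤ (w : ℕ)),
        ((C.card : ℝ) * pot R S back N κ μ w t φ + 2 ^ (ex d + 1) * pot R S back N κ μ w t φ +
          (if τ ∈ back w then (C.card : ℝ) * (κ * L ^ 2 * μ w) else 0)) := by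
    unfold Ftot
    rw [Finset.sum_comm]
    apply Finset.sum_le_sum
    intro w hw
    have hpn := pot_nonneg R S back hN0 h0 h1 hμ w t φ
    by_cases hτw : τ ∈ back w
    · rw [if_pos hτw]
      have := pot_step_nbr R S back hN0 h0 h1 hμ hS w t ht φ hτw C hCS hCpos
      refine this.trans ?_
      have e1 : 0 ≤ 2 ^ (ex d + 1) * pot R S back N κ μ w t φ := by positivity
      nlinarith
    · rw [if_neg hτw]
      have := pot_step_non R S back hN0 h0 h1 hμ d hd w t ht φ hτw C
      linarith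
  rw [Finset.sum_add_distrib, Finset.sum_add_distrib, ← Finset.mul_sum, ← Finset.mul_sum,
    ← Finset.sum_filter, ← Finset.mul_sum, ← Finset.mul_sum] at hle
  -- bound the sum of weights
  have hM : ∑ w ∈ (univ.filter (fun w : Fin m => t + 1 ≤ (w : ℕ))).filter
      (fun w => τ ∈ back w), μ w ≤ ∑ w ∈ univ.filter (fun w => τ ∈ back w), μ w := by
    apply Finset.sum_le_sum_of_subset_of_nonneg
    · intro w hw
      rw [mem_filter] at hw ⊢
      exact ⟨mem_univ _, hw.2⟩
    · intro w _ _; exact hμ w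
  set A := ∑ w ∈ univ.filter (fun w : Fin m => t + 1 ≤ (w : ℕ)), pot R S back N κ μ w t φ
    with hA
  set M := ∑ w ∈ univ.filter (fun w => τ ∈ back w), μ w with hMdef
  have hM0 : 0 ≤ M := Finset.sum_nonneg (fun w _ => hμ w)
  have hκM : μ τ = 1 + κ * M := hμ2 τ
  rw [hgC] at hFsplit
  have hL4 : L ^ 2 ≤ L ^ 4 := pow_le_pow_right₀ hL1 (by norm_num)
  have hL4' : L ≤ L ^ 4 := by
    calc L = L ^ 1 := (pow_one L).symm
      _ ≤ L ^ 4 := pow_le_pow_right₀ hL1 (by norm_num)
  have hA2 : 2 ^ (ex d + 1) * A ≤ C.card * L := by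
    rw [← hNL]
    refine le_trans ?_ hF0
    apply mul_le_mul_of_nonneg_left _ (by linarith)
    have : 0 ≤ μ τ * L ^ 4 := mul_nonneg (by linarith) (pow_nonneg (by linarith) _)
    linarith
  have hfin : (C.card : ℝ) * A + 2 ^ (ex d + 1) * A + C.card * (κ * L ^ 2 * M) ≤
      C.card * F0 := by
    have e1 : A ≤ F0 - μ τ * L ^ 4 := by linarith
    have e2 : κ * L ^ 2 * M ≤ κ * M * L ^ 4 := by
      have : 0 ≤ κ * M := by positivity
      nlinarith
    have e3 : A + L + κ * L ^ 2 * M ≤ F0 := by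
      rw [hκM] at e1
      nlinarith
    nlinarith
  have hM' : C.card * (κ * L ^ 2 * ∑ w ∈ (univ.filter (fun w : Fin m => t + 1 ≤ (w : ℕ))).filter
      (fun w => τ ∈ back w), μ w) ≤ C.card * (κ * L ^ 2 * M) := by
    apply mul_le_mul_of_nonneg_left _ hc.le
    exact mul_le_mul_of_nonneg_left hM (mul_nonneg h0.le (sq_nonneg L))
  linarith


/-- **Moment embedding lemma.** -/
theorem moment_embedding [Nonempty V] (R : SimpleGraph V) (S : Fin m → Finset V)
    (back : Fin m → Finset (Fin m)) (hback : ∀ w, ∀ y ∈ back w, y < w)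
    (d : ℕ) (hd : ∀ w, (back w).card ≤ d)
    {N : ℝ} (hN : 1 ≤ N) (hS : ∀ y, ((S y).card : ℝ) ≤ N) (K : ℝ) (hK : 0 ≤ K)
    (hstar : ∀ w φ, avg N S (back w) (hfun R S back N w ∅ (ex d)) φ ≤ K)
    (hm : 2 ^ (ex d + 1) * (2 * m * (gam (1 / (4 * (d + 1))) d * K)) ≤ N) :
    ∃ φ : Fin m → V, Function.Injective φ ∧ (∀ w, φ w ∈ S w) ∧
      ∀ w, ∀ y ∈ back w, R.Adj (φ y) (φ w) := by
  set κ : ℝ := 1 / (4 * (d + 1)) with hκdef
  have hd0 : (0 : ℝ) ≤ d := Nat.cast_nonneg d
  have h0 : 0 < κ := by rw [hκdef]; positivity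
  have h1 : κ ≤ 1 / 4 := by
    rw [hκdef]
    apply one_div_le_one_div_of_le (by norm_num)
    linarith
  have hκd : κ * d ≤ 1 / 2 := by
    rw [hκdef, div_mul_eq_mul_div, one_mul, div_le_iff₀ (by positivity)]
    linarith
  obtain ⟨μ, hμ, hμ2, hμ3⟩ := exists_weights back hback d hd κ h0.le hκd
  have hN0 : 0 < N := by linarith
  set F0 : ℝ := 2 * m * (gam κ d * K) with hF0
  have key : ∀ t : ℕ, t ≤ m → ∃ φ : Fin m → V, Ftot R S back N κ μ t φ ≤ F0 ∧
      (∀ w : Fin m, (w : ℕ) < t → φ w ∈ S w) ∧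
      (∀ w y : Fin m, (w : ℕ) < t → y ∈ back w → R.Adj (φ y) (φ w)) ∧
      (∀ w y : Fin m, (w : ℕ) < t → y < w → φ y ≠ φ w) := by
    intro t
    induction t with
    | zero =>
      intro _
      obtain ⟨v0⟩ := ‹Nonempty V›
      refine ⟨fun _ => v0, ?_, fun w hw => absurd hw (by omega), fun w y hw => absurd hw (by omega),
        fun w y hw => absurd hw (by omega)⟩
      unfold Ftot
      have hle : ∀ w ∈ univ.filter (fun w : Fin m => 0 ≤ (w : ℕ)),
          pot R S back N κ μ w 0 (fun _ => v0) ≤ μ w * (gam κ d * K) := by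
        intro w _
        have hB : Bt back w 0 = back w := by
          unfold Bt; ext y; simp
        have hU : Ut (fun _ : Fin m => v0) 0 = ∅ := by
          unfold Ut; simp
        unfold pot
        rw [hB, hU]
        apply mul_le_mul_of_nonneg_left _ (hμ w)
        apply mul_le_mul (gam_mono h0 h1 (hd w)) _ _ (by linarith [gam_ge_one h0 h1 d])
        · refine le_trans ?_ (hstar w (fun _ => v0))
          apply avg_mono hN0.le
          intro P _
          unfold hfun
          apply pow_le_pow_right₀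
          · apply one_le_gE hN
            refine le_trans ?_ (hS w)
            exact_mod_cast Finset.card_le_card (fun x hx => (mem_cand.mp hx).1)
          · exact ex_mono (hd w)
        · exact avg_nonneg hN0.le S _ (hfun_nonneg R S back hN0 w _ _) _
      refine (Finset.sum_le_sum hle).trans ?_
      rw [← Finset.sum_mul]
      have hfil : univ.filter (fun w : Fin m => 0 ≤ (w : ℕ)) = univ := by ext; simp
      rw [hfil, hF0]
      apply mul_le_mul_of_nonneg_right hμ3
      apply mul_nonneg _ hK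
      linarith [gam_ge_one h0 h1 d]
    | succ t ih =>
      intro ht
      have ht' : t < m := by omega
      obtain ⟨φ, hF, hS1, hA1, hI1⟩ := ih (by omega)
      obtain ⟨x, hx, hFx⟩ := Ftot_step R S back hback hN h0 h1 hμ hμ2 hS d hd F0 hm t ht'
        φ hF
      rw [mem_cand] at hx
      obtain ⟨hx1, hx2, hx3⟩ := hx
      have hne : ∀ w : Fin m, (w : ℕ) < t → w ≠ ⟨t, ht'⟩ := by
        intro w hw h
        rw [h] at hw
        simp at hw
      refine ⟨Function.update φ ⟨t, ht'⟩ x, hFx, ?_, ?_, ?_⟩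
      · intro w hw
        by_cases h : w = ⟨t, ht'⟩
        · subst h; simpa using hx1
        · rw [Function.update_of_ne h]
          have : (w : ℕ) ≠ t := fun h' => h (Fin.ext h')
          exact hS1 w (by omega)
      · intro w y hw hy
        have hyw : (y : ℕ) < w := hback w y hy
        by_cases h : w = ⟨t, ht'⟩
        · subst h
          rw [Function.update_self, Function.update_of_ne (hne y (by simpa using hyw))]
          exact hx3 y hy
        · have hwt : (w : ℕ) ≠ t := fun h' => h (Fin.ext h')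
          rw [Function.update_of_ne h, Function.update_of_ne (hne y (by omega))]
          exact hA1 w y (by omega) hy
      · intro w y hw hyw
        have hyw' : (y : ℕ) < w := hyw
        by_cases h : w = ⟨t, ht'⟩
        · subst h
          rw [Function.update_self, Function.update_of_ne (hne y (by simpa using hyw'))]
          intro heq
          apply hx2
          rw [← heq]
          unfold Ut
          exact mem_image_of_mem _ (mem_filter.mpr ⟨mem_univ _, by simpa using hyw'⟩)
        · have hwt : (w : ℕ) ≠ t := fun h' => h (Fin.ext h')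
          rw [Function.update_of_ne h, Function.update_of_ne (hne y (by omega))]
          exact hI1 w y (by omega) hyw
  obtain ⟨φ, -, hS1, hA1, hI1⟩ := key m le_rfl
  refine ⟨φ, ?_, fun w => hS1 w w.2, fun w y hy => hA1 w y w.2 hy⟩
  intro a b hab
  by_contra hne
  rcases lt_or_gt_of_ne hne with h | h
  · exact hI1 b a b.2 h hab
  · exact hI1 a b a.2 h hab.symm

end LemmaE

end Pool.Agent.Helper3.RG
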