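import Mathlib
import Pool.Agent.Helper3.RGMoment

set_option autoImplicit false

open Finset Classical

namespace Pool.Agent.Helper3.RG

section PiSums

variable {κ β : Type*} [Fintype κ] [DecidableEq κ]

lemma sum_piFinset_update (T : κ → Finset β) (i : κ) (f : (κ → β) → ℝ) :
    ∑ x ∈ Fintype.piFinset T, ∑ z ∈ T i, f (Function.update x i z) =
      ((T i).card : ℝ) * ∑ x ∈ Fintype.piFinset T, f x := by
  rw [← Finset.sum_product']
  have h2 : ((T i).card : ℝ) * ∑ x ∈ Fintype.piFinset T, f x =
      ∑ q ∈ Fintype.piFinset T ×ˢ T i, f q.1 := by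
    rw [Finset.sum_product]
    simp [Finset.mul_sum]
  rw [h2]
  refine Finset.sum_bij' (fun q _ => (Function.update q.1 i q.2, q.1 i))
    (fun q _ => (Function.update q.1 i q.2, q.1 i)) ?_ ?_ ?_ ?_ ?_
  · rintro ⟨x, z⟩ hq
    rw [mem_product, Fintype.mem_piFinset] at hq ⊢
    refine ⟨fun j => ?_, hq.1 i⟩
    by_cases hj : j = i
    · subst hj; simpa using hq.2
    · simpa [hj] using hq.1 j
  · rintro ⟨x, z⟩ hq
    rw [mem_product, Fintype.mem_piFinset] at hq ⊢
    refine ⟨fun j => ?_, hq.1 i⟩
    by_cases hj : j = i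
    · subst hj; simpa using hq.2
    · simpa [hj] using hq.1 j
  · rintro ⟨x, z⟩ _; simp
  · rintro ⟨x, z⟩ _; simp
  · rintro ⟨x, z⟩ _; simp

lemma card_bad_le (T : κ → Finset β) (i : κ) (bad : (κ → β) → Prop) [DecidablePred bad]
    [∀ x, DecidablePred (fun z => bad (Function.update x i z))] (ε : ℝ)
    (h : ∀ x ∈ Fintype.piFinset T,
      (((T i).filter (fun z => bad (Function.update x i z))).card : ℝ) ≤ ε * (T i).card) :
    (((Fintype.piFinset T).filter bad).card : ℝ) ≤ ε * (Fintype.piFinset T).card := by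
  rcases Finset.eq_empty_or_nonempty (T i) with he | hne
  · have : Fintype.piFinset T = ∅ := by
      rw [Fintype.piFinset_eq_empty]
      exact ⟨i, he⟩
    simp [this]
  · have hpos : (0 : ℝ) < (T i).card := by exact_mod_cast Finset.card_pos.mpr hne
    have h1 := sum_piFinset_update T i (fun x => if bad x then 1 else 0)
    have h2 : ((Fintype.piFinset T).filter bad).card =
        ∑ x ∈ Fintype.piFinset T, (if bad x then (1 : ℝ) else 0) := by
      rw [Finset.sum_ite]; simp
    rw [← h2] at h1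
    have h3 : ∑ x ∈ Fintype.piFinset T, ∑ z ∈ T i,
        (fun x => if bad x then (1 : ℝ) else 0) (Function.update x i z) ≤
        ∑ x ∈ Fintype.piFinset T, ε * (T i).card := by
      apply Finset.sum_le_sum
      intro x hx
      refine le_trans (le_of_eq ?_) (h x hx)
      rw [Finset.card_filter]
      push_cast
      apply Finset.sum_congr rfl
      intro z _
      congr
    rw [h1, Finset.sum_const, nsmul_eq_mul] at h3
    have h4 : ((T i).card : ℝ) * (((Fintype.piFinset T).filter bad).card : ℝ) ≤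
        (T i).card * (ε * (Fintype.piFinset T).card) := by linarith
    exact le_of_mul_le_mul_left h4 hpos

end PiSums

section Drc

variable {V : Type*} {ι : Type*} [Fintype ι] [DecidableEq ι]

/-- Configurations. -/
noncomputable def Om (X : ι → Finset V) (t : ℕ) : Finset (ι → Fin t → V) :=
  Fintype.piFinset (fun i => Fintype.piFinset (fun _ : Fin t => X i))

lemma mem_Om {X : ι → Finset V} {t : ℕ} {x : ι → Fin t → V} :
    x ∈ Om X t ↔ ∀ i a, x i a ∈ X i := by
  unfold Om
  simp [Fintype.mem_piFinset]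

def Valid (R : SimpleGraph V) (J : ι → ι → Prop) {t : ℕ} (x : ι → Fin t → V) : Prop :=
  ∀ i j, J i j → ∀ a b, R.Adj (x i a) (x j b)

noncomputable def Aset (R : SimpleGraph V) (J : ι → ι → Prop) (X : ι → Finset V) {t : ℕ}
    (x : ι → Fin t → V) (i : ι) : Finset V :=
  (X i).filter (fun v => ∀ j, J i j → ∀ a, R.Adj v (x j a))

omit [DecidableEq ι] in
lemma mem_Aset {R : SimpleGraph V} {J : ι → ι → Prop} {X : ι → Finset V} {t : ℕ}
    {x : ι → Fin t → V} {i : ι} {v : V} :
    v ∈ Aset R J X x i ↔ v ∈ X i ∧ ∀ j, J i j → ∀ a, R.Adj v (x j a) := by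
  unfold Aset; rw [mem_filter]

noncomputable def NA {Y : Type*} (R : SimpleGraph V) (A : Finset V) (P : Y → V) : Finset V :=
  A.filter (fun v => ∀ y, R.Adj (P y) v)

lemma mem_NA {Y : Type*} {R : SimpleGraph V} {A : Finset V} {P : Y → V} {v : V} :
    v ∈ NA R A P ↔ v ∈ A ∧ ∀ y, R.Adj (P y) v := by
  unfold NA; rw [mem_filter]

/-- The star functional. -/
noncomputable def Fst {Y : Type*} [Fintype Y] [DecidableEq Y] (R : SimpleGraph V) (J : ι → ι → Prop)
    (X : ι → Finset V) {t : ℕ} (i : ι) (p : Y → ι) (x : ι → Fin t → V) : ℝ :=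
  ∑ P ∈ Fintype.piFinset (fun y => X (p y)),
    if Valid R J x ∧ ∀ y, P y ∈ Aset R J X x (p y) then
      gE (X i).card (NA R (Aset R J X x i) P).card ^ t else 0

lemma gE_mul_le {N : ℝ} (hN : 0 < N) (ν : ℕ) : (ν : ℝ) * gE N ν ≤ N := by
  unfold gE
  have h1 : (0 : ℝ) < max (ν : ℝ) (1 / 2) := lt_max_of_lt_right (by norm_num)
  rw [← mul_div_assoc, div_le_iff₀ h1, mul_comm]
  exact mul_le_mul_of_nonneg_left (le_max_left _ _) hN.le

theorem drc_sum {Y : Type*} [Fintype Y] [DecidableEq Y] (R : SimpleGraph V) (J : ι → ι → Prop)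
    (hirr : ∀ i, ¬ J i i) (hsymm : ∀ i j, J i j → J j i)
    (X : ι → Finset V) (t : ℕ) (i : ι) (hXi : (X i).Nonempty) (p : Y → ι) (hp : ∀ y, J i (p y)) :
    ∑ x ∈ Om X t, Fst R J X i p x ≤ (Om X t).card * ∏ y, ((X (p y)).card : ℝ) := by
  have hN : (0 : ℝ) < (X i).card := by exact_mod_cast Finset.card_pos.mpr hXi
  set N : ℝ := ((X i).card : ℝ) with hNdef
  have h1 := sum_piFinset_update (fun i => Fintype.piFinset (fun _ : Fin t => X i)) i
    (fun x : ι → Fin t → V => Fst R J X i p x)
  have hcardT : ((Fintype.piFinset (fun _ : Fin t => X i)).card : ℝ) = N ^ t := by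
    rw [Fintype.card_piFinset]
    simp [hNdef]
  rw [hcardT] at h1
  -- the inner bound
  have hinner : ∀ x ∈ Om X t, ∑ z ∈ Fintype.piFinset (fun _ : Fin t => X i),
      Fst R J X i p (Function.update x i z) ≤ N ^ t * ∏ y, ((X (p y)).card : ℝ) := by
    intro x hx
    unfold Fst
    rw [Finset.sum_comm]
    have hP : ∀ P ∈ Fintype.piFinset (fun y => X (p y)),
        ∑ z ∈ Fintype.piFinset (fun _ : Fin t => X i),
          (if Valid R J (Function.update x i z) ∧
              ∀ y, P y ∈ Aset R J X (Function.update x i z) (p y) then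
            gE (X i).card (NA R (Aset R J X (Function.update x i z) i) P).card ^ t else 0) ≤
          N ^ t := by
      intro P _
      set K := NA R (Aset R J X x i) P with hK
      rw [← Finset.sum_filter]
      have hA : ∀ z : Fin t → V, Aset R J X (Function.update x i z) i = Aset R J X x i := by
        intro z
        ext v
        rw [mem_Aset, mem_Aset]
        apply and_congr_right
        intro _
        apply forall_congr'
        intro j
        by_cases hj : j = i
        · subst hj
          simp [hirr]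
        · rw [Function.update_of_ne hj]
      have hsub : (Fintype.piFinset (fun _ : Fin t => X i)).filter
          (fun z => Valid R J (Function.update x i z) ∧
              ∀ y, P y ∈ Aset R J X (Function.update x i z) (p y)) ⊆
          Fintype.piFinset (fun _ : Fin t => K) := by
        intro z hz
        rw [mem_filter, Fintype.mem_piFinset] at hz
        obtain ⟨hz1, hz2, hz3⟩ := hz
        rw [Fintype.mem_piFinset]
        intro a
        rw [hK, mem_NA, mem_Aset]
        refine ⟨⟨hz1 a, fun j hj b => ?_⟩, fun y => ?_⟩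
        · have := hz2 i j hj a b
          have hji : j ≠ i := by rintro rfl; exact hirr _ hj
          rwa [Function.update_self, Function.update_of_ne hji] at this
        · have := (mem_Aset.mp (hz3 y)).2 i (hsymm _ _ (hp y)) a
          rwa [Function.update_self] at this
      calc _ = ∑ z ∈ (Fintype.piFinset (fun _ : Fin t => X i)).filter
            (fun z => Valid R J (Function.update x i z) ∧
              ∀ y, P y ∈ Aset R J X (Function.update x i z) (p y)), gE N K.card ^ t := by
            apply Finset.sum_congr rfl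
            intro z _
            rw [hA z]
        _ ≤ ∑ z ∈ Fintype.piFinset (fun _ : Fin t => K), gE N K.card ^ t := by
            apply Finset.sum_le_sum_of_subset_of_nonneg hsub
            intro z _ _
            exact pow_nonneg (gE_pos hN _).le _
        _ = ((K.card : ℝ) * gE N K.card) ^ t := by
            rw [Finset.sum_const, Fintype.card_piFinset, nsmul_eq_mul, mul_pow]
            simp
        _ ≤ N ^ t := by
            apply pow_le_pow_left₀ _ (gE_mul_le hN _)
            exact mul_nonneg (Nat.cast_nonneg _) (gE_pos hN _).le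
    refine (Finset.sum_le_sum hP).trans ?_
    rw [Finset.sum_const, Fintype.card_piFinset, nsmul_eq_mul, mul_comm]
    push_cast
    exact le_rfl
  have h2 : ∑ x ∈ Om X t, ∑ z ∈ Fintype.piFinset (fun _ : Fin t => X i),
      Fst R J X i p (Function.update x i z) ≤
      ∑ x ∈ Om X t, N ^ t * ∏ y, ((X (p y)).card : ℝ) := Finset.sum_le_sum hinner
  have h3 : N ^ t * ∑ x ∈ Om X t, Fst R J X i p x ≤
      N ^ t * ((Om X t).card * ∏ y, ((X (p y)).card : ℝ)) := by
    unfold Om at h2 ⊢
    rw [h1, Finset.sum_const, nsmul_eq_mul] at h2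
    linarith
  exact le_of_mul_le_mul_left h3 (pow_pos hN t)


omit [DecidableEq ι] in
/-- For valid `x` the star functional is the sum over the sets `Aset`. -/
lemma Fst_valid {Y : Type*} [Fintype Y] [DecidableEq Y] (R : SimpleGraph V) (J : ι → ι → Prop)
    (X : ι → Finset V) {t : ℕ} (i : ι) (p : Y → ι) (x : ι → Fin t → V) (hx : Valid R J x) :
    Fst R J X i p x = ∑ P ∈ Fintype.piFinset (fun y => Aset R J X x (p y)),
      gE (X i).card (NA R (Aset R J X x i) P).card ^ t := by
  unfold Fst
  rw [← Finset.sum_filter]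
  apply Finset.sum_congr _ (fun _ _ => rfl)
  ext P
  rw [mem_filter, Fintype.mem_piFinset, Fintype.mem_piFinset]
  constructor
  · rintro ⟨_, _, h⟩; exact h
  · intro h
    exact ⟨fun y => (mem_Aset.mp (h y)).1, hx, h⟩

omit [DecidableEq ι] in
lemma Fst_nonneg {Y : Type*} [Fintype Y] [DecidableEq Y] (R : SimpleGraph V) (J : ι → ι → Prop)
    (X : ι → Finset V) {t : ℕ} (i : ι) (hXi : (X i).Nonempty) (p : Y → ι) (x : ι → Fin t → V) :
    0 ≤ Fst R J X i p x := by
  unfold Fst
  apply Finset.sum_nonneg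
  intro P _
  split_ifs
  · have hN : (0 : ℝ) < (X i).card := by exact_mod_cast Finset.card_pos.mpr hXi
    exact pow_nonneg (gE_pos hN _).le _
  · exact le_rfl

/-- The type of star patterns. -/
abbrev Pat (ι : Type*) (d : ℕ) : Type _ := Σ D : Fin (d + 1), ι × (Fin D → ι)

theorem drc_exists (R : SimpleGraph V) (J : ι → ι → Prop)
    (hirr : ∀ i, ¬ J i i) (hsymm : ∀ i j, J i j → J j i)
    (X : ι → Finset V) (hX : ∀ i, (X i).Nonempty) (t d : ℕ) (ρ : ℝ) (hρ : 0 < ρ)
    (hcount : ρ * (Om X t).card ≤ ((Om X t).filter (Valid R J)).card) :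
    ∃ x ∈ Om X t, Valid R J x ∧ ∀ (D : Fin (d + 1)) (i : ι) (p : Fin D → ι), (∀ l, J i (p l)) →
      ∑ P ∈ Fintype.piFinset (fun y => Aset R J X x (p y)),
        gE (X i).card (NA R (Aset R J X x i) P).card ^ t ≤
        (Fintype.card (Pat ι d) : ℝ) / ρ * ∏ l, ((X (p l)).card : ℝ) := by
  by_contra hcon
  push Not at hcon
  have hOm : 0 < (Om X t).card := by
    rw [Finset.card_pos]
    unfold Om
    rw [Fintype.piFinset_nonempty]
    intro i
    rw [Fintype.piFinset_nonempty]
    intro _; exact hX i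
  have hOmR : (0 : ℝ) < (Om X t).card := by exact_mod_cast hOm
  have hprod : ∀ (D : Fin (d + 1)) (p : Fin D → ι), (0 : ℝ) < ∏ l, ((X (p l)).card : ℝ) := by
    intro D p
    apply Finset.prod_pos
    intro l _
    exact_mod_cast Finset.card_pos.mpr (hX _)
  set g : Pat ι d → (ι → Fin t → V) → ℝ := fun q x =>
    if (∀ l, J q.2.1 (q.2.2 l)) then
      Fst R J X q.2.1 q.2.2 x / ∏ l, ((X (q.2.2 l)).card : ℝ) else 0 with hg
  have hgnn : ∀ q x, 0 ≤ g q x := by
    intro q x
    rw [hg]
    dsimp only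
    split_ifs
    · exact div_nonneg (Fst_nonneg R J X _ (hX _) _ x) (hprod _ _).le
    · exact le_rfl
  set K : ℝ := (Fintype.card (Pat ι d) : ℝ) / ρ with hK
  have hbig : ∀ x ∈ (Om X t).filter (Valid R J), K < ∑ q : Pat ι d, g q x := by
    intro x hx
    rw [mem_filter] at hx
    obtain ⟨D, i, p, hp, hlt⟩ := hcon x hx.1 hx.2
    rw [← Fst_valid R J X i p x hx.2] at hlt
    have h1 : K < g ⟨D, i, p⟩ x := by
      rw [hg]
      dsimp only
      rw [if_pos hp, lt_div_iff₀ (hprod D p)]
      exact hlt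
    exact lt_of_lt_of_le h1 (Finset.single_le_sum (fun q _ => hgnn q x) (mem_univ _))
  have hvpos : 0 < ((Om X t).filter (Valid R J)).card := by
    have : (0 : ℝ) < ((Om X t).filter (Valid R J)).card :=
      lt_of_lt_of_le (mul_pos hρ hOmR) hcount
    exact_mod_cast this
  have h1 : K * ((Om X t).filter (Valid R J)).card <
      ∑ x ∈ (Om X t).filter (Valid R J), ∑ q : Pat ι d, g q x := by
    have := Finset.sum_lt_sum_of_nonempty (Finset.card_pos.mp hvpos) hbig
    rw [Finset.sum_const, nsmul_eq_mul] at this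
    linarith
  have h2 : ∑ x ∈ (Om X t).filter (Valid R J), ∑ q : Pat ι d, g q x ≤
      ∑ x ∈ Om X t, ∑ q : Pat ι d, g q x := by
    apply Finset.sum_le_sum_of_subset_of_nonneg (Finset.filter_subset _ _)
    intro x _ _
    exact Finset.sum_nonneg (fun q _ => hgnn q x)
  have h3 : ∑ x ∈ Om X t, ∑ q : Pat ι d, g q x ≤ Fintype.card (Pat ι d) * (Om X t).card := by
    rw [Finset.sum_comm]
    have : ∀ q ∈ (univ : Finset (Pat ι d)), ∑ x ∈ Om X t, g q x ≤ (Om X t).card := by
      intro q _
      rw [hg]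
      dsimp only
      split_ifs with hq
      · rw [← Finset.sum_div, div_le_iff₀ (hprod _ _)]
        exact drc_sum R J hirr hsymm X t q.2.1 (hX _) q.2.2 hq
      · simp
    refine (Finset.sum_le_sum this).trans ?_
    rw [Finset.sum_const, nsmul_eq_mul, Finset.card_univ]
  have hKnn : 0 ≤ K := by rw [hK]; positivity
  have h4 : K * (ρ * (Om X t).card) ≤ K * ((Om X t).filter (Valid R J)).card :=
    mul_le_mul_of_nonneg_left hcount hKnn
  have h5 : K * (ρ * (Om X t).card) = Fintype.card (Pat ι d) * (Om X t).card := by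
    rw [hK]; field_simp
  linarith

end Drc

section Count

variable {V : Type*}

lemma mean_pow {α : Type*} (s : Finset α) (f : α → ℝ) (hf : ∀ a ∈ s, 0 ≤ f a) (m0 : ℝ)
    (hm0 : 0 ≤ m0) (h : m0 * s.card ≤ ∑ a ∈ s, f a) (n : ℕ) :
    m0 ^ n * s.card ≤ ∑ a ∈ s, f a ^ n := by
  rcases s.eq_empty_or_nonempty with rfl | hs
  · simp
  cases n with
  | zero => simp
  | succ n =>
    have hc : (0 : ℝ) < s.card := by exact_mod_cast Finset.card_pos.mpr hs
    have h1 := pow_sum_le_card_mul_sum_pow hf n
    have h2 : (m0 * s.card) ^ (n + 1) ≤ (∑ a ∈ s, f a) ^ (n + 1) :=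
      pow_le_pow_left₀ (by positivity) h _
    have h3 : (s.card : ℝ) ^ n * (m0 ^ (n + 1) * s.card) ≤
        (s.card : ℝ) ^ n * ∑ a ∈ s, f a ^ (n + 1) := by
      refine le_trans (le_of_eq ?_) (h2.trans h1)
      rw [mul_pow]; ring
    exact le_of_mul_le_mul_left h3 (pow_pos hc n)

lemma card_cross {α β : Type*} [Fintype α] [Fintype β] [DecidableEq α] [DecidableEq β]
    (R : SimpleGraph V) (U W : Finset V)
    (η : ℝ) (hη : 0 ≤ η)
    (h : η * (U.card * W.card) ≤ ∑ w ∈ W, ((U.filter (fun u => R.Adj u w)).card : ℝ)) :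
    η ^ (Fintype.card α * Fintype.card β) * ((U.card : ℝ) ^ Fintype.card α *
      (W.card : ℝ) ^ Fintype.card β) ≤
    (((Fintype.piFinset (fun _ : α => U)) ×ˢ (Fintype.piFinset (fun _ : β => W))).filter
      (fun q => ∀ i j, R.Adj (q.1 i) (q.2 j))).card := by
  set a := Fintype.card α
  set b := Fintype.card β
  -- first count: pairs (x, w)
  set c : (α → V) → ℝ := fun x => ((W.filter (fun w => ∀ i, R.Adj (x i) w)).card : ℝ) with hc
  have hsum1 : ∑ x ∈ Fintype.piFinset (fun _ : α => U), c x =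
      ∑ w ∈ W, ((U.filter (fun u => R.Adj u w)).card : ℝ) ^ a := by
    have e1 : ∀ x ∈ Fintype.piFinset (fun _ : α => U), c x =
        ∑ w ∈ W, (if (∀ i, R.Adj (x i) w) then (1 : ℝ) else 0) := by
      intro x _
      rw [hc]
      simp
    rw [Finset.sum_congr rfl e1, Finset.sum_comm]
    apply Finset.sum_congr rfl
    intro w _
    have e2 : ((U.filter (fun u => R.Adj u w)).card : ℝ) ^ a =
        ((Fintype.piFinset (fun _ : α => U.filter (fun u => R.Adj u w))).card : ℝ) := by
      rw [Fintype.card_piFinset]; simp [a]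
    rw [e2, Finset.sum_ite]
    simp only [Finset.sum_const, nsmul_eq_mul, mul_one, mul_zero, add_zero]
    congr 2
    ext x
    simp only [mem_filter, Fintype.mem_piFinset]
    constructor
    · rintro ⟨h1, h2⟩ i; exact ⟨h1 i, h2 i⟩
    · intro h1; exact ⟨fun i => (h1 i).1, fun i => (h1 i).2⟩
  have hcount : ((((Fintype.piFinset (fun _ : α => U)) ×ˢ
      (Fintype.piFinset (fun _ : β => W))).filter
      (fun q => ∀ i j, R.Adj (q.1 i) (q.2 j))).card : ℝ) =
      ∑ x ∈ Fintype.piFinset (fun _ : α => U), c x ^ b := by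
    have e1 : ((((Fintype.piFinset (fun _ : α => U)) ×ˢ
      (Fintype.piFinset (fun _ : β => W))).filter
      (fun q => ∀ i j, R.Adj (q.1 i) (q.2 j))).card : ℝ) =
      ∑ q ∈ ((Fintype.piFinset (fun _ : α => U)) ×ˢ
      (Fintype.piFinset (fun _ : β => W))), (if (∀ i j, R.Adj (q.1 i) (q.2 j)) then
        (1 : ℝ) else 0) := by
      rw [Finset.sum_ite]; simp
    rw [e1, Finset.sum_product]
    apply Finset.sum_congr rfl
    intro x _
    have e2 : c x ^ b = ((Fintype.piFinset (fun _ : β =>
        W.filter (fun w => ∀ i, R.Adj (x i) w))).card : ℝ) := by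
      rw [Fintype.card_piFinset, hc]; simp [b]
    rw [e2, Finset.sum_ite]
    simp only [Finset.sum_const, nsmul_eq_mul, mul_one, mul_zero, add_zero]
    congr 2
    ext y
    simp only [mem_filter, Fintype.mem_piFinset]
    constructor
    · rintro ⟨h1, h2⟩ j; exact ⟨h1 j, fun i => h2 i j⟩
    · intro h1; exact ⟨fun j => (h1 j).1, fun i j => (h1 j).2 i⟩
  rw [hcount]
  -- mean inequality, first
  have hm1 : (η * U.card) ^ a * W.card ≤ ∑ x ∈ Fintype.piFinset (fun _ : α => U), c x := by
    rw [hsum1]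
    apply mean_pow W _ (fun _ _ => Nat.cast_nonneg _) _ (by positivity)
    linarith
  have hcardU : (((Fintype.piFinset (fun _ : α => U)).card : ℕ) : ℝ) = (U.card : ℝ) ^ a := by
    rw [Fintype.card_piFinset]; simp [a]
  have hm2 : (η ^ a * W.card) ^ b * ((Fintype.piFinset (fun _ : α => U)).card : ℝ) ≤
      ∑ x ∈ Fintype.piFinset (fun _ : α => U), c x ^ b := by
    apply mean_pow _ _ (fun x _ => by rw [hc]; positivity) _ (by positivity)
    rw [hcardU]
    refine le_trans (le_of_eq ?_) hm1
    rw [mul_pow]; ring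
  refine le_trans (le_of_eq ?_) hm2
  rw [hcardU, mul_pow, ← pow_mul]
  ring


/-- near-complete sets -/
def NC (R : SimpleGraph V) (ε : ℝ) (U : Finset V) : Prop :=
  ∀ u ∈ U, ((U.filter (fun v => ¬ R.Adj u v)).card : ℝ) ≤ ε * U.card

/-- The two-spot family of parts. -/
def XX (U W : Finset V) (k : ℕ) : Bool × Fin k → Finset V := fun i => if i.1 then W else U

def JJ (k : ℕ) : Bool × Fin k → Bool × Fin k → Prop := fun i j => i.2 ≠ j.2

lemma card_Om_XX (U W : Finset V) (k t : ℕ) :
    ((Om (XX U W k) t).card : ℝ) = (U.card : ℝ) ^ (k * t) * (W.card : ℝ) ^ (k * t) := by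
  unfold Om XX
  rw [Fintype.card_piFinset]
  push_cast
  rw [Fintype.prod_prod_type, Fintype.prod_bool]
  simp only [if_true, Fintype.card_piFinset]
  simp [pow_mul']
  ring

lemma card_cross_Om (R : SimpleGraph V) (U W : Finset V) (k t : ℕ) (η : ℝ) (hη : 0 ≤ η)
    (h : η * (U.card * W.card) ≤ ∑ w ∈ W, ((U.filter (fun u => R.Adj u w)).card : ℝ)) :
    η ^ (k * t * (k * t)) * (Om (XX U W k) t).card ≤
      ((Om (XX U W k) t).filter (fun x => ∀ c c' a b, R.Adj (x (false, c) a) (x (true, c') b))).card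
      := by
  have h1 := card_cross (α := Fin k × Fin t) (β := Fin k × Fin t) R U W η hη h
  rw [Fintype.card_prod, Fintype.card_fin, Fintype.card_fin] at h1
  rw [card_Om_XX]
  refine h1.trans (le_of_eq ?_)
  congr 1
  refine Finset.card_nbij'
    (fun q => fun i s => if i.1 then q.2 (i.2, s) else q.1 (i.2, s))
    (fun x => (fun r => x (false, r.1) r.2, fun r => x (true, r.1) r.2)) ?_ ?_ ?_ ?_
  · intro q hq
    simp only [coe_filter, Set.mem_ofPred_eq, mem_product, Fintype.mem_piFinset, mem_Om] at hq ⊢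
    obtain ⟨⟨h2, h3⟩, h4⟩ := hq
    refine ⟨?_, ?_⟩
    · rintro ⟨b, c⟩ s
      cases b
      · simpa [XX] using h2 (c, s)
      · simpa [XX] using h3 (c, s)
    · intro c c' a b
      simpa using h4 (c, a) (c', b)
  · intro x hx
    simp only [coe_filter, Set.mem_ofPred_eq, mem_product, Fintype.mem_piFinset, mem_Om] at hx ⊢
    obtain ⟨h2, h3⟩ := hx
    refine ⟨⟨?_, ?_⟩, ?_⟩
    · rintro ⟨c, s⟩
      simpa [XX] using h2 (false, c) s
    · rintro ⟨c, s⟩
      simpa [XX] using h2 (true, c) s
    · rintro ⟨c, s⟩ ⟨c', s'⟩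
      exact h3 c c' s s'
  · rintro ⟨q1, q2⟩ _
    simp
  · intro x _
    funext ⟨b, c⟩ s
    cases b <;> simp

lemma card_bad_pair (R : SimpleGraph V) (U W : Finset V) (k t : ℕ) (ε : ℝ)
    (hU : NC R ε U) (hW : NC R ε W) (b : Bool) (c c' : Fin k) (hc : c ≠ c') (a a' : Fin t) :
    (((Om (XX U W k) t).filter (fun x => ¬ R.Adj (x (b, c) a) (x (b, c') a'))).card : ℝ) ≤
      ε * (Om (XX U W k) t).card := by
  have hne : (b, c) ≠ (b, c') := by
    intro h; apply hc; simpa using h
  unfold Om
  refine card_bad_le (fun i : Bool × Fin k => Fintype.piFinset (fun _ : Fin t => XX U W k i))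
    (b, c') (fun x => ¬ R.Adj (x (b, c) a) (x (b, c') a')) ε ?_
  intro x hx
  rw [Fintype.mem_piFinset] at hx
  have hx1 : x (b, c) a ∈ XX U W k (b, c) := by
    have := hx (b, c)
    rw [Fintype.mem_piFinset] at this
    exact this a
  have heq : ∀ z : Fin t → V, (¬ R.Adj (Function.update x (b, c') z (b, c) a)
      (Function.update x (b, c') z (b, c') a')) ↔ ¬ R.Adj (x (b, c) a) (z a') := by
    intro z
    rw [Function.update_self, Function.update_of_ne hne]
  simp only [heq]
  refine card_bad_le (fun _ : Fin t => XX U W k (b, c')) a'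
    (fun z => ¬ R.Adj (x (b, c) a) (z a')) ε ?_
  intro z hz
  simp only [Function.update_self]
  cases b
  · exact hU _ hx1
  · exact hW _ hx1

/-- **Dependent random choice for a pair of spots.** -/
theorem drc_pair (d k : ℕ) (t : ℕ) (η : ℝ) (hη : 0 < η) :
    ∃ K ε0 : ℝ, 1 ≤ K ∧ 0 < ε0 ∧ ∀ (V : Type) (R : SimpleGraph V) (ε : ℝ) (U W : Finset V),
      0 ≤ ε → ε ≤ ε0 → U.Nonempty → W.Nonempty → NC R ε U → NC R ε W →
      η * (U.card * W.card) ≤ ∑ w ∈ W, ((U.filter (fun u => R.Adj u w)).card : ℝ) →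
      ∃ A : Bool × Fin k → Finset V, (∀ i, A i ⊆ XX U W k i) ∧
        ∀ (D : Fin (d + 1)) (i : Bool × Fin k) (p : Fin D → Bool × Fin k),
          (∀ l, i.2 ≠ (p l).2) →
          ∑ P ∈ Fintype.piFinset (fun y => A (p y)),
            gE (XX U W k i).card (NA R (A i) P).card ^ t ≤
            K * ∏ l, ((XX U W k (p l)).card : ℝ) := by
  set ρ : ℝ := η ^ (k * t * (k * t)) / 2 with hρ
  have hρ0 : 0 < ρ := by rw [hρ]; positivity
  set M : ℕ := Fintype.card (Bool × (Fin k × Fin k) × (Fin t × Fin t)) with hM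
  refine ⟨max 1 ((Fintype.card (Pat (Bool × Fin k) d) : ℝ) / ρ), ρ / (M + 1), le_max_left _ _,
    by positivity, ?_⟩
  intro V R ε U W hε0 hε hUne hWne hU hW hdens
  have hXne : ∀ i, (XX U W k i).Nonempty := by
    rintro ⟨b, c⟩; cases b
    · exact hUne
    · exact hWne
  have hcross := card_cross_Om R U W k t η hη.le hdens
  -- the bad events
  set bad : Bool × (Fin k × Fin k) × (Fin t × Fin t) → Finset (Bool × Fin k → Fin t → V) :=
    fun q => if q.2.1.1 ≠ q.2.1.2 then
      (Om (XX U W k) t).filter (fun x => ¬ R.Adj (x (q.1, q.2.1.1) q.2.2.1)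
        (x (q.1, q.2.1.2) q.2.2.2)) else ∅ with hbad
  have hbadcard : ∀ q, ((bad q).card : ℝ) ≤ ε * (Om (XX U W k) t).card := by
    intro q
    rw [hbad]
    dsimp only
    split_ifs with hq
    · exact card_bad_pair R U W k t ε hU hW _ _ _ hq _ _
    · simp; positivity
  have hcount : ρ * (Om (XX U W k) t).card ≤
      (((Om (XX U W k) t).filter (Valid R (JJ k))).card : ℝ) := by
    have hsub : (Om (XX U W k) t).filter
        (fun x => ∀ c c' a b, R.Adj (x (false, c) a) (x (true, c') b)) ⊆
        (Om (XX U W k) t).filter (Valid R (JJ k)) ∪ univ.biUnion bad := by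
      intro x hx
      rw [mem_filter] at hx
      rw [mem_union, mem_biUnion]
      by_cases hv : Valid R (JJ k) x
      · left; rw [mem_filter]; exact ⟨hx.1, hv⟩
      · right
        unfold Valid at hv
        push Not at hv
        obtain ⟨⟨b, c⟩, ⟨b', c'⟩, hJ, a, a', hna⟩ := hv
        have hcc : c ≠ c' := hJ
        have hbb : b = b' := by
          by_contra hbb
          cases b <;> cases b'
          · exact hbb rfl
          · exact hna (hx.2 c c' a a')
          · exact hna (hx.2 c' c a' a).symm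
          · exact hbb rfl
        subst hbb
        refine ⟨(b, (c, c'), (a, a')), mem_univ _, ?_⟩
        rw [hbad]
        dsimp only
        rw [if_pos hcc, mem_filter]
        exact ⟨hx.1, hna⟩
    have h1 := Finset.card_le_card hsub
    have h2 := Finset.card_union_le ((Om (XX U W k) t).filter (Valid R (JJ k)))
      (univ.biUnion bad)
    have h3 : ((univ.biUnion bad).card : ℝ) ≤ M * (ε * (Om (XX U W k) t).card) := by
      have e1 : (univ.biUnion bad).card ≤ ∑ q, (bad q).card := Finset.card_biUnion_le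
      have e2 : ((∑ q, (bad q).card : ℕ) : ℝ) ≤ ∑ _q : Bool × (Fin k × Fin k) × (Fin t × Fin t),
          ε * (Om (XX U W k) t).card := by
        push_cast
        exact Finset.sum_le_sum (fun q _ => hbadcard q)
      rw [Finset.sum_const, nsmul_eq_mul, Finset.card_univ] at e2
      calc ((univ.biUnion bad).card : ℝ) ≤ ((∑ q, (bad q).card : ℕ) : ℝ) := by exact_mod_cast e1
        _ ≤ _ := e2
    have h4 : (((Om (XX U W k) t).filter
        (fun x => ∀ c c' a b, R.Adj (x (false, c) a) (x (true, c') b))).card : ℝ) ≤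
        (((Om (XX U W k) t).filter (Valid R (JJ k))).card : ℝ) +
          ((univ.biUnion bad).card : ℝ) := by
      exact_mod_cast h1.trans h2
    have h5 : (M : ℝ) * ε ≤ ρ := by
      have : ε * (M + 1) ≤ ρ := by
        rw [le_div_iff₀ (by positivity)] at hε
        exact hε
      nlinarith
    have h6 : (M : ℝ) * (ε * (Om (XX U W k) t).card) ≤ ρ * (Om (XX U W k) t).card := by
      rw [← mul_assoc]
      exact mul_le_mul_of_nonneg_right h5 (Nat.cast_nonneg _)
    have h7 : η ^ (k * t * (k * t)) = 2 * ρ := by rw [hρ]; ring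
    rw [h7] at hcross
    linarith
  obtain ⟨x, hx, hval, hstar⟩ := drc_exists R (JJ k) (fun i h => h rfl)
    (fun i j h => Ne.symm h) (XX U W k) hXne t d ρ hρ0 hcount
  refine ⟨Aset R (JJ k) (XX U W k) x, fun i v hv => (mem_Aset.mp hv).1, ?_⟩
  intro D i p hp
  refine (hstar D i p hp).trans ?_
  apply mul_le_mul_of_nonneg_right (le_max_right _ _)
  exact Finset.prod_nonneg (fun _ _ => Nat.cast_nonneg _)

end Count

end Pool.Agent.Helper3.RG
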