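import Mathlib
import Pool.Agent.Helper3.RGDrc

set_option autoImplicit false

open Finset Classical

namespace Pool.Agent.Helper3.RG

section Greedy

variable {V : Type*} {n : ℕ}

/-- Extending a partly defined embedding one vertex after the other. -/
theorem greedy_extend [Nonempty V] (G : SimpleGraph (Fin n)) (R : SimpleGraph V)
    (D0 D : Finset (Fin n))
    (t : Fin n → Finset V) (φ0 : Fin n → V)
    (hinj : ∀ u ∈ D0, ∀ v ∈ D0, φ0 u = φ0 v → u = v)
    (hhom : ∀ u ∈ D0, ∀ v ∈ D0, G.Adj u v → R.Adj (φ0 u) (φ0 v))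
    (hmem : ∀ v ∈ D0, φ0 v ∈ t v)
    (hgood : ∀ v ∈ D, v ∉ D0 → ∀ ψ : Fin n → V, (∀ y ∈ D, (y ∈ D0 ∨ y < v) → ψ y ∈ t y) →
      (∀ y ∈ D, ∀ z ∈ D, (y ∈ D0 ∨ y < v) → (z ∈ D0 ∨ z < v) → ψ y = ψ z → y = z) →
      ∃ x ∈ t v, ∀ y ∈ D, (y ∈ D0 ∨ y < v) → ψ y ≠ x ∧ (G.Adj v y → R.Adj (ψ y) x)) :
    ∃ φ : Fin n → V, (∀ v ∈ D0, φ v = φ0 v) ∧ (∀ u ∈ D, ∀ v ∈ D, φ u = φ v → u = v) ∧
      (∀ u ∈ D, ∀ v ∈ D, G.Adj u v → R.Adj (φ u) (φ v)) ∧ ∀ v ∈ D, φ v ∈ t v := by
  have key : ∀ j : ℕ, j ≤ n → ∃ φ : Fin n → V, (∀ v ∈ D0, φ v = φ0 v) ∧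
      (∀ u ∈ D, ∀ v ∈ D, (u ∈ D0 ∨ (u : ℕ) < j) → (v ∈ D0 ∨ (v : ℕ) < j) → φ u = φ v → u = v) ∧
      (∀ u ∈ D, ∀ v ∈ D, (u ∈ D0 ∨ (u : ℕ) < j) → (v ∈ D0 ∨ (v : ℕ) < j) → G.Adj u v →
        R.Adj (φ u) (φ v)) ∧
      ∀ v ∈ D, (v ∈ D0 ∨ (v : ℕ) < j) → φ v ∈ t v := by
    intro j
    induction j with
    | zero =>
      intro _
      refine ⟨φ0, fun _ _ => rfl, ?_, ?_, ?_⟩
      · intro u _ v _ hu hv
        exact hinj u (by simpa using hu) v (by simpa using hv)
      · intro u _ v _ hu hv
        exact hhom u (by simpa using hu) v (by simpa using hv)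
      · intro v _ hv
        exact hmem v (by simpa using hv)
    | succ j ih =>
      intro hj
      have hjn : j < n := by omega
      obtain ⟨φ, h1, h2, h3, h4⟩ := ih (by omega)
      set w : Fin n := ⟨j, hjn⟩ with hw
      by_cases hwD : w ∈ D ∧ w ∉ D0
      · obtain ⟨hwD1, hwD2⟩ := hwD
        obtain ⟨x, hx1, hx2⟩ := hgood w hwD1 hwD2 φ (fun y hy hyw => h4 y hy (by
            rcases hyw with h | h
            · exact Or.inl h
            · exact Or.inr h))
          (fun y hy z hz hyw hzw => h2 y hy z hz (by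
            rcases hyw with h | h
            · exact Or.inl h
            · exact Or.inr h) (by
            rcases hzw with h | h
            · exact Or.inl h
            · exact Or.inr h))
        have hlt : ∀ y : Fin n, y ≠ w → (y ∈ D0 ∨ (y : ℕ) < j + 1) → (y ∈ D0 ∨ (y : ℕ) < j) := by
          intro y hy h
          rcases h with h | h
          · exact Or.inl h
          · right
            have : (y : ℕ) ≠ j := fun h' => hy (Fin.ext h')
            omega
        refine ⟨Function.update φ w x, ?_, ?_, ?_, ?_⟩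
        · intro v hv
          have : v ≠ w := fun h => hwD2 (h ▸ hv)
          rw [Function.update_of_ne this]; exact h1 v hv
        · intro u hu v hv hu' hv' huv
          by_cases huw : u = w
          · by_cases hvw : v = w
            · rw [huw, hvw]
            · exfalso
              rw [huw, Function.update_self, Function.update_of_ne hvw] at huv
              exact (hx2 v hv (hlt v hvw hv')).1 huv.symm
          · by_cases hvw : v = w
            · exfalso
              rw [hvw, Function.update_self, Function.update_of_ne huw] at huv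
              exact (hx2 u hu (hlt u huw hu')).1 huv
            · rw [Function.update_of_ne hvw, Function.update_of_ne huw] at huv
              exact h2 u hu v hv (hlt u huw hu') (hlt v hvw hv') huv
        · intro u hu v hv hu' hv' huv
          by_cases huw : u = w
          · by_cases hvw : v = w
            · exfalso; rw [huw, hvw] at huv; exact G.loopless.irrefl _ huv
            · rw [huw, Function.update_self, Function.update_of_ne hvw]
              rw [huw] at huv
              exact ((hx2 v hv (hlt v hvw hv')).2 huv).symm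
          · by_cases hvw : v = w
            · rw [hvw, Function.update_self, Function.update_of_ne huw]
              rw [hvw] at huv
              exact (hx2 u hu (hlt u huw hu')).2 huv.symm
            · rw [Function.update_of_ne hvw, Function.update_of_ne huw]
              exact h3 u hu v hv (hlt u huw hu') (hlt v hvw hv') huv
        · intro v hv hv'
          by_cases hvw : v = w
          · rw [hvw, Function.update_self]; exact hx1
          · rw [Function.update_of_ne hvw]; exact h4 v hv (hlt v hvw hv')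
      · have hlt : ∀ y ∈ D, (y ∈ D0 ∨ (y : ℕ) < j + 1) → (y ∈ D0 ∨ (y : ℕ) < j) := by
          intro y hy h
          rcases h with h | h
          · exact Or.inl h
          · by_cases hyw : y = w
            · left
              by_contra hc
              exact hwD ⟨hyw ▸ hy, hyw ▸ hc⟩
            · right
              have : (y : ℕ) ≠ j := fun h' => hyw (Fin.ext h')
              omega
        exact ⟨φ, h1, fun u hu v hv hu' hv' => h2 u hu v hv (hlt u hu hu') (hlt v hv hv'),
          fun u hu v hv hu' hv' => h3 u hu v hv (hlt u hu hu') (hlt v hv hv'),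
          fun v hv hv' => h4 v hv (hlt v hv hv')⟩
  obtain ⟨φ, h1, h2, h3, h4⟩ := key n le_rfl
  exact ⟨φ, h1, fun u hu v hv => h2 u hu v hv (Or.inr u.2) (Or.inr v.2),
    fun u hu v hv => h3 u hu v hv (Or.inr u.2) (Or.inr v.2), fun v hv => h4 v hv (Or.inr v.2)⟩

/-- Counting candidates. -/
lemma exists_candidate {α : Type*} (R : SimpleGraph V) (tv : Finset V) (ψ : α → V)
    (Y : Finset α) (Us : Finset V) (ρ c : ℝ) (K : ℕ)
    (hY : Y.card ≤ K) (hρ0 : 0 ≤ ρ)
    (hρ : ∀ y ∈ Y, ((tv.filter (fun x => ¬ R.Adj (ψ y) x)).card : ℝ) ≤ ρ)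
    (hc : ((tv.filter (fun x => x ∈ Us)).card : ℝ) ≤ c) (hlt : K * ρ + c < tv.card) :
    ∃ x ∈ tv, x ∉ Us ∧ ∀ y ∈ Y, R.Adj (ψ y) x := by
  by_contra hcon
  push Not at hcon
  have hsub : tv ⊆ tv.filter (fun x => x ∈ Us) ∪
      Y.biUnion (fun y => tv.filter (fun x => ¬ R.Adj (ψ y) x)) := by
    intro x hx
    rw [mem_union, mem_filter, mem_biUnion]
    by_cases h : x ∈ Us
    · exact Or.inl ⟨hx, h⟩
    · right
      obtain ⟨y, hy, hya⟩ := hcon x hx h
      exact ⟨y, hy, mem_filter.mpr ⟨hx, hya⟩⟩
  have h1 : (tv.card : ℝ) ≤ (tv.filter (fun x => x ∈ Us)).card +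
      ∑ y ∈ Y, ((tv.filter (fun x => ¬ R.Adj (ψ y) x)).card : ℝ) := by
    have := (Finset.card_le_card hsub).trans (Finset.card_union_le _ _)
    have h2 : (Y.biUnion (fun y => tv.filter (fun x => ¬ R.Adj (ψ y) x))).card ≤
        ∑ y ∈ Y, (tv.filter (fun x => ¬ R.Adj (ψ y) x)).card := Finset.card_biUnion_le
    have h3 : tv.card ≤ (tv.filter (fun x => x ∈ Us)).card +
      ∑ y ∈ Y, (tv.filter (fun x => ¬ R.Adj (ψ y) x)).card := by omega
    exact_mod_cast h3
  have h4 : ∑ y ∈ Y, ((tv.filter (fun x => ¬ R.Adj (ψ y) x)).card : ℝ) ≤ Y.card * ρ := by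
    have := Finset.sum_le_sum hρ
    rw [Finset.sum_const, nsmul_eq_mul] at this
    exact this
  have h5 : (Y.card : ℝ) * ρ ≤ K * ρ := by
    apply mul_le_mul_of_nonneg_right _ hρ0
    exact_mod_cast hY
  linarith

end Greedy

section Closure

variable {n : ℕ}

/-- Neighbours of `v` in `M`. -/
noncomputable def nbM (G : SimpleGraph (Fin n)) (M : Finset (Fin n)) (v : Fin n) :
    Finset (Fin n) := M.filter (fun y => G.Adj v y)

/-- Earlier neighbours of `v`. -/
noncomputable def bk (G : SimpleGraph (Fin n)) (v : Fin n) : Finset (Fin n) :=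
  univ.filter (fun y => y < v ∧ G.Adj v y)

lemma e2_le (G : SimpleGraph (Fin n)) (d : ℕ) (hd : ∀ v, (bk G v).card ≤ d)
    (M : Finset (Fin n)) : ∑ v ∈ M, (nbM G M v).card ≤ 2 * d * M.card := by
  have h1 : ∀ v ∈ M, (nbM G M v).card ≤
      (bk G v).card + (M.filter (fun y => v ∈ bk G y)).card := by
    intro v hv
    rw [← Nat.add_zero ((nbM G M v).card)]
    have hsub : nbM G M v ⊆ bk G v ∪ M.filter (fun y => v ∈ bk G y) := by
      intro y hy
      unfold nbM at hy
      rw [mem_filter] at hy
      rw [mem_union, mem_filter]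
      unfold bk
      rw [mem_filter, mem_filter]
      rcases lt_trichotomy y v with h | h | h
      · left; exact ⟨mem_univ _, h, hy.2⟩
      · exfalso; rw [h] at hy; exact G.loopless.irrefl _ hy.2
      · right; exact ⟨hy.1, mem_univ _, h, hy.2.symm⟩
    have := (Finset.card_le_card hsub).trans (Finset.card_union_le _ _)
    omega
  have h2 : ∑ v ∈ M, (M.filter (fun y => v ∈ bk G y)).card ≤ ∑ y ∈ M, (bk G y).card := by
    simp_rw [Finset.card_filter]
    rw [Finset.sum_comm]
    apply Finset.sum_le_sum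
    intro y _
    rw [← Finset.card_filter]
    apply Finset.card_le_card
    intro v hv
    exact (mem_filter.mp hv).2
  have h3 : ∑ y ∈ M, (bk G y).card ≤ d * M.card := by
    calc ∑ y ∈ M, (bk G y).card ≤ ∑ y ∈ M, d := Finset.sum_le_sum (fun y _ => hd y)
      _ = d * M.card := by rw [Finset.sum_const, smul_eq_mul, mul_comm]
  calc ∑ v ∈ M, (nbM G M v).card ≤ ∑ v ∈ M, ((bk G v).card +
        (M.filter (fun y => v ∈ bk G y)).card) := Finset.sum_le_sum h1
    _ = ∑ v ∈ M, (bk G v).card + ∑ v ∈ M, (M.filter (fun y => v ∈ bk G y)).card :=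
        Finset.sum_add_distrib
    _ ≤ 2 * d * M.card := by
        have : 2 * d * M.card = d * M.card + d * M.card := by ring
        omega

lemma e2_insert (G : SimpleGraph (Fin n)) (M : Finset (Fin n)) (v : Fin n) (hv : v ∉ M) :
    ∑ u ∈ M, (nbM G M u).card + 2 * (nbM G M v).card ≤
      ∑ u ∈ insert v M, (nbM G (insert v M) u).card := by
  rw [Finset.sum_insert hv]
  have h1 : (nbM G M v).card ≤ (nbM G (insert v M) v).card := by
    apply Finset.card_le_card
    unfold nbM
    exact Finset.filter_subset_filter _ (Finset.subset_insert _ _)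
  have h2 : ∑ u ∈ M, (nbM G M u).card + (nbM G M v).card ≤
      ∑ u ∈ M, (nbM G (insert v M) u).card := by
    have e1 : (nbM G M v).card = ∑ u ∈ M, (if G.Adj v u then 1 else 0) := by
      unfold nbM
      rw [Finset.card_filter]
    rw [e1, ← Finset.sum_add_distrib]
    apply Finset.sum_le_sum
    intro u hu
    unfold nbM
    rw [Finset.filter_insert]
    split_ifs with h3 h4 h4
    · rw [Finset.card_insert_of_notMem (by
        rw [mem_filter]; exact fun h => hv h.1)]
    · exact absurd h3.symm h4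
    · exact absurd h4.symm h3
    · simp
  omega

/-- Closing a set of vertices so that every outside vertex has few neighbours in it. -/
lemma closure_exists (G : SimpleGraph (Fin n)) (d : ℕ) (hd : ∀ v, (bk G v).card ≤ d)
    (M0 A0 : Finset (Fin n)) (h0 : M0 ⊆ A0) :
    ∃ M : Finset (Fin n), M0 ⊆ M ∧ M ⊆ A0 ∧ M.card ≤ 2 * M0.card ∧
      ∀ v ∈ A0, v ∉ M → (nbM G M v).card ≤ 2 * d := by
  set P : Finset (Finset (Fin n)) := A0.powerset.filter (fun M => M0 ⊆ M ∧
    2 * (2 * d + 1) * M.card ≤ ∑ u ∈ M, (nbM G M u).card + 2 * (2 * d + 1) * M0.card) with hP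
  have hne : P.Nonempty := ⟨M0, by
    rw [hP, mem_filter, mem_powerset]
    exact ⟨h0, Finset.Subset.refl _, by omega⟩⟩
  obtain ⟨M, hM, hmax⟩ := Finset.exists_max_image P Finset.card hne
  rw [hP, mem_filter, mem_powerset] at hM
  obtain ⟨hMA, hM0, hMe⟩ := hM
  refine ⟨M, hM0, hMA, ?_, ?_⟩
  · have h1 := e2_le G d hd M
    have h2 : 2 * (2 * d + 1) * M.card ≤ 2 * d * M.card + 2 * (2 * d + 1) * M0.card := by omega
    have h3 : 2 * (d + 1) * M.card ≤ 2 * (d + 1) * (2 * M0.card) := by
      have e1 : 2 * (2 * d + 1) * M.card = 2 * d * M.card + 2 * (d + 1) * M.card := by ring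
      have e2 : 2 * (2 * d + 1) * M0.card ≤ 2 * (d + 1) * (2 * M0.card) := by
        have : 2 * (d + 1) * (2 * M0.card) = 2 * (2 * d + 1) * M0.card + 2 * M0.card := by ring
        omega
      omega
    exact Nat.le_of_mul_le_mul_left h3 (by omega)
  · intro v hvA hvM
    by_contra hcon
    push Not at hcon
    have h1 := e2_insert G M v hvM
    have h2 : insert v M ∈ P := by
      rw [hP, mem_filter, mem_powerset]
      refine ⟨Finset.insert_subset hvA hMA, hM0.trans (Finset.subset_insert _ _), ?_⟩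
      rw [Finset.card_insert_of_notMem hvM]
      have : 2 * (2 * d + 1) * (M.card + 1) = 2 * (2 * d + 1) * M.card + 2 * (2 * d + 1) := by
        ring
      omega
    have h3 := hmax _ h2
    rw [Finset.card_insert_of_notMem hvM] at h3
    omega

end Closure

end Pool.Agent.Helper3.RG
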