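import Mathlib
import Pool.Agent.Helper3.RGGreedy

set_option autoImplicit false

open Finset Classical

namespace Pool.Agent.Helper3.RG

section Star

variable {V : Type*} {m : ℕ}

lemma gE_scale {N x : ℝ} (hx : 0 < x) (ν : ℕ) : gE N ν = (N / x) * gE x ν := by
  unfold gE
  have h1 : (0 : ℝ) < max (ν : ℝ) (1 / 2) := lt_max_of_lt_right (by norm_num)
  field_simp

lemma avg_star_eq (R : SimpleGraph V) (S : Fin m → Finset V) (back : Fin m → Finset (Fin m))
    (N : ℝ) (a : Fin m) (t D : ℕ) (e : Fin D ≃ {y // y ∈ back a}) (φ : Fin m → V) :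
    avg N S (back a) (hfun R S back N a ∅ t) φ =
      (N ^ D)⁻¹ * ∑ Q ∈ Fintype.piFinset (fun l : Fin D => S (e l)),
        gE N (NA R (S a) Q).card ^ t := by
  have hD : (back a).card = D := by
    have := Fintype.card_congr e
    rw [Fintype.card_fin, Fintype.card_coe] at this
    exact this.symm
  unfold avg
  rw [hD]
  congr 1
  refine Finset.sum_bij' (fun P _ => fun l => P (e l))
    (fun Q _ => fun y => if h : y ∈ back a then Q (e.symm ⟨y, h⟩) else φ y) ?_ ?_ ?_ ?_ ?_
  · intro P hP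
    rw [mem_compl] at hP
    rw [Fintype.mem_piFinset]
    intro l
    have := hP (e l)
    rw [if_pos (e l).2] at this
    exact this
  · intro Q hQ
    rw [Fintype.mem_piFinset] at hQ
    rw [mem_compl]
    intro y
    by_cases h : y ∈ back a
    · rw [if_pos h, dif_pos h]
      have := hQ (e.symm ⟨y, h⟩)
      simpa using this
    · rw [if_neg h, dif_neg h]
  · intro P hP
    rw [mem_compl] at hP
    funext y
    by_cases h : y ∈ back a
    · rw [dif_pos h]; simp
    · rw [dif_neg h]
      have := hP y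
      rw [if_neg h] at this
      exact this.symm
  · intro Q _
    funext l
    dsimp only
    rw [dif_pos (e l).2]
    simp
  · intro P _
    unfold hfun
    congr 2
    congr 1
    ext x
    rw [mem_cand, mem_NA]
    constructor
    · rintro ⟨h1, _, h3⟩
      exact ⟨h1, fun l => h3 _ (e l).2⟩
    · rintro ⟨h1, h3⟩
      refine ⟨h1, by simp, fun y hy => ?_⟩
      have := h3 (e.symm ⟨y, hy⟩)
      simpa using this

lemma star_drc (R : SimpleGraph V) (S : Fin m → Finset V) (back : Fin m → Finset (Fin m))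
    {N : ℝ} (hN : 0 < N) (a : Fin m) (t D : ℕ) (e : Fin D ≃ {y // y ∈ back a}) (φ : Fin m → V)
    (xa K r0 : ℝ) (x : Fin D → ℝ) (hxa : 0 < xa) (hK : 0 ≤ K) (hx0 : ∀ l, 0 ≤ x l)
    (hx : ∀ l, x l ≤ N) (hr : N / xa ≤ r0)
    (h : ∑ Q ∈ Fintype.piFinset (fun l : Fin D => S (e l)), gE xa (NA R (S a) Q).card ^ t ≤
      K * ∏ l, x l) :
    avg N S (back a) (hfun R S back N a ∅ t) φ ≤ r0 ^ t * K := by
  rw [avg_star_eq R S back N a t D e φ]
  have h1 : ∑ Q ∈ Fintype.piFinset (fun l : Fin D => S (e l)), gE N (NA R (S a) Q).card ^ t =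
      (N / xa) ^ t * ∑ Q ∈ Fintype.piFinset (fun l : Fin D => S (e l)),
        gE xa (NA R (S a) Q).card ^ t := by
    rw [Finset.mul_sum]
    apply Finset.sum_congr rfl
    intro Q _
    rw [gE_scale hxa, mul_pow]
  rw [h1]
  have h2 : ∏ l, x l ≤ N ^ D := by
    calc ∏ l, x l ≤ ∏ _l : Fin D, N := Finset.prod_le_prod (fun l _ => hx0 l) (fun l _ => hx l)
      _ = N ^ D := by simp
  have h3 : (N / xa) ^ t ≤ r0 ^ t := pow_le_pow_left₀ (by positivity) hr t
  have hND : 0 < N ^ D := pow_pos hN D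
  calc (N ^ D)⁻¹ * ((N / xa) ^ t * ∑ Q ∈ Fintype.piFinset (fun l : Fin D => S (e l)),
        gE xa (NA R (S a) Q).card ^ t)
      ≤ (N ^ D)⁻¹ * ((N / xa) ^ t * (K * N ^ D)) := by
        apply mul_le_mul_of_nonneg_left _ (by positivity)
        apply mul_le_mul_of_nonneg_left _ (by positivity)
        exact h.trans (mul_le_mul_of_nonneg_left h2 hK)
    _ = (N / xa) ^ t * K := by field_simp
    _ ≤ r0 ^ t * K := mul_le_mul_of_nonneg_right h3 hK

lemma star_near (R : SimpleGraph V) (S : Fin m → Finset V) (back : Fin m → Finset (Fin m))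
    {N : ℝ} (hN : 0 < N) (hS : ∀ y, ((S y).card : ℝ) ≤ N) (a : Fin m) (t d : ℕ)
    (hd : (back a).card ≤ d) (φ : Fin m → V) (ρ c0 : ℝ) (hρ0 : 0 ≤ ρ) (hc0 : 0 < c0)
    (hρ : ∀ y ∈ back a, ∀ x ∈ S y, (((S a).filter (fun v => ¬ R.Adj x v)).card : ℝ) ≤ ρ)
    (hsz : d * ρ + c0 ≤ (S a).card) :
    avg N S (back a) (hfun R S back N a ∅ t) φ ≤ (N / c0) ^ t := by
  have hterm : ∀ P ∈ compl (back a) S φ, hfun R S back N a ∅ t P ≤ (N / c0) ^ t := by
    intro P hP
    unfold hfun
    apply pow_le_pow_left₀ (gE_pos hN _).le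
    unfold gE
    apply div_le_div_of_nonneg_left hN.le hc0
    refine le_max_of_le_left ?_
    -- the candidate set is large
    have hsub : S a ⊆ cand R S back a P ∅ ∪
        (back a).biUnion (fun y => (S a).filter (fun v => ¬ R.Adj (P y) v)) := by
      intro x hx
      rw [mem_union, mem_cand, mem_biUnion]
      by_cases hc : ∀ y ∈ back a, R.Adj (P y) x
      · exact Or.inl ⟨hx, by simp, hc⟩
      · right
        push Not at hc
        obtain ⟨y, hy, hya⟩ := hc
        exact ⟨y, hy, mem_filter.mpr ⟨hx, hya⟩⟩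
    have h1 := (Finset.card_le_card hsub).trans (Finset.card_union_le _ _)
    have h2 : ((back a).biUnion (fun y => (S a).filter (fun v => ¬ R.Adj (P y) v))).card ≤
        ∑ y ∈ back a, ((S a).filter (fun v => ¬ R.Adj (P y) v)).card := Finset.card_biUnion_le
    have h3 : ((∑ y ∈ back a, ((S a).filter (fun v => ¬ R.Adj (P y) v)).card : ℕ) : ℝ) ≤
        (back a).card * ρ := by
      push_cast
      have h4 : ∀ y ∈ back a, (((S a).filter (fun v => ¬ R.Adj (P y) v)).card : ℝ) ≤ ρ := by
        intro y hy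
        apply hρ y hy
        rw [mem_compl] at hP
        have := hP y
        rwa [if_pos hy] at this
      have := Finset.sum_le_sum h4
      rwa [Finset.sum_const, nsmul_eq_mul] at this
    have h5 : ((back a).card : ℝ) * ρ ≤ d * ρ := by
      apply mul_le_mul_of_nonneg_right _ hρ0
      exact_mod_cast hd
    have h6 : ((S a).card : ℝ) ≤ (cand R S back a P ∅).card +
        ((∑ y ∈ back a, ((S a).filter (fun v => ¬ R.Adj (P y) v)).card : ℕ) : ℝ) := by
      exact_mod_cast h1.trans (by omega)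
    linarith
  unfold avg
  have hND : 0 < N ^ (back a).card := pow_pos hN _
  have hsum : ∑ P ∈ compl (back a) S φ, hfun R S back N a ∅ t P ≤
      (compl (back a) S φ).card * (N / c0) ^ t := by
    have := Finset.sum_le_sum hterm
    rwa [Finset.sum_const, nsmul_eq_mul] at this
  have hcard := card_compl_le S (back a) hS φ
  calc (N ^ (back a).card)⁻¹ * ∑ P ∈ compl (back a) S φ, hfun R S back N a ∅ t P
      ≤ (N ^ (back a).card)⁻¹ * (N ^ (back a).card * (N / c0) ^ t) := by
        apply mul_le_mul_of_nonneg_left _ (by positivity)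
        refine hsum.trans ?_
        apply mul_le_mul_of_nonneg_right hcard (by positivity)
    _ = (N / c0) ^ t := by field_simp

/-- The sets given by dependent random choice are large. -/
lemma large_of_star0 {x K : ℝ} (hx : 0 < x) (hK : 1 ≤ K) (hxK : K ≤ x) (a t : ℕ) (ht : 1 ≤ t)
    (h : gE x a ^ t ≤ K) (ha : (a : ℝ) ≤ x) : x ≤ K * a := by
  have h1 : 1 ≤ gE x a := one_le_gE (by linarith) ha
  have h2 : gE x a ≤ K := by
    calc gE x a = gE x a ^ 1 := (pow_one _).symm
      _ ≤ gE x a ^ t := pow_le_pow_right₀ h1 ht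
      _ ≤ K := h
  unfold gE at h2
  have h3 : (0 : ℝ) < max (a : ℝ) (1 / 2) := lt_max_of_lt_right (by norm_num)
  rw [div_le_iff₀ h3] at h2
  rcases le_total (a : ℝ) (1 / 2) with h4 | h4
  · rw [max_eq_right h4] at h2
    exfalso
    linarith
  · rw [max_eq_left h4] at h2
    exact h2

end Star

end Pool.Agent.Helper3.RG
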