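import Mathlib

set_option autoImplicit false

open Finset Classical

namespace Pool.Agent.Helper3.RG

section Walk

variable {α : Type*}

lemma walk_list (Q : SimpleGraph α) (Ks : Finset α) (hreach : ∀ a ∈ Ks, ∀ b ∈ Ks, Q.Reachable a b)
    (hclosed : ∀ a ∈ Ks, ∀ b, Q.Adj a b → b ∈ Ks) (stay : α → ℕ) (L : List α) :
    ∀ a : α, a ∈ Ks → (∀ x ∈ L, x ∈ Ks) →
    ∃ l : List α, l.head? = some a ∧ List.IsChain (fun x y => x = y ∨ Q.Adj x y) l ∧
      (∀ x ∈ l, x ∈ Ks) ∧ stay a + (L.map stay).sum ≤ l.length ∧
      ∀ x, l.count x ≤ (List.count x (a :: L)) * stay x + 2 * (L.length + 1) := by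
  induction L with
  | nil =>
    intro a ha _
    refine ⟨List.replicate (stay a + 1) a, ?_, ?_, ?_, ?_, ?_⟩
    · rw [List.replicate_succ]; rfl
    · exact List.isChain_replicate_of_rel _ (Or.inl rfl)
    · intro x hx; rw [List.eq_of_mem_replicate hx]; exact ha
    · simp
    · intro x
      rw [List.count_replicate]
      by_cases h : a = x
      · subst h; simp
      · have h' : (a == x) = false := by simpa using h
        rw [h']
        simp
  | cons b L ih =>
    intro a ha hL
    have hb : b ∈ Ks := hL b (by simp)
    obtain ⟨l', h1, h2, h3, h4, h5⟩ := ih b hb (fun x hx => hL x (by simp [hx]))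
    obtain ⟨p0⟩ := hreach a ha b hb
    set p : Q.Walk a b := (p0.toPath : Q.Walk a b) with hp
    have hpath : p.IsPath := p0.toPath.2
    -- all support vertices lie in Ks
    have hsupp : ∀ {u v : α} (w : Q.Walk u v), u ∈ Ks → ∀ x ∈ w.support, x ∈ Ks := by
      intro u v w
      induction w with
      | nil => intro hu x hx; simp at hx; rw [hx]; exact hu
      | cons h _ ih2 =>
        intro hu x hx
        simp only [SimpleGraph.Walk.support_cons, List.mem_cons] at hx
        rcases hx with rfl | hx
        · exact hu
        · exact ih2 (hclosed _ hu _ h) x hx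
    have hplast : p.support.getLast? = some b := by
      rw [List.getLast?_eq_some_getLast p.support_ne_nil, SimpleGraph.Walk.getLast_support]
    have hphead : p.support.head? = some a := by
      rw [List.head?_eq_some_head p.support_ne_nil, SimpleGraph.Walk.head_support]
    refine ⟨List.replicate (stay a + 1) a ++ (p.support ++ l'), ?_, ?_, ?_, ?_, ?_⟩
    · rw [List.replicate_succ]; rfl
    · apply List.IsChain.append
      · exact List.isChain_replicate_of_rel _ (Or.inl rfl)
      · apply List.IsChain.append
        · exact (SimpleGraph.Walk.isChain_adj_support p).imp (fun _ _ h => Or.inr h)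
        · exact h2
        · intro x hx y hy
          rw [hplast] at hx
          rw [h1] at hy
          left
          simp only [Option.mem_def, Option.some.injEq] at hx hy
          rw [← hx, ← hy]
      · intro x hx y hy
        left
        have hx' : x = a := by
          have := List.mem_of_getLast? hx
          exact List.eq_of_mem_replicate this
        rw [List.head?_append, hphead] at hy
        simp only [Option.some_or, Option.mem_def, Option.some.injEq] at hy
        rw [hx', ← hy]
    · intro x hx
      rw [List.mem_append, List.mem_append] at hx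
      rcases hx with hx | hx | hx
      · rw [List.eq_of_mem_replicate hx]; exact ha
      · exact hsupp p ha x hx
      · exact h3 x hx
    · rw [List.length_append, List.length_append, List.length_replicate]
      simp only [List.map_cons, List.sum_cons]
      omega
    · intro x
      rw [List.count_append, List.count_append]
      have e1 : List.count x p.support ≤ 1 :=
        List.nodup_iff_count_le_one.mp hpath.support_nodup x
      have e2 := h5 x
      have e3 : List.count x (List.replicate (stay a + 1) a) + List.count x (b :: L) * stay x ≤
          List.count x (a :: b :: L) * stay x + 1 := by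
        rw [List.count_replicate]
        by_cases h : a = x
        · subst h
          simp only [BEq.rfl, if_true, List.count_cons_self]
          ring_nf
          omega
        · have h' : (a == x) = false := by simpa using h
          rw [h', List.count_cons_of_ne h]
          simp
      have e4 : 2 * ((b :: L).length + 1) = 2 * (L.length + 1) + 2 := by
        simp only [List.length_cons]; ring
      rw [e4]
      omega

lemma count_range_getD (l : List α) (a0 x : α) (Z : ℕ) (hZ : Z ≤ l.length) :
    ((Finset.range Z).filter (fun z => l.getD z a0 = x)).card ≤ l.count x := by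
  induction l generalizing Z with
  | nil => simp at hZ; subst hZ; simp
  | cons b l ih =>
    cases Z with
    | zero => simp
    | succ Z =>
      have h1 := ih Z (by simpa using hZ)
      rw [Finset.range_add_one', Finset.filter_insert]
      have h2 : (((Finset.range Z).map ⟨fun i => i + 1, fun i j => by simp⟩).filter
          (fun z => (b :: l).getD z a0 = x)).card =
          ((Finset.range Z).filter (fun z => l.getD z a0 = x)).card := by
        rw [Finset.filter_map, Finset.card_map]
        congr 1
      split_ifs with h
      · have : b = x := by simpa using h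
        subst this
        rw [List.count_cons_self]
        refine (Finset.card_insert_le _ _).trans ?_
        omega
      · have hbx : b ≠ x := by
          intro h'; apply h; simpa using h'
        rw [List.count_cons_of_ne hbx]
        omega

/-- A lazy walk with prescribed capacities. -/
lemma lazy_walk (Q : SimpleGraph α) (Ks : Finset α) (hne : Ks.Nonempty)
    (hreach : ∀ a ∈ Ks, ∀ b ∈ Ks, Q.Reachable a b)
    (hclosed : ∀ a ∈ Ks, ∀ b, Q.Adj a b → b ∈ Ks) (cap : α → ℕ)
    (hcap : ∀ a ∈ Ks, 2 * Ks.card ≤ cap a) (Z : ℕ)
    (hZ : Z + 2 * Ks.card * Ks.card ≤ ∑ a ∈ Ks, cap a) :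
    ∃ w : ℕ → α, (∀ z, z < Z → w z ∈ Ks) ∧
      (∀ z, z + 1 < Z → w z = w (z + 1) ∨ Q.Adj (w z) (w (z + 1))) ∧
      ∀ a ∈ Ks, ((Finset.range Z).filter (fun z => w z = a)).card ≤ cap a := by
  obtain ⟨a0, L, hL⟩ : ∃ a0 L, Ks.toList = a0 :: L := by
    cases h : Ks.toList with
    | nil =>
      exfalso
      rw [Finset.toList_eq_nil] at h
      exact hne.ne_empty h
    | cons a L => exact ⟨a, L, rfl⟩
  have hmem : ∀ x, x ∈ a0 :: L ↔ x ∈ Ks := by
    intro x; rw [← hL]; exact Finset.mem_toList
  set stay : α → ℕ := fun a => cap a - 2 * Ks.card with hstay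
  obtain ⟨l, -, h2, h3, h4, h5⟩ := walk_list Q Ks hreach hclosed stay L a0
    ((hmem a0).mp (by simp)) (fun x hx => (hmem x).mp (by simp [hx]))
  have hlen : L.length + 1 = Ks.card := by
    rw [← Finset.length_toList, hL]; simp
  have hsum : stay a0 + (L.map stay).sum = ∑ a ∈ Ks, stay a := by
    rw [← Finset.sum_map_toList, hL]; simp
  have hsum2 : ∑ a ∈ Ks, cap a ≤ ∑ a ∈ Ks, stay a + 2 * Ks.card * Ks.card := by
    calc ∑ a ∈ Ks, cap a ≤ ∑ a ∈ Ks, (stay a + 2 * Ks.card) := by
          apply Finset.sum_le_sum
          intro a _
          rw [hstay]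
          dsimp only
          omega
      _ = ∑ a ∈ Ks, stay a + 2 * Ks.card * Ks.card := by
          rw [Finset.sum_add_distrib, Finset.sum_const, smul_eq_mul]
          ring
  have hZl : Z ≤ l.length := by omega
  refine ⟨fun z => l.getD z a0, ?_, ?_, ?_⟩
  · intro z hz
    have hz' : z < l.length := by omega
    dsimp only
    rw [List.getD_eq_getElem l a0 hz']
    exact h3 _ (List.getElem_mem _)
  · intro z hz
    have hz' : z + 1 < l.length := by omega
    dsimp only
    rw [List.getD_eq_getElem l a0 hz', List.getD_eq_getElem l a0 (by omega)]
    exact List.isChain_iff_getElem.mp h2 z hz'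
  · intro a ha
    refine (count_range_getD l a0 a Z hZl).trans ?_
    refine (h5 a).trans ?_
    have hcount : List.count a (a0 :: L) = 1 := by
      rw [← hL]
      exact List.count_eq_one_of_mem (Finset.nodup_toList _) (Finset.mem_toList.mpr ha)
    rw [hcount, hlen, hstay]
    have := hcap a ha
    dsimp only
    omega

end Walk

end Pool.Agent.Helper3.RG
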