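import Mathlib
import Pool.Agent.Helper3.RGStar
import Pool.Agent.Helper3.RGWalk

set_option autoImplicit false

open Finset Classical

namespace Pool.Agent.Helper3.RG

/-- The guest graph with all its data. -/
structure Guest (n d b : ℕ) where
  G : SimpleGraph (Fin n)
  hbk : ∀ v, (bk G v).card ≤ d
  p : Fin n → ℕ
  hp_lt : ∀ v, p v < n
  hp_inj : Function.Injective p
  hbw : ∀ u v, G.Adj u v → p u ≤ p v + b
  col : Fin n → Fin (d + 1)
  hcol : ∀ u v, G.Adj u v → col u ≠ col v

section Slots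

variable {n d b : ℕ} (g : Guest n d b)

lemma slot_nbr (L : ℕ) (hL : 4 * b + 1 ≤ L) (u v : Fin n) (h : g.G.Adj u v) :
    g.p u / L = g.p v / L ∨
    (g.p u / L + 1 = g.p v / L ∧ (g.p v / L) * L ≤ g.p v + b ∧ g.p v < (g.p v / L) * L + b) ∨
    (g.p u / L = g.p v / L + 1 ∧ (g.p v / L + 1) * L ≤ g.p v + b ∧
      g.p v < (g.p v / L + 1) * L + b) := by
  have h1 := g.hbw u v h
  have h2 := g.hbw v u h.symm
  have hL0 : 0 < L := by omega
  set a := g.p u with ha
  set c := g.p v with hc
  have e1 := Nat.div_add_mod a L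
  have e2 := Nat.div_add_mod c L
  have e3 := Nat.mod_lt a hL0
  have e4 := Nat.mod_lt c hL0
  set qa := a / L
  set qc := c / L
  rcases lt_trichotomy qa qc with h3 | h3 | h3
  · right; left
    have h4 : qa + 1 = qc := by
      by_contra hne
      have h5 : qa + 2 ≤ qc := by omega
      have h6 : L * (qa + 2) ≤ L * qc := Nat.mul_le_mul_left _ h5
      have h7 : L * (qa + 2) = L * qa + 2 * L := by ring
      omega
    refine ⟨h4, ?_, ?_⟩
    · rw [mul_comm]; omega
    · have h6 : L * qc = L * qa + L := by rw [← h4]; ring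
      rw [mul_comm qc L]; omega
  · left; exact h3
  · right; right
    have h4 : qa = qc + 1 := by
      by_contra hne
      have h5 : qc + 2 ≤ qa := by omega
      have h6 : L * (qc + 2) ≤ L * qa := Nat.mul_le_mul_left _ h5
      have h7 : L * (qc + 2) = L * qc + 2 * L := by ring
      omega
    have h6 : L * (qc + 1) = L * qc + L := by ring
    have h8 : L * qa = L * qc + L := by rw [h4]; ring
    refine ⟨h4, ?_, ?_⟩
    · rw [mul_comm]; omega
    · rw [mul_comm (qc + 1) L]; omega

lemma card_interval (lo hi K : ℕ) (h : hi ≤ lo + K) (s : Finset (Fin n))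
    (hs : ∀ v ∈ s, lo ≤ g.p v ∧ g.p v < hi) : s.card ≤ K := by
  have h1 : s.card = (s.image g.p).card := (Finset.card_image_of_injective s g.hp_inj).symm
  rw [h1]
  have h2 : s.image g.p ⊆ Finset.Ico lo hi := by
    intro x hx
    rw [mem_image] at hx
    obtain ⟨v, hv, rfl⟩ := hx
    rw [Finset.mem_Ico]
    exact hs v hv
  have := Finset.card_le_card h2
  rw [Nat.card_Ico] at this
  omega

end Slots


section Phase1

variable {V : Type*} {n : ℕ}

/-- The moment embedding lemma for the vertices in a set `M`. -/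
theorem moment_embedding_on [Nonempty V] (G : SimpleGraph (Fin n)) (R : SimpleGraph V) (d : ℕ)
    (hbk : ∀ v, (bk G v).card ≤ d) (M : Finset (Fin n)) (T : Fin n → Finset V)
    {N : ℝ} (hN : 1 ≤ N) (hT : ∀ y, ((T y).card : ℝ) ≤ N) (K2 : ℝ) (hK2 : 0 ≤ K2)
    (hstar : ∀ u ∈ M,
      (∃ ρ c0 : ℝ, 0 ≤ ρ ∧ 0 < c0 ∧ (N / c0) ^ (ex d) ≤ K2 ∧
        (∀ y ∈ M, G.Adj u y → ∀ x ∈ T y, (((T u).filter (fun v => ¬ R.Adj x v)).card : ℝ) ≤ ρ) ∧
        d * ρ + c0 ≤ (T u).card) ∨
      (∃ xa K r0 : ℝ, 0 < xa ∧ 0 ≤ K ∧ N / xa ≤ r0 ∧ r0 ^ (ex d) * K ≤ K2 ∧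
        ∀ (D : ℕ), D ≤ d → ∀ q : Fin D → Fin n, (∀ l, q l ∈ M) → (∀ l, G.Adj u (q l)) →
          ∃ x : Fin D → ℝ, (∀ l, 0 ≤ x l) ∧ (∀ l, x l ≤ N) ∧
          ∑ Q ∈ Fintype.piFinset (fun l : Fin D => T (q l)), gE xa (NA R (T u) Q).card ^ (ex d) ≤
            K * ∏ l, x l))
    (hm : 2 ^ (ex d + 1) * (2 * M.card * (gam (1 / (4 * (d + 1))) d * K2)) ≤ N) :
    ∃ φ0 : Fin n → V, (∀ u ∈ M, ∀ v ∈ M, φ0 u = φ0 v → u = v) ∧
      (∀ u ∈ M, ∀ v ∈ M, G.Adj u v → R.Adj (φ0 u) (φ0 v)) ∧ ∀ v ∈ M, φ0 v ∈ T v := by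
  have hN0 : 0 < N := by linarith
  obtain ⟨m, hm'⟩ : ∃ m, M.card = m := ⟨_, rfl⟩
  set e : Fin m ↪o Fin n := M.orderEmbOfFin hm' with he
  have he_mem : ∀ a, e a ∈ M := fun a => Finset.orderEmbOfFin_mem M hm' a
  have he_surj : ∀ u ∈ M, ∃ a, e a = u := by
    intro u hu
    have := Finset.range_orderEmbOfFin M hm'
    have hu' : u ∈ Set.range (M.orderEmbOfFin hm') := by
      rw [this]; exact_mod_cast hu
    exact hu'
  set S' : Fin m → Finset V := fun a => T (e a) with hS'
  set back' : Fin m → Finset (Fin m) := fun a =>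
    univ.filter (fun y => y < a ∧ G.Adj (e a) (e y)) with hback'
  have hb1 : ∀ a, ∀ y ∈ back' a, y < a := by
    intro a y hy
    rw [hback', mem_filter] at hy
    exact hy.2.1
  have hb2 : ∀ a, (back' a).card ≤ d := by
    intro a
    refine le_trans ?_ (hbk (e a))
    have : (back' a).card = ((back' a).image e).card :=
      (Finset.card_image_of_injective _ e.injective).symm
    rw [this]
    apply Finset.card_le_card
    intro y hy
    rw [mem_image] at hy
    obtain ⟨z, hz, rfl⟩ := hy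
    rw [hback', mem_filter] at hz
    unfold bk
    rw [mem_filter]
    exact ⟨mem_univ _, e.lt_iff_lt.mpr hz.2.1, hz.2.2⟩
  have hb3 : ∀ a, ∀ y ∈ back' a, G.Adj (e a) (e y) := by
    intro a y hy
    rw [hback', mem_filter] at hy
    exact hy.2.2
  have hst : ∀ a φ, avg N S' (back' a) (hfun R S' back' N a ∅ (ex d)) φ ≤ K2 := by
    intro a φ
    rcases hstar (e a) (he_mem a) with ⟨ρ, c0, hρ0, hc0, hK, hρ, hsz⟩ |
      ⟨xa, K, r0, hxa, hK0, hr0, hK, hD⟩
    · refine le_trans (star_near R S' back' hN0 (fun y => hT _) a (ex d) d (hb2 a) φ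
        ρ c0 hρ0 hc0 ?_ hsz) hK
      intro y hy x hx
      exact hρ (e y) (he_mem y) (hb3 a y hy) x hx
    · set eD : Fin (back' a).card ≃ {y // y ∈ back' a} := (Finset.equivFin (back' a)).symm with heD
      obtain ⟨x, hx0, hx1, hx2⟩ := hD (back' a).card (hb2 a) (fun l => e (eD l))
        (fun l => he_mem _) (fun l => hb3 a _ (eD l).2)
      exact le_trans (star_drc R S' back' hN0 a (ex d) (back' a).card eD φ xa K r0 x hxa hK0
        hx0 hx1 hr0 hx2) hK
  rw [hm'] at hm
  obtain ⟨φ1, hφ1, hφ2, hφ3⟩ := moment_embedding R S' back' hb1 d hb2 hN (fun y => hT _)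
    K2 hK2 hst hm
  obtain ⟨v0⟩ := ‹Nonempty V›
  set φ0 : Fin n → V := fun u => if h : ∃ a, e a = u then φ1 (Classical.choose h) else v0 with hφ0
  have hφ0e : ∀ a, φ0 (e a) = φ1 a := by
    intro a
    have h : ∃ a', e a' = e a := ⟨a, rfl⟩
    rw [hφ0]
    dsimp only
    rw [dif_pos h]
    congr 1
    exact e.injective (Classical.choose_spec h)
  refine ⟨φ0, ?_, ?_, ?_⟩
  · intro u hu y hy huy
    obtain ⟨a, rfl⟩ := he_surj u hu
    obtain ⟨a', rfl⟩ := he_surj y hy
    rw [hφ0e, hφ0e] at huy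
    rw [hφ1 huy]
  · intro u hu y hy huy
    obtain ⟨a, rfl⟩ := he_surj u hu
    obtain ⟨a', rfl⟩ := he_surj y hy
    rw [hφ0e, hφ0e]
    rcases lt_trichotomy a a' with h | h | h
    · exact hφ3 a' a (by rw [hback', mem_filter]; exact ⟨mem_univ _, h, huy.symm⟩)
    · exfalso; rw [h] at huy; exact G.loopless.irrefl _ huy
    · exact (hφ3 a a' (by rw [hback', mem_filter]; exact ⟨mem_univ _, h, huy⟩)).symm
  · intro u hu
    obtain ⟨a, rfl⟩ := he_surj u hu
    rw [hφ0e]
    exact hφ2 a

end Phase1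

section Phase2

variable {n d b : ℕ} (g : Guest n d b)

/-- Phase 2: vertices outside `M` are embedded greedily into their spots. -/
theorem spot_extend {V : Type*} [Nonempty V] (R : SimpleGraph V) (Ks : Finset (Finset V))
    (w : ℕ → Finset V) (L Z : ℕ) (ε δ : ℝ) (hε : 0 ≤ ε) (hδ2 : 3 * d * ε < δ)
    (hdisj : ∀ U ∈ Ks, ∀ W ∈ Ks, U ≠ W → Disjoint U W)
    (hne : ∀ U ∈ Ks, 0 < U.card) (hNC : ∀ U ∈ Ks, NC R ε U)
    (hw1 : ∀ z, z < Z → w z ∈ Ks)
    (hcap : ∀ U ∈ Ks, (L : ℝ) * ((Finset.range Z).filter (fun z => w z = U)).card ≤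
        (1 - δ) * U.card)
    (hnZ : n ≤ Z * L) (hL0 : 0 < L)
    (M : Finset (Fin n)) (hMnb : ∀ v, v ∉ M → (nbM g.G M v).card ≤ 2 * d)
    (hnon : ∀ u, u ∉ M → ∀ y, g.G.Adj u y → w (g.p y / L) = w (g.p u / L))
    (φ0 : Fin n → V) (h1 : ∀ u ∈ M, ∀ v ∈ M, φ0 u = φ0 v → u = v)
    (h2 : ∀ u ∈ M, ∀ v ∈ M, g.G.Adj u v → R.Adj (φ0 u) (φ0 v))
    (h3 : ∀ v ∈ M, φ0 v ∈ w (g.p v / L)) :
    ∃ φ : Fin n → V, Function.Injective φ ∧ ∀ u v, g.G.Adj u v → R.Adj (φ u) (φ v) := by
  have hslot : ∀ v, g.p v / L < Z := by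
    intro u
    rw [Nat.div_lt_iff_lt_mul hL0]
    exact lt_of_lt_of_le (g.hp_lt u) hnZ
  obtain ⟨φ, -, hinj, hhom, -⟩ := greedy_extend g.G R M univ (fun u => w (g.p u / L)) φ0 h1 h2 h3
    (by
      intro u _ huM ψ hψ _
      have hUK := hw1 _ (hslot u)
      set U := w (g.p u / L) with hU
      have hUpos : (0 : ℝ) < U.card := by exact_mod_cast hne _ hUK
      have hcn2 := hnon u huM
      set Y : Finset (Fin n) := univ.filter (fun y => g.G.Adj u y ∧ (y ∈ M ∨ y < u)) with hY
      have hYcard : Y.card ≤ 3 * d := by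
        have hsub : Y ⊆ nbM g.G M u ∪ bk g.G u := by
          intro y hy
          rw [hY, mem_filter] at hy
          rw [mem_union]
          unfold nbM bk
          rw [mem_filter, mem_filter]
          rcases hy.2.2 with h | h
          · left; exact ⟨h, hy.2.1⟩
          · right; exact ⟨mem_univ _, h, hy.2.1⟩
        have h1 := (Finset.card_le_card hsub).trans (Finset.card_union_le _ _)
        have h2 := hMnb u huM
        have h3 := g.hbk u
        omega
      set I : Finset (Fin n) := univ.filter (fun y => w (g.p y / L) = U) with hI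
      have hIcard : (I.card : ℝ) ≤ (1 - δ) * U.card := by
        refine le_trans ?_ (hcap U hUK)
        have h1 : I.card ≤ L * ((Finset.range Z).filter (fun z => w z = U)).card := by
          apply Finset.card_le_mul_card_image_of_maps_to (f := fun y => g.p y / L)
          · intro y hy
            rw [hI, mem_filter] at hy
            rw [mem_filter, Finset.mem_range]
            exact ⟨hslot y, hy.2⟩
          · intro z _
            apply card_interval g (z * L) (z * L + L) L le_rfl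
            intro y hy
            rw [mem_filter] at hy
            have h3 := hy.2
            rw [Nat.div_eq_iff hL0] at h3
            omega
        exact_mod_cast h1
      obtain ⟨x, hx1, hx2, hx3⟩ := exists_candidate R U ψ Y
        ((I.filter (fun y => y ∈ M ∨ y < u)).image ψ) (ε * U.card) ((1 - δ) * U.card) (3 * d)
        hYcard (by positivity)
        (by
          intro y hy
          rw [hY, mem_filter] at hy
          have hyU : ψ y ∈ U := by
            have h1 := hψ y (mem_univ _) hy.2.2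
            rwa [hcn2 y hy.2.1] at h1
          exact hNC U hUK _ hyU)
        (by
          refine le_trans ?_ hIcard
          have h1 : (U.filter (fun x => x ∈ (I.filter (fun y => y ∈ M ∨ y < u)).image ψ)).card ≤
              I.card := by
            calc _ ≤ ((I.filter (fun y => y ∈ M ∨ y < u)).image ψ).card := by
                  apply Finset.card_le_card
                  intro x hx
                  exact (mem_filter.mp hx).2
              _ ≤ (I.filter (fun y => y ∈ M ∨ y < u)).card := Finset.card_image_le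
              _ ≤ I.card := Finset.card_le_card (Finset.filter_subset _ _)
          exact_mod_cast h1)
        (by
          push_cast
          nlinarith)
      refine ⟨x, hx1, ?_⟩
      intro y _ hyu
      refine ⟨?_, fun hadj => hx3 y (by rw [hY, mem_filter]; exact ⟨mem_univ _, hadj, hyu⟩)⟩
      intro hyx
      apply hx2
      rw [mem_image]
      refine ⟨y, ?_, hyx⟩
      rw [mem_filter, hI, mem_filter]
      refine ⟨⟨mem_univ _, ?_⟩, hyu⟩
      by_contra hne'
      have h1 := hψ y (mem_univ _) hyu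
      have h2 := hdisj _ (hw1 _ (hslot y)) U hUK hne'
      rw [Finset.disjoint_left] at h2
      exact h2 h1 (hyx ▸ hx1))
  exact ⟨φ, fun u y h => hinj u (mem_univ _) y (mem_univ _) h,
    fun u y h => hhom u (mem_univ _) y (mem_univ _) h⟩

end Phase2

end Pool.Agent.Helper3.RG
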