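import Mathlib
import Pool.Agent.Helper3.RGComp

set_option autoImplicit false

open Finset Classical

namespace Pool.Agent.Helper3.RG

section Blocks

variable {n d b : ℕ} (g : Guest n d b)

lemma image_p : univ.image g.p = Finset.range n := by
  apply Finset.eq_of_subset_of_card_le
  · intro x hx
    rw [mem_image] at hx
    obtain ⟨u, _, rfl⟩ := hx
    exact Finset.mem_range.mpr (g.hp_lt u)
  · rw [Finset.card_image_of_injective _ g.hp_inj]
    simp

lemma card_interval_eq (lo hi : ℕ) (h2 : hi ≤ n) :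
    (univ.filter (fun u => lo ≤ g.p u ∧ g.p u < hi)).card = hi - lo := by
  have h3 : (univ.filter (fun u => lo ≤ g.p u ∧ g.p u < hi)).image g.p = Finset.Ico lo hi := by
    ext x
    rw [mem_image, Finset.mem_Ico]
    constructor
    · rintro ⟨u, hu, rfl⟩
      exact (mem_filter.mp hu).2
    · intro hx
      have hx' : x ∈ univ.image g.p := by
        rw [image_p, Finset.mem_range]; omega
      rw [mem_image] at hx'
      obtain ⟨u, _, rfl⟩ := hx'
      exact ⟨u, mem_filter.mpr ⟨mem_univ _, hx⟩, rfl⟩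
  rw [← Finset.card_image_of_injective _ g.hp_inj, h3, Nat.card_Ico]

/-- All neighbours. -/
noncomputable def nb (G : SimpleGraph (Fin n)) (u : Fin n) : Finset (Fin n) :=
  univ.filter (fun y => G.Adj u y)

lemma mem_nb {G : SimpleGraph (Fin n)} {u y : Fin n} : y ∈ nb G u ↔ G.Adj u y := by
  unfold nb; simp

lemma one_block (lo lam i0 : ℕ) (hhi : lo + lam ≤ n) (hsz : 2 * (d + 1) * i0 + 4 * b ≤ lam) :
    ∃ I : Finset (Fin n), I.card = i0 ∧ (∀ u ∈ I, (nb g.G u).card ≤ 4 * d) ∧
      (∀ u ∈ I, ∀ v ∈ I, ¬ g.G.Adj u v) ∧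
      (∀ u ∈ I, lo + b ≤ g.p u ∧ g.p u + b < lo + lam) := by
  set blk : Finset (Fin n) := univ.filter (fun u => lo ≤ g.p u ∧ g.p u < lo + lam) with hblk
  set int : Finset (Fin n) := univ.filter (fun u => lo + b ≤ g.p u ∧ g.p u < lo + lam - b)
    with hint
  have hblkc : blk.card = lam := by
    rw [hblk, card_interval_eq g lo (lo + lam) hhi]; omega
  have hintc : int.card = lam - 2 * b := by
    rw [hint, card_interval_eq g (lo + b) (lo + lam - b) (by omega)]; omega
  set low := int.filter (fun u => (nb g.G u).card ≤ 4 * d) with hlow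
  set hig := int.filter (fun u => ¬ (nb g.G u).card ≤ 4 * d) with hhig
  have hsplit : low.card + hig.card = int.card := Finset.card_filter_add_card_filter_not _
  have hnbsub : ∀ u ∈ int, nb g.G u = nbM g.G blk u := by
    intro u hu
    rw [hint, mem_filter] at hu
    ext y
    rw [mem_nb]
    unfold nbM
    rw [mem_filter, hblk, mem_filter]
    constructor
    · intro hy
      have h1 := g.hbw u y hy
      have h2 := g.hbw y u hy.symm
      exact ⟨⟨mem_univ _, by omega, by omega⟩, hy⟩
    · exact fun h => h.2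
  have hhigc : (4 * d + 1) * hig.card ≤ 2 * d * lam := by
    have h1 : ∑ u ∈ hig, (4 * d + 1) ≤ ∑ u ∈ hig, (nbM g.G blk u).card := by
      apply Finset.sum_le_sum
      intro u hu
      rw [hhig, mem_filter] at hu
      rw [← hnbsub u hu.1]
      omega
    have h2 : ∑ u ∈ hig, (nbM g.G blk u).card ≤ ∑ u ∈ blk, (nbM g.G blk u).card := by
      apply Finset.sum_le_sum_of_subset
      intro u hu
      rw [hhig, mem_filter, hint, mem_filter] at hu
      rw [hblk, mem_filter]
      exact ⟨mem_univ _, by omega, by omega⟩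
    have h3 := e2_le g.G d g.hbk blk
    rw [hblkc] at h3
    rw [Finset.sum_const, smul_eq_mul] at h1
    calc (4 * d + 1) * hig.card = hig.card * (4 * d + 1) := mul_comm _ _
      _ ≤ _ := h1.trans (h2.trans h3)
  have hhig2 : 2 * hig.card ≤ lam := by
    by_contra hcon
    push Not at hcon
    have h1 : (4 * d + 1) * (lam + 1) ≤ (4 * d + 1) * (2 * hig.card) :=
      Nat.mul_le_mul_left _ hcon
    have h2 : (4 * d + 1) * (2 * hig.card) = 2 * ((4 * d + 1) * hig.card) := by ring
    have h3 : 2 * (2 * d * lam) = 4 * d * lam := by ring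
    have h4 : (4 * d + 1) * (lam + 1) = 4 * d * lam + 4 * d + lam + 1 := by ring
    omega
  have hlowc : (d + 1) * i0 ≤ low.card := by
    have h1 : 2 * (d + 1) * i0 = 2 * ((d + 1) * i0) := by ring
    omega
  obtain ⟨c, -, hc⟩ := Finset.exists_le_card_fiber_of_mul_le_card_of_maps_to
    (s := low) (t := (univ : Finset (Fin (d + 1)))) (f := g.col) (n := i0)
    (fun _ _ => mem_univ _) ⟨0, mem_univ _⟩ (by simpa using hlowc)
  obtain ⟨I, hI1, hI2⟩ := Finset.exists_subset_card_eq hc
  refine ⟨I, hI2, ?_, ?_, ?_⟩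
  · intro u hu
    have h1 := hI1 hu
    rw [mem_filter, hlow, mem_filter] at h1
    exact h1.1.2
  · intro u hu v hv huv
    have h1 := hI1 hu
    have h2 := hI1 hv
    rw [mem_filter] at h1 h2
    exact g.hcol u v huv (h1.2.trans h2.2.symm)
  · intro u hu
    have h1 := hI1 hu
    rw [mem_filter, hlow, mem_filter, hint, mem_filter] at h1
    have := h1.1.1.2
    omega

/-- Blocks of low degree independent vertices. -/
lemma exists_blocks (h i0 : ℕ) (hsz : 2 * (d + 1) * i0 + 4 * b ≤ n / h) :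
    ∃ I : Fin h → Finset (Fin n), (∀ l, (I l).card = i0) ∧
      (∀ l, ∀ u ∈ I l, (nb g.G u).card ≤ 4 * d) ∧
      (∀ l l', ∀ u ∈ I l, ∀ v ∈ I l', ¬ g.G.Adj u v) ∧
      (∀ l l', l ≠ l' → ∀ u ∈ I l, ∀ v ∈ I l', Disjoint (nb g.G u) (nb g.G v)) ∧
      (∀ l l', l ≠ l' → Disjoint (I l) (I l')) := by
  set lam := n / h with hlam
  have hmul : ∀ l : Fin h, (l : ℕ) * lam + lam ≤ n := by
    intro l
    have h1 : ((l : ℕ) + 1) * lam ≤ h * lam := Nat.mul_le_mul_right _ l.2
    have h2 : h * lam ≤ n := by rw [hlam, mul_comm]; exact Nat.div_mul_le_self n h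
    have h3 : ((l : ℕ) + 1) * lam = l * lam + lam := by ring
    omega
  have hex : ∀ l : Fin h, ∃ I : Finset (Fin n), I.card = i0 ∧
      (∀ u ∈ I, (nb g.G u).card ≤ 4 * d) ∧ (∀ u ∈ I, ∀ v ∈ I, ¬ g.G.Adj u v) ∧
      (∀ u ∈ I, (l : ℕ) * lam + b ≤ g.p u ∧ g.p u + b < (l : ℕ) * lam + lam) :=
    fun l => one_block g _ lam i0 (hmul l) hsz
  choose I h1 h2 h3 h4 using hex
  have hord : ∀ l l' : Fin h, l < l' → ∀ u ∈ I l, ∀ v ∈ I l',
      g.p u + 2 * b < g.p v := by
    intro l l' hll u hu v hv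
    have e1 := (h4 l u hu).2
    have e2 := (h4 l' v hv).1
    have e3 : ((l : ℕ) + 1) * lam ≤ l' * lam := Nat.mul_le_mul_right _ hll
    have e4 : ((l : ℕ) + 1) * lam = l * lam + lam := by ring
    omega
  have hdisj : ∀ l l' : Fin h, l < l' → ∀ u ∈ I l, ∀ v ∈ I l',
      Disjoint (nb g.G u) (nb g.G v) := by
    intro l l' hll u hu v hv
    rw [Finset.disjoint_left]
    intro y hy1 hy2
    rw [mem_nb] at hy1 hy2
    have e1 := (h4 l u hu).2
    have e2 := (h4 l' v hv).1
    have e3 : ((l : ℕ) + 1) * lam ≤ l' * lam := Nat.mul_le_mul_right _ hll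
    have e4 : ((l : ℕ) + 1) * lam = l * lam + lam := by ring
    have e5 := g.hbw y u hy1.symm
    have e6 := g.hbw v y hy2
    omega
  refine ⟨I, h1, h2, ?_, ?_, ?_⟩
  · intro l l' u hu v hv huv
    rcases lt_trichotomy l l' with hll | hll | hll
    · have e1 := hord l l' hll u hu v hv
      have e2 := g.hbw v u huv.symm
      omega
    · subst hll
      exact h3 l u hu v hv huv
    · have e1 := hord l' l hll v hv u hu
      have e2 := g.hbw u v huv
      omega
  · intro l l' hne u hu v hv
    rcases lt_or_gt_of_ne hne with hll | hll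
    · exact hdisj l l' hll u hu v hv
    · exact (hdisj l' l hll v hv u hu).symm
  · intro l l' hne
    rw [Finset.disjoint_left]
    intro u hu hu'
    rcases lt_or_gt_of_ne hne with hll | hll
    · have e1 := hord l l' hll u hu u hu'
      omega
    · have e1 := hord l' l hll u hu' u hu
      omega

end Blocks

end Pool.Agent.Helper3.RG
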