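import Mathlib
import Pool.Agent.Helper3.RGComp

set_option autoImplicit false

open Finset Classical

namespace Pool.Agent.Helper3.RG

section Core

lemma sum_piFinset_zero {V : Type*} (F : (Fin 0 → V) → ℝ) (T : Fin 0 → Finset V) :
    ∑ P ∈ Fintype.piFinset T, F P = F (fun l => l.elim0) := by
  have : Fintype.piFinset T = {fun l => l.elim0} := by
    ext P
    rw [Fintype.mem_piFinset, mem_singleton]
    constructor
    · intro _; funext l; exact l.elim0
    · intro _ l; exact l.elim0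
  rw [this, Finset.sum_singleton]

lemma NA_zero {V : Type*} (R : SimpleGraph V) (A : Finset V) (P : Fin 0 → V) :
    NA R A P = A := by
  ext x
  rw [mem_NA]
  constructor
  · exact fun h => h.1
  · exact fun h => ⟨h, fun l => l.elim0⟩

/-- Data attached to an active boundary. -/
def DrcData {V : Type} (R : SimpleGraph V) (d : ℕ) (K : ℝ) (U W : Finset V)
    (A : Bool × Fin (d + 1) → Finset V) : Prop :=
  (∀ i, A i ⊆ XX U W (d + 1) i) ∧
    ∀ (D : Fin (d + 1)) (i : Bool × Fin (d + 1)) (p : Fin D → Bool × Fin (d + 1)),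
      (∀ l, i.2 ≠ (p l).2) →
      ∑ P ∈ Fintype.piFinset (fun y => A (p y)),
        gE (XX U W (d + 1) i).card (NA R (A i) P).card ^ (ex d) ≤
        K * ∏ l, ((XX U W (d + 1) (p l)).card : ℝ)

lemma DrcData.large {V : Type} {R : SimpleGraph V} {d : ℕ} {K : ℝ} {U W : Finset V}
    {A : Bool × Fin (d + 1) → Finset V} (h : DrcData R d K U W A) (hK1 : 1 ≤ K)
    (i : Bool × Fin (d + 1)) (hK : K ≤ (XX U W (d + 1) i).card) :
    ((XX U W (d + 1) i).card : ℝ) ≤ K * (A i).card := by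
  have hst := h.2 ⟨0, by omega⟩ i (fun l => l.elim0) (fun l => l.elim0)
  apply large_of_star0 (by linarith) hK1 hK _ (ex d)
  · unfold ex; have := Nat.one_le_two_pow (n := d); omega
  · have hs2 := sum_piFinset_zero (fun P => gE (XX U W (d + 1) i).card
      (NA R (A i) P).card ^ (ex d)) (fun y => A ((fun l : Fin 0 => (l.elim0 : Bool × Fin (d + 1))) y))
    rw [NA_zero] at hs2
    rw [← hs2]
    simpa using hst
  · exact_mod_cast Finset.card_le_card (h.1 i)

variable {n d b : ℕ} (g : Guest n d b)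

/-- The zone around boundary `z`. -/
def zone (L : ℕ) (z : ℕ) (u : Fin n) : Prop := z * L ≤ g.p u + 2 * b ∧ g.p u < z * L + 2 * b

def inn (L : ℕ) (z : ℕ) (u : Fin n) : Prop := z * L ≤ g.p u + b ∧ g.p u < z * L + b

lemma zone_unique {L : ℕ} (hL : 4 * b + 1 ≤ L) {z1 z2 : ℕ} {u : Fin n} (h1 : zone g L z1 u)
    (h2 : zone g L z2 u) : z1 = z2 := by
  obtain ⟨h1a, h1b⟩ := h1
  obtain ⟨h2a, h2b⟩ := h2
  by_contra hne
  rcases lt_or_gt_of_ne hne with h | h
  · have h3 : (z1 + 1) * L ≤ z2 * L := Nat.mul_le_mul_right _ h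
    have h4 : (z1 + 1) * L = z1 * L + L := by ring
    omega
  · have h3 : (z2 + 1) * L ≤ z1 * L := Nat.mul_le_mul_right _ h
    have h4 : (z2 + 1) * L = z2 * L + L := by ring
    omega

lemma inn_zone {L z : ℕ} {u : Fin n} (h : inn g L z u) : zone g L z u := by
  obtain ⟨h1, h2⟩ := h
  exact ⟨by omega, by omega⟩

lemma inn_nbr {L z : ℕ} {u y : Fin n} (h : inn g L z u) (huy : g.G.Adj u y) : zone g L z y := by
  obtain ⟨h1, h2⟩ := h
  have h3 := g.hbw u y huy
  have h4 := g.hbw y u huy.symm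
  exact ⟨by omega, by omega⟩

lemma zone_slot {V : Type} {L : ℕ} (hL : 4 * b + 1 ≤ L) (w : ℕ → Finset V) {z : ℕ} (hz : 1 ≤ z)
    {u : Fin n} (h : zone g L z u) (c : Fin (d + 1)) :
    XX (w (z - 1)) (w z) (d + 1) (decide (z * L ≤ g.p u), c) = w (g.p u / L) := by
  obtain ⟨h1, h2⟩ := h
  have hL0 : 0 < L := by omega
  unfold XX
  by_cases h3 : z * L ≤ g.p u
  · have h4 : g.p u / L = z := by
      rw [Nat.div_eq_iff hL0]
      have : (z + 1) * L = z * L + L := by ring
      constructor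
      · exact h3
      · omega
    simp [h3, h4]
  · obtain ⟨z', rfl⟩ : ∃ z', z = z' + 1 := ⟨z - 1, by omega⟩
    have h5 : (z' + 1) * L = z' * L + L := by ring
    have h4 : g.p u / L = z' := by
      rw [Nat.div_eq_iff hL0]
      constructor
      · omega
      · omega
    simp [h3, h4]

def act {V : Type} (w : ℕ → Finset V) (Z z : ℕ) : Prop := 1 ≤ z ∧ z < Z ∧ w (z - 1) ≠ w z

lemma non_inner {V : Type} {L : ℕ} (hL : 4 * b + 1 ≤ L) (w : ℕ → Finset V) (Z : ℕ)
    (hslot : ∀ v, g.p v / L < Z) (u : Fin n) (hu : ¬ ∃ z, act w Z z ∧ inn g L z u) (y : Fin n)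
    (hy : g.G.Adj u y) : w (g.p y / L) = w (g.p u / L) := by
  rcases slot_nbr g L hL y u hy.symm with h | ⟨h, h1, h2⟩ | ⟨h, h1, h2⟩
  · rw [h]
  · by_contra hne
    apply hu
    refine ⟨g.p u / L, ⟨?_, hslot u, ?_⟩, h1, h2⟩
    · rw [← h]; exact Nat.le_add_left 1 _
    · rw [← h, Nat.add_sub_cancel, h]; exact hne
  · by_contra hne
    apply hu
    refine ⟨g.p u / L + 1, ⟨Nat.le_add_left 1 _, by rw [← h]; exact hslot y, ?_⟩, h1, h2⟩
    rw [Nat.add_sub_cancel, ← h]
    exact fun h => hne h.symm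

/-- The vertices in the zones of active boundaries. -/
noncomputable def zoneSet {V : Type} (L : ℕ) (w : ℕ → Finset V) (Z : ℕ) : Finset (Fin n) :=
  univ.filter (fun u => ∃ z, act w Z z ∧ zone g L z u)

lemma card_zoneSet {V : Type} (L : ℕ) (w : ℕ → Finset V) (Z : ℕ) :
    (zoneSet g L w Z).card ≤ Z * (4 * b) := by
  have hsub : zoneSet g L w Z ⊆
      (Finset.range Z).biUnion (fun z => univ.filter (fun u => zone g L z u)) := by
    intro u hu
    unfold zoneSet at hu
    rw [mem_filter] at hu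
    obtain ⟨_, z, hz1, hz2⟩ := hu
    rw [mem_biUnion]
    exact ⟨z, Finset.mem_range.mpr hz1.2.1, mem_filter.mpr ⟨mem_univ _, hz2⟩⟩
  refine (Finset.card_le_card hsub).trans (Finset.card_biUnion_le.trans ?_)
  calc ∑ z ∈ Finset.range Z, (univ.filter (fun u => zone g L z u)).card
      ≤ ∑ _z ∈ Finset.range Z, 4 * b := by
        apply Finset.sum_le_sum
        intro z _
        apply card_interval g (z * L - 2 * b) (z * L + 2 * b) (4 * b) (by omega)
        intro u hu
        rw [mem_filter] at hu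
        obtain ⟨_, h1, h2⟩ := hu
        omega
    _ = Z * (4 * b) := by rw [Finset.sum_const, Finset.card_range, smul_eq_mul]

/-- The target sets of phase 1. -/
noncomputable def targ {V : Type} (L : ℕ) (w : ℕ → Finset V) (Z : ℕ)
    (A : ℕ → Bool × Fin (d + 1) → Finset V) (u : Fin n) : Finset V :=
  if h : ∃ z, act w Z z ∧ zone g L z u then
    A (Classical.choose h) (decide (Classical.choose h * L ≤ g.p u), g.col u)
  else w (g.p u / L)

lemma targ_zone {V : Type} {L : ℕ} (hL : 4 * b + 1 ≤ L) (w : ℕ → Finset V) (Z : ℕ)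
    (A : ℕ → Bool × Fin (d + 1) → Finset V) (u : Fin n) (z : ℕ) (h1 : act w Z z)
    (h2 : zone g L z u) : targ g L w Z A u = A z (decide (z * L ≤ g.p u), g.col u) := by
  have h : ∃ z, act w Z z ∧ zone g L z u := ⟨z, h1, h2⟩
  have hch := Classical.choose_spec h
  have heq : Classical.choose h = z := zone_unique g hL hch.2 h2
  unfold targ
  rw [dif_pos h, heq]

lemma targ_non {V : Type} {L : ℕ} (w : ℕ → Finset V) (Z : ℕ)
    (A : ℕ → Bool × Fin (d + 1) → Finset V) (u : Fin n)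
    (h : ¬ ∃ z, act w Z z ∧ zone g L z u) : targ g L w Z A u = w (g.p u / L) := by
  unfold targ
  rw [dif_neg h]


/-- Core of the component embedding, after the constants have been chosen. -/
theorem comp_core_aux {V : Type} [Fintype V] (R : SimpleGraph V)
    (Ks : Finset (Finset V)) (w : ℕ → Finset V) (L Z : ℕ)
    (K ε δ c v : ℝ) (hK1 : 1 ≤ K) (hε0 : 0 ≤ ε) (hdε : d * ε ≤ 1 / (2 * K))
    (hδ2 : 3 * d * ε < δ) (hc : 0 < c) (hv : 0 < v) (hn : 0 < n)
    (hVn : (Fintype.card V : ℝ) ≤ v * n)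
    (hdisj : ∀ U ∈ Ks, ∀ W ∈ Ks, U ≠ W → Disjoint U W)
    (hsz : ∀ U ∈ Ks, c * n ≤ U.card) (hKn : K ≤ c * n) (hNC : ∀ U ∈ Ks, NC R ε U)
    (hw1 : ∀ z, z < Z → w z ∈ Ks)
    (A : ℕ → Bool × Fin (d + 1) → Finset V)
    (hA : ∀ z, act w Z z → DrcData R d K (w (z - 1)) (w z) (A z))
    (hcap : ∀ U ∈ Ks, (L : ℝ) * ((Finset.range Z).filter (fun z => w z = U)).card ≤
        (1 - δ) * U.card)
    (hnZ : n ≤ Z * L) (hL : 4 * b + 1 ≤ L)
    (hm : 2 ^ (ex d + 1) * (2 * ((2 * (Z * (4 * b)) : ℕ) : ℝ) *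
        (gam (1 / (4 * (d + 1))) d * ((2 * K * v / c) ^ (ex d) * K))) ≤ (Fintype.card V : ℝ)) :
    ∃ φ : Fin n → V, Function.Injective φ ∧ ∀ u v, g.G.Adj u v → R.Adj (φ u) (φ v) := by
  have hnR : (0 : ℝ) < n := by exact_mod_cast hn
  have hcn : 0 < c * n := mul_pos hc hnR
  have hL0 : 0 < L := by omega
  have hK0 : (0 : ℝ) < K := by linarith
  obtain ⟨N, hN⟩ : ∃ N : ℝ, (Fintype.card V : ℝ) = N := ⟨_, rfl⟩
  rw [hN] at hVn hm
  have hslot : ∀ v, g.p v / L < Z := by
    intro u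
    rw [Nat.div_lt_iff_lt_mul hL0]
    exact lt_of_lt_of_le (g.hp_lt u) hnZ
  have hcardN : ∀ U : Finset V, (U.card : ℝ) ≤ N := by
    intro U; rw [← hN]; exact_mod_cast Finset.card_le_univ U
  have hZ0 : 0 < Z := by
    rcases Nat.eq_zero_or_pos Z with h | h
    · rw [h] at hnZ; omega
    · exact h
  have hU0 : c * n ≤ N := (hsz _ (hw1 0 hZ0)).trans (hcardN _)
  have hN0 : 0 < N := by linarith
  have hN1 : 1 ≤ N := by linarith
  have hVne : Nonempty V := by
    rw [← Fintype.card_pos_iff]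
    have : (0 : ℝ) < Fintype.card V := by rw [hN]; exact hN0
    exact_mod_cast this
  obtain ⟨r0, hr0⟩ : ∃ r0 : ℝ, 2 * K * v / c = r0 := ⟨_, rfl⟩
  rw [hr0] at hm
  have hr0nn : 0 ≤ r0 := by rw [← hr0]; positivity
  have hNU : ∀ U ∈ Ks, N / (U.card : ℝ) ≤ v / c := by
    intro U hU
    have h1 := hsz U hU
    have hUpos : (0 : ℝ) < U.card := by linarith
    rw [div_le_div_iff₀ hUpos hc]
    calc N * c ≤ (v * n) * c := mul_le_mul_of_nonneg_right hVn hc.le
      _ = v * (c * n) := by ring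
      _ ≤ v * U.card := mul_le_mul_of_nonneg_left h1 hv.le
  have hr01 : v / c ≤ r0 := by
    rw [← hr0]
    apply div_le_div_of_nonneg_right _ hc.le
    nlinarith
  obtain ⟨M, hM0M, -, hMcard, hMnb⟩ := closure_exists g.G d g.hbk (zoneSet g L w Z) univ
    (subset_univ _)
  have hzc := card_zoneSet g L w Z
  have hTsub : ∀ u, targ g L w Z A u ⊆ w (g.p u / L) := by
    intro u
    by_cases h : ∃ z, act w Z z ∧ zone g L z u
    · obtain ⟨z, hz1, hz2⟩ := h
      rw [targ_zone g hL w Z A u z hz1 hz2, ← zone_slot g hL w hz1.1 hz2 (g.col u)]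
      exact (hA z hz1).1 _
    · rw [targ_non g w Z A u h]
  have hTlarge : ∀ u, ((w (g.p u / L)).card : ℝ) ≤ K * (targ g L w Z A u).card := by
    intro u
    have hUK := hw1 _ (hslot u)
    by_cases h : ∃ z, act w Z z ∧ zone g L z u
    · obtain ⟨z, hz1, hz2⟩ := h
      rw [targ_zone g hL w Z A u z hz1 hz2]
      have h1 := (hA z hz1).large hK1 (decide (z * L ≤ g.p u), g.col u)
      rw [zone_slot g hL w hz1.1 hz2 (g.col u)] at h1
      exact h1 (hKn.trans (hsz _ hUK))
    · rw [targ_non g w Z A u h]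
      have : (0 : ℝ) ≤ (w (g.p u / L)).card := Nat.cast_nonneg _
      nlinarith
  have hstar : ∀ u ∈ M,
      (∃ ρ c0 : ℝ, 0 ≤ ρ ∧ 0 < c0 ∧ (N / c0) ^ (ex d) ≤ r0 ^ (ex d) * K ∧
        (∀ y ∈ M, g.G.Adj u y → ∀ x ∈ targ g L w Z A y,
          (((targ g L w Z A u).filter (fun v => ¬ R.Adj x v)).card : ℝ) ≤ ρ) ∧
        d * ρ + c0 ≤ (targ g L w Z A u).card) ∨
      (∃ xa K' r0' : ℝ, 0 < xa ∧ 0 ≤ K' ∧ N / xa ≤ r0' ∧ r0' ^ (ex d) * K' ≤ r0 ^ (ex d) * K ∧
        ∀ (D : ℕ), D ≤ d → ∀ q : Fin D → Fin n, (∀ l, q l ∈ M) → (∀ l, g.G.Adj u (q l)) →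
          ∃ x : Fin D → ℝ, (∀ l, 0 ≤ x l) ∧ (∀ l, x l ≤ N) ∧
          ∑ Q ∈ Fintype.piFinset (fun l : Fin D => targ g L w Z A (q l)),
            gE xa (NA R (targ g L w Z A u) Q).card ^ (ex d) ≤ K' * ∏ l, x l) := by
    intro u _
    have hUK := hw1 _ (hslot u)
    have hUpos : (0 : ℝ) < (w (g.p u / L)).card := by linarith [hsz _ hUK]
    by_cases hin : ∃ z, act w Z z ∧ inn g L z u
    · right
      obtain ⟨z, hz1, hz2⟩ := hin
      have hzu := inn_zone g hz2
      refine ⟨(w (g.p u / L)).card, K, r0, hUpos, hK0.le, (hNU _ hUK).trans hr01, le_rfl, ?_⟩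
      intro D hD q _ hq
      have hzy : ∀ l, zone g L z (q l) := fun l => inn_nbr g hz2 (hq l)
      have hst := (hA z hz1).2 ⟨D, by omega⟩ (decide (z * L ≤ g.p u), g.col u)
        (fun l => (decide (z * L ≤ g.p (q l)), g.col (q l)))
        (fun l => g.hcol _ _ (hq l))
      refine ⟨fun l => ((XX (w (z - 1)) (w z) (d + 1)
          (decide (z * L ≤ g.p (q l)), g.col (q l))).card : ℝ), fun l => Nat.cast_nonneg _,
          fun l => hcardN _, ?_⟩
      rw [zone_slot g hL w hz1.1 hzu (g.col u)] at hst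
      have hSl : (fun l : Fin D => targ g L w Z A (q l)) =
          fun l => A z (decide (z * L ≤ g.p (q l)), g.col (q l)) := by
        funext l
        exact targ_zone g hL w Z A _ z hz1 (hzy l)
      rw [targ_zone g hL w Z A u z hz1 hzu, hSl]
      exact hst
    · left
      have hcn2 := non_inner g hL w Z hslot u hin
      have hTl := hTlarge u
      obtain ⟨U, hU⟩ : ∃ U, w (g.p u / L) = U := ⟨_, rfl⟩
      rw [hU] at hUK hUpos hTl
      refine ⟨ε * U.card, (U.card : ℝ) / (2 * K), by positivity, by positivity, ?_, ?_, ?_⟩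
      · have h1 : N / ((U.card : ℝ) / (2 * K)) ≤ r0 := by
          have h2 := hNU U hUK
          calc N / ((U.card : ℝ) / (2 * K)) = 2 * K * (N / U.card) := by field_simp
            _ ≤ 2 * K * (v / c) := mul_le_mul_of_nonneg_left h2 (by linarith)
            _ = r0 := by rw [← hr0]; ring
        have h3 : (N / ((U.card : ℝ) / (2 * K))) ^ (ex d) ≤ r0 ^ (ex d) :=
          pow_le_pow_left₀ (by positivity) h1 _
        have h4 : 0 ≤ r0 ^ (ex d) := pow_nonneg hr0nn _
        nlinarith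
      · intro y _ hy x hx
        have hyU : w (g.p y / L) = U := by rw [hcn2 y hy, hU]
        have hxU : x ∈ U := by
          rw [← hyU]; exact hTsub _ hx
        refine le_trans ?_ (hNC U hUK x hxU)
        have := hTsub u
        rw [hU] at this
        exact_mod_cast Finset.card_le_card (Finset.filter_subset_filter _ this)
      · have h1 : d * (ε * U.card) ≤ 1 / (2 * K) * U.card := by
          rw [← mul_assoc]
          exact mul_le_mul_of_nonneg_right hdε hUpos.le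
        have h2 : (U.card : ℝ) / K ≤ (targ g L w Z A u).card := by
          rw [div_le_iff₀ hK0, mul_comm]; exact hTl
        have h3 : 1 / (2 * K) * (U.card : ℝ) + (U.card : ℝ) / (2 * K) = U.card / K := by
          field_simp; ring
        linarith
  have hmle : (2 : ℝ) ^ (ex d + 1) * (2 * M.card * (gam (1 / (4 * (d + 1))) d *
      (r0 ^ (ex d) * K))) ≤ N := by
    refine le_trans ?_ hm
    have hm1 : M.card ≤ 2 * (Z * (4 * b)) := by omega
    have hm2 : (M.card : ℝ) ≤ ((2 * (Z * (4 * b)) : ℕ) : ℝ) := by exact_mod_cast hm1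
    have hg1 : 1 ≤ gam (1 / (4 * ((d : ℝ) + 1))) d := by
      apply gam_ge_one (by positivity)
      apply one_div_le_one_div_of_le (by norm_num)
      have : (0 : ℝ) ≤ d := Nat.cast_nonneg d
      linarith
    have hg : 0 ≤ gam (1 / (4 * ((d : ℝ) + 1))) d * (r0 ^ (ex d) * K) :=
      mul_nonneg (by linarith) (mul_nonneg (pow_nonneg hr0nn _) hK0.le)
    have h2p : (0 : ℝ) ≤ 2 ^ (ex d + 1) := pow_nonneg (by norm_num) _
    apply mul_le_mul_of_nonneg_left _ h2p
    apply mul_le_mul_of_nonneg_right _ hg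
    linarith
  obtain ⟨φ0, hφ1, hφ2, hφ3⟩ := moment_embedding_on g.G R d g.hbk M (targ g L w Z A) hN1
    (fun y => hcardN _) (r0 ^ (ex d) * K) (mul_nonneg (pow_nonneg hr0nn _) hK0.le) hstar hmle
  have hnotM : ∀ u, u ∉ M → ¬ ∃ z, act w Z z ∧ inn g L z u := by
    rintro u huM ⟨z, hz1, hz2⟩
    apply huM
    apply hM0M
    unfold zoneSet
    rw [mem_filter]
    exact ⟨mem_univ _, z, hz1, inn_zone g hz2⟩
  exact spot_extend g R Ks w L Z ε δ hε0 hδ2 hdisj
    (fun U hU => by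
      have : (0 : ℝ) < U.card := by linarith [hsz _ hU]
      exact_mod_cast this)
    hNC hw1 hcap hnZ hL0 M (fun v hv => hMnb v (mem_univ _) hv)
    (fun u hu y hy => non_inner g hL w Z hslot u (hnotM u hu) y hy) φ0 hφ1 hφ2
    (fun v hv => hTsub v (hφ3 v hv))

end Core

end Pool.Agent.Helper3.RG
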