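import Mathlib
import Pool.Agent.Helper3.RGCore

set_option autoImplicit false

open Finset Classical

namespace Pool.Agent.Helper3.RG

/-- Number of red edges between two sets. -/
noncomputable def eR {V : Type*} (R : SimpleGraph V) (U W : Finset V) : ℝ :=
  ∑ w ∈ W, ((U.filter (fun u => R.Adj u w)).card : ℝ)

lemma card_le_of_disjoint {V : Type*} [Fintype V] (Ks : Finset (Finset V)) (a : ℝ)
    (hdisj : ∀ U ∈ Ks, ∀ W ∈ Ks, U ≠ W → Disjoint U W)
    (hsz : ∀ U ∈ Ks, a ≤ (U.card : ℝ)) : Ks.card * a ≤ (Fintype.card V : ℝ) := by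
  have h1 : (Ks.biUnion id).card = ∑ U ∈ Ks, U.card := by
    rw [Finset.card_biUnion]
    · rfl
    · intro U hU W hW hne
      exact hdisj U hU W hW hne
  have h2 : ((Ks.biUnion id).card : ℝ) ≤ Fintype.card V := by
    exact_mod_cast Finset.card_le_univ _
  rw [h1] at h2
  push_cast at h2
  have h3 : ∑ _U ∈ Ks, a ≤ ∑ U ∈ Ks, (U.card : ℝ) := Finset.sum_le_sum hsz
  rw [Finset.sum_const, nsmul_eq_mul] at h3
  linarith

lemma sum_card_le_of_disjoint {V : Type*} [Fintype V] (Ks : Finset (Finset V))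
    (hdisj : ∀ U ∈ Ks, ∀ W ∈ Ks, U ≠ W → Disjoint U W) :
    ∑ U ∈ Ks, (U.card : ℝ) ≤ (Fintype.card V : ℝ) := by
  have h1 : (Ks.biUnion id).card = ∑ U ∈ Ks, U.card := by
    rw [Finset.card_biUnion]
    · rfl
    · intro U hU W hW hne
      exact hdisj U hU W hW hne
  have h2 : ((Ks.biUnion id).card : ℝ) ≤ Fintype.card V := by
    exact_mod_cast Finset.card_le_univ _
  rw [h1] at h2
  push_cast at h2
  exact h2

/-- **Component embedding.** -/
theorem comp_embed (d : ℕ) (η : ℝ) (hη : 0 < η) :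
    ∃ ε0 : ℝ, 0 < ε0 ∧ ∀ (ε δ c e1 v : ℝ), 0 ≤ ε → ε ≤ ε0 → 0 < δ → δ < 1 → 3 * d * ε < δ →
    0 < c → 0 < e1 → 0 < v →
    ∃ (β : ℝ) (n0 : ℕ), 0 < β ∧ ∀ (n b : ℕ), n0 ≤ n → (b : ℝ) ≤ β * n →
      ∀ (g : Guest n d b) (V : Type) [Fintype V] (R : SimpleGraph V)
      (Ks : Finset (Finset V)) (Q : SimpleGraph (Finset V)),
      (Fintype.card V : ℝ) ≤ v * n →
      (∀ U ∈ Ks, ∀ W ∈ Ks, U ≠ W → Disjoint U W) →
      (∀ U ∈ Ks, c * n ≤ U.card) → (∀ U ∈ Ks, NC R ε U) →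
      (∀ U ∈ Ks, ∀ W ∈ Ks, Q.Reachable U W) → (∀ U ∈ Ks, ∀ W, Q.Adj U W → W ∈ Ks) →
      (∀ U ∈ Ks, ∀ W ∈ Ks, Q.Adj U W → η * (U.card * W.card) ≤ eR R U W) →
      (1 + e1) * n ≤ (1 - δ) * ∑ U ∈ Ks, (U.card : ℝ) →
      ∃ φ : Fin n → V, Function.Injective φ ∧ ∀ u v, g.G.Adj u v → R.Adj (φ u) (φ v) := by
  obtain ⟨K, ε0, hK1, hε00, hdrc⟩ := drc_pair d (d + 1) (ex d) η hη
  refine ⟨min ε0 (1 / (2 * K * (d + 1))), lt_min hε00 (by positivity), ?_⟩
  intro ε δ c e1 v hε0 hε hδ hδ1 hδ2 hc he1 hv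
  have hK0 : (0 : ℝ) < K := by linarith
  have hεa : ε ≤ ε0 := hε.trans (min_le_left _ _)
  have hεb : ε ≤ 1 / (2 * K * (d + 1)) := hε.trans (min_le_right _ _)
  have hdε : d * ε ≤ 1 / (2 * K) := by
    have hK2 : (0 : ℝ) < 2 * K := by linarith
    have h1 : d * ε ≤ d * (1 / (2 * K * (d + 1))) :=
      mul_le_mul_of_nonneg_left hεb (Nat.cast_nonneg d)
    refine h1.trans ?_
    rw [mul_one_div, div_le_div_iff₀ (by positivity) hK2]
    nlinarith
  obtain ⟨Qr, hQr⟩ : ∃ Qr : ℝ, v / c = Qr := ⟨_, rfl⟩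
  have hQ0 : 0 < Qr := by rw [← hQr]; positivity
  obtain ⟨γ, hγ0, hγ1, hγ2⟩ : ∃ γ : ℝ, 0 < γ ∧ (1 + Qr + 2 * Qr ^ 2) * (2 * γ) ≤ e1 ∧
      (2 * Qr + 1) * (2 * γ) ≤ (1 - δ) * c := by
    refine ⟨min (e1 / (2 * (1 + Qr + 2 * Qr ^ 2))) ((1 - δ) * c / (2 * (2 * Qr + 1))), ?_, ?_, ?_⟩
    · apply lt_min
      · positivity
      · have : 0 < (1 - δ) * c := mul_pos (by linarith) hc
        positivity
    · have h := min_le_left (e1 / (2 * (1 + Qr + 2 * Qr ^ 2)))
        ((1 - δ) * c / (2 * (2 * Qr + 1)))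
      rw [le_div_iff₀ (by positivity)] at h
      linarith
    · have h := min_le_right (e1 / (2 * (1 + Qr + 2 * Qr ^ 2)))
        ((1 - δ) * c / (2 * (2 * Qr + 1)))
      rw [le_div_iff₀ (by positivity)] at h
      linarith
  obtain ⟨G0, hG0⟩ : ∃ G0 : ℝ, gam (1 / (4 * (d + 1))) d * ((2 * K * v / c) ^ (ex d) * K) = G0 :=
    ⟨_, rfl⟩
  have hG0nn : 0 ≤ G0 := by
    rw [← hG0]
    have hg1 : 1 ≤ gam (1 / (4 * ((d : ℝ) + 1))) d := by
      apply gam_ge_one (by positivity)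
      apply one_div_le_one_div_of_le (by norm_num)
      have : (0 : ℝ) ≤ d := Nat.cast_nonneg d
      linarith
    apply mul_nonneg (by linarith)
    apply mul_nonneg (pow_nonneg (by positivity) _) hK0.le
  obtain ⟨E, hE, hE0⟩ : ∃ E : ℝ, (2 : ℝ) ^ (ex d + 1) = E ∧ 0 < E :=
    ⟨_, rfl, pow_pos (by norm_num) _⟩
  set B1 : ℝ := E * (16 * (1 / γ + 1) * G0) + 1 with hB1
  have hB1pos : 0 < B1 := by
    rw [hB1]
    have : 0 ≤ E * (16 * (1 / γ + 1) * G0) := by positivity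
    linarith
  refine ⟨min (γ / 8) (1 / B1), max (max ⌈2 / γ⌉₊ ⌈K / c⌉₊) 1, lt_min (by positivity)
    (by positivity), ?_⟩
  intro n b hn hb g V _ R Ks Q hVn hdisj hsz hNC hreach hclosed hdens htot
  have hn1 : 1 ≤ n := le_trans (le_max_right _ _) hn
  have hnR : (1 : ℝ) ≤ n := by exact_mod_cast hn1
  have hn2 : 2 / γ ≤ n := by
    refine (Nat.le_ceil _).trans ?_
    exact_mod_cast (le_max_left _ _).trans ((le_max_left _ _).trans hn)
  have hn3 : K / c ≤ n := by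
    refine (Nat.le_ceil _).trans ?_
    exact_mod_cast (le_max_right _ _).trans ((le_max_left _ _).trans hn)
  have hγn : 2 ≤ γ * n := by
    rw [div_le_iff₀ hγ0] at hn2; linarith
  have hKn : K ≤ c * n := by
    rw [div_le_iff₀ hc] at hn3; linarith
  have hb1 : (b : ℝ) ≤ γ / 8 * n := hb.trans (mul_le_mul_of_nonneg_right (min_le_left _ _)
    (by linarith))
  have hb2 : (b : ℝ) ≤ 1 / B1 * n := hb.trans (mul_le_mul_of_nonneg_right (min_le_right _ _)
    (by linarith))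
  obtain ⟨L, hL⟩ : ∃ L : ℕ, ⌈γ * n⌉₊ = L := ⟨_, rfl⟩
  have hL1 : γ * n ≤ L := by rw [← hL]; exact Nat.le_ceil _
  have hL2 : (L : ℝ) ≤ 2 * γ * n := by
    have : (L : ℝ) < γ * n + 1 := by rw [← hL]; exact Nat.ceil_lt_add_one (by linarith)
    linarith
  have hLpos : (0 : ℝ) < L := by linarith
  have hL0 : 0 < L := by exact_mod_cast hLpos
  have h4b : 4 * b + 1 ≤ L := by
    have : (4 * b + 1 : ℝ) ≤ L := by
      have h1 : 4 * (b : ℝ) ≤ γ * n / 2 := by linarith
      linarith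
    exact_mod_cast this
  set Z := n / L + 1 with hZ
  have hnZ : n ≤ Z * L := by
    have h1 := Nat.div_add_mod n L
    have h2 := Nat.mod_lt n hL0
    have h3 : Z * L = L * (n / L) + L := by rw [hZ]; ring
    omega
  have hZr : (Z : ℝ) ≤ n / L + 1 := by
    rw [hZ]; push_cast
    have : ((n / L : ℕ) : ℝ) ≤ n / L := Nat.cast_div_le
    linarith
  have hq : (Ks.card : ℝ) ≤ Qr := by
    have h1 := card_le_of_disjoint Ks (c * n) hdisj hsz
    have hcn : 0 < c * n := by positivity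
    rw [← hQr, le_div_iff₀ hc]
    have h2 : (Ks.card : ℝ) * (c * n) ≤ v * n := h1.trans hVn
    have h3 : (Ks.card : ℝ) * c * n ≤ v * n := by linarith
    exact le_of_mul_le_mul_right h3 (by linarith)
  have hq0 : (0 : ℝ) ≤ Ks.card := Nat.cast_nonneg _
  have hsum_le := sum_card_le_of_disjoint Ks hdisj
  have hsum0 : 0 ≤ ∑ U ∈ Ks, (U.card : ℝ) := Finset.sum_nonneg (fun _ _ => Nat.cast_nonneg _)
  have hnN : (n : ℝ) ≤ Fintype.card V := by nlinarith
  have hne : Ks.Nonempty := by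
    rw [Finset.nonempty_iff_ne_empty]
    rintro rfl
    rw [Finset.sum_empty, mul_zero] at htot
    have : 0 < (1 + e1) * (n : ℝ) := by positivity
    linarith
  have hnL : 1 / (2 * γ) ≤ n / L := by
    rw [div_le_div_iff₀ (by positivity) hLpos]
    linarith
  set cap : Finset V → ℕ := fun U => ⌊(1 - δ) * U.card / L⌋₊ with hcap
  have hcap1 : ∀ U : Finset V, (1 - δ) * U.card / L - 1 ≤ cap U := by
    intro U
    rw [hcap]
    have := Nat.lt_floor_add_one ((1 - δ) * (U.card : ℝ) / L)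
    linarith
  have hcap2 : ∀ U : Finset V, (cap U : ℝ) ≤ (1 - δ) * U.card / L := by
    intro U
    rw [hcap]
    apply Nat.floor_le
    apply div_nonneg _ hLpos.le
    exact mul_nonneg (by linarith) (Nat.cast_nonneg _)
  obtain ⟨w, hw1, hw2, hw3⟩ := lazy_walk Q Ks hne hreach hclosed cap
    (by
      intro U hU
      have h1 := hcap1 U
      have h2 : (1 - δ) * c * (1 / (2 * γ)) ≤ (1 - δ) * U.card / L := by
        have h3 : (1 - δ) * (c * n) ≤ (1 - δ) * U.card :=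
          mul_le_mul_of_nonneg_left (hsz U hU) (by linarith)
        calc (1 - δ) * c * (1 / (2 * γ)) ≤ (1 - δ) * c * (n / L) := by
              apply mul_le_mul_of_nonneg_left hnL
              exact mul_nonneg (by linarith) hc.le
          _ = (1 - δ) * (c * n) / L := by ring
          _ ≤ (1 - δ) * U.card / L := div_le_div_of_nonneg_right h3 hLpos.le
      have h4 : 2 * Qr + 1 ≤ (1 - δ) * c * (1 / (2 * γ)) := by
        rw [mul_one_div, le_div_iff₀ (by positivity)]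
        exact hγ2
      have h5 : (2 * Ks.card : ℝ) ≤ cap U := by linarith
      exact_mod_cast h5) Z
    (by
      have h1 : ∑ U ∈ Ks, ((1 - δ) * U.card / L - 1) ≤ ∑ U ∈ Ks, (cap U : ℝ) :=
        Finset.sum_le_sum (fun U _ => hcap1 U)
      rw [Finset.sum_sub_distrib, ← Finset.sum_div, ← Finset.mul_sum, Finset.sum_const,
        nsmul_eq_mul, mul_one] at h1
      have h2 : (1 + e1) * n / L ≤ (1 - δ) * ∑ U ∈ Ks, (U.card : ℝ) / L := by
        rw [← Finset.sum_div, ← mul_div_assoc]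
        exact div_le_div_of_nonneg_right htot hLpos.le
      have h2' : (1 - δ) * ∑ U ∈ Ks, (U.card : ℝ) / L =
          (1 - δ) * (∑ U ∈ Ks, (U.card : ℝ)) / L := by
        rw [← Finset.sum_div, ← mul_div_assoc]
      have h3 : 1 + Qr + 2 * Qr ^ 2 ≤ e1 * (n / L) := by
        have h4 : 1 + Qr + 2 * Qr ^ 2 ≤ e1 * (1 / (2 * γ)) := by
          rw [mul_one_div, le_div_iff₀ (by positivity)]; exact hγ1
        exact h4.trans (mul_le_mul_of_nonneg_left hnL he1.le)
      have h5 : (1 + e1) * n / L = n / L + e1 * (n / L) := by ring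
      have h6 : (Ks.card : ℝ) ^ 2 ≤ Qr ^ 2 := pow_le_pow_left₀ hq0 hq 2
      have h7 : ((Z + 2 * Ks.card * Ks.card : ℕ) : ℝ) ≤ ((∑ U ∈ Ks, cap U : ℕ) : ℝ) := by
        push_cast
        nlinarith
      exact_mod_cast h7)
  have hne' : ∀ U ∈ Ks, U.Nonempty := by
    intro U hU
    rw [← Finset.card_pos]
    have h1 := hsz U hU
    have : (0 : ℝ) < U.card := by linarith
    exact_mod_cast this
  have hA : ∀ z : ℕ, ∃ A : Bool × Fin (d + 1) → Finset V, act w Z z →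
      DrcData R d K (w (z - 1)) (w z) A := by
    intro z
    by_cases hz : act w Z z
    · obtain ⟨hz1, hz2, hz3⟩ := hz
      have h1 : w (z - 1) ∈ Ks := hw1 _ (by omega)
      have h2 : w z ∈ Ks := hw1 _ hz2
      have h3 := hw2 (z - 1) (by omega)
      have h4 : z - 1 + 1 = z := by omega
      rw [h4] at h3
      rcases h3 with h3 | h3
      · exact absurd h3 hz3
      · obtain ⟨A, hA1, hA2⟩ := hdrc V R ε (w (z - 1)) (w z) hε0 hεa (hne' _ h1) (hne' _ h2)
          (hNC _ h1) (hNC _ h2) (hdens _ h1 _ h2 h3)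
        exact ⟨A, fun _ => ⟨hA1, hA2⟩⟩
    · exact ⟨fun _ => ∅, fun h => absurd h hz⟩
  choose A hA using hA
  refine comp_core_aux g R Ks w L Z K ε δ c v hK1 hε0 hdε hδ2 hc hv (by omega) hVn hdisj hsz hKn
    hNC hw1 A hA ?_ hnZ h4b ?_
  · intro U hU
    have h1 : (((Finset.range Z).filter (fun z => w z = U)).card : ℝ) ≤ cap U := by
      have h3 := hw3 U hU
      refine (Nat.cast_le (α := ℝ)).mpr (le_trans (le_of_eq ?_) h3)
      congr
    have h2 := hcap2 U
    rw [le_div_iff₀ hLpos] at h2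
    calc (L : ℝ) * ((Finset.range Z).filter (fun z => w z = U)).card ≤ L * cap U :=
          mul_le_mul_of_nonneg_left h1 hLpos.le
      _ ≤ (1 - δ) * U.card := by linarith
  · rw [hG0, hE]
    push_cast
    have h1 : (Z : ℝ) ≤ 1 / γ + 1 := by
      have : (n : ℝ) / L ≤ 1 / γ := by
        rw [div_le_div_iff₀ hLpos hγ0]; linarith
      linarith
    have hb0 : (0 : ℝ) ≤ b := Nat.cast_nonneg b
    calc E * (2 * (2 * (Z * (4 * b))) * G0) = E * (16 * Z * G0) * b := by ring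
      _ ≤ E * (16 * (1 / γ + 1) * G0) * b := by
        apply mul_le_mul_of_nonneg_right _ hb0
        apply mul_le_mul_of_nonneg_left _ hE0.le
        apply mul_le_mul_of_nonneg_right _ hG0nn
        linarith
      _ ≤ B1 * b := by
        apply mul_le_mul_of_nonneg_right _ hb0
        rw [hB1]; linarith
      _ ≤ B1 * (1 / B1 * n) := mul_le_mul_of_nonneg_left hb2 hB1pos.le
      _ = n := by field_simp
      _ ≤ _ := hnN

end Pool.Agent.Helper3.RG
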