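import Mathlib
import Pool.Agent.Helper3.RGEmbed

set_option autoImplicit false

open Finset Classical

namespace Pool.Agent.Helper3.RG

section Blue

variable {V : Type*}

/-- `x` and `y` are joined by a blue edge. -/
def bl (R : SimpleGraph V) (x y : V) : Prop := x ≠ y ∧ ¬ R.Adj x y

lemma bl_symm {R : SimpleGraph V} {x y : V} (h : bl R x y) : bl R y x :=
  ⟨h.1.symm, fun h' => h.2 h'.symm⟩

/-- No blue complete multipartite graph with one part of size `s` and `r` parts of size `T`. -/
def BlueFree (R : SimpleGraph V) (r s T : ℕ) : Prop :=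
  ¬ ∃ (Y0 : Finset V) (Y : Fin r → Finset V), s ≤ Y0.card ∧ (∀ i, T ≤ (Y i).card) ∧
    (∀ i, ∀ x ∈ Y0, ∀ y ∈ Y i, bl R x y) ∧ (∀ i j, i ≠ j → ∀ x ∈ Y i, ∀ y ∈ Y j, bl R x y)

/-- Version with an arbitrary index type of `r + 1` parts. -/
lemma BlueFree.no_family {R : SimpleGraph V} {r s T : ℕ} (h : BlueFree R r s T) (hsT : s ≤ T)
    {ι : Type*} [Fintype ι] (hι : Fintype.card ι = r + 1) (Y : ι → Finset V)
    (hT : ∀ i, T ≤ (Y i).card) (hb : ∀ i j, i ≠ j → ∀ x ∈ Y i, ∀ y ∈ Y j, bl R x y) : False := by
  have e : ι ≃ Fin (r + 1) := Fintype.equivFinOfCardEq hι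
  apply h
  refine ⟨Y (e.symm 0), fun i => Y (e.symm i.succ), hsT.trans (hT _), fun i => hT _, ?_, ?_⟩
  · intro i
    apply hb
    intro hc
    have := e.symm.injective hc
    exact (Fin.succ_ne_zero i) this.symm
  · intro i j hij
    apply hb
    intro hc
    have := e.symm.injective hc
    exact hij (Fin.succ_injective _ this)

/-- Version with an arbitrary index type of `r` parts, plus the small part. -/
lemma BlueFree.no_family' {R : SimpleGraph V} {r s T : ℕ} (h : BlueFree R r s T)
    {ι : Type*} [Fintype ι] (hι : Fintype.card ι = r) (Y0 : Finset V) (h0 : s ≤ Y0.card)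
    (Y : ι → Finset V)
    (hT : ∀ i, T ≤ (Y i).card) (hb0 : ∀ i, ∀ x ∈ Y0, ∀ y ∈ Y i, bl R x y)
    (hb : ∀ i j, i ≠ j → ∀ x ∈ Y i, ∀ y ∈ Y j, bl R x y) : False := by
  have e : ι ≃ Fin r := Fintype.equivFinOfCardEq hι
  apply h
  refine ⟨Y0, fun i => Y (e.symm i), h0, fun i => hT _, fun i => hb0 _, ?_⟩
  intro i j hij
  apply hb
  intro hc
  exact hij (e.symm.injective hc)

/-- Greedy completion. -/
lemma completion {ι : Type*} [Fintype ι] (R : SimpleGraph V) (A : ι → Finset V) (T : ℕ)
    (X0 : Finset V) (a : ι → ℝ)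
    (hdisj : ∀ i j, i ≠ j → Disjoint (A i) (A j)) (ha : ∀ i, 0 ≤ a i)
    (h1 : ∀ i, ∀ x ∈ X0, (((A i).filter (fun u => R.Adj x u)).card : ℝ) ≤ a i)
    (h2 : ∀ i j, i ≠ j → ∀ v ∈ A j, (((A i).filter (fun u => R.Adj v u)).card : ℝ) ≤ a i)
    (h3 : ∀ i, ((X0.card : ℝ) + Fintype.card ι * T) * a i + X0.card + T ≤ (A i).card) :
    ∃ Y : ι → Finset V, (∀ i, Y i ⊆ A i) ∧ (∀ i, (Y i).card = T) ∧
      (∀ i, ∀ x ∈ X0, ∀ y ∈ Y i, bl R x y) ∧
      (∀ i j, i ≠ j → ∀ x ∈ Y i, ∀ y ∈ Y j, bl R x y) := by
  have key : ∀ s : Finset ι, ∃ Y : ι → Finset V, (∀ i ∈ s, Y i ⊆ A i) ∧ (∀ i ∈ s, (Y i).card = T) ∧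
      (∀ i ∈ s, ∀ x ∈ X0, ∀ y ∈ Y i, bl R x y) ∧
      (∀ i ∈ s, ∀ j ∈ s, i ≠ j → ∀ x ∈ Y i, ∀ y ∈ Y j, bl R x y) := by
    intro s
    induction s using Finset.induction_on with
    | empty =>
      exact ⟨fun _ => ∅, by simp, by simp, by simp, by simp⟩
    | insert k s hks ih =>
      obtain ⟨Y, hY1, hY2, hY3, hY4⟩ := ih
      set Z : Finset V := X0 ∪ s.biUnion Y with hZ
      have hZc : (Z.card : ℝ) ≤ X0.card + Fintype.card ι * T := by
        have e1 : Z.card ≤ X0.card + (s.biUnion Y).card := Finset.card_union_le _ _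
        have e2 : (s.biUnion Y).card ≤ s.card * T := by
          calc (s.biUnion Y).card ≤ ∑ i ∈ s, (Y i).card := Finset.card_biUnion_le
            _ = ∑ _i ∈ s, T := Finset.sum_congr rfl (fun i hi => hY2 i hi)
            _ = s.card * T := by rw [Finset.sum_const, smul_eq_mul]
        have e3 : s.card ≤ Fintype.card ι := Finset.card_le_univ s
        have e4 : s.card * T ≤ Fintype.card ι * T := Nat.mul_le_mul_right _ e3
        exact_mod_cast e1.trans (by omega)
      have hZred : ∀ x ∈ Z, (((A k).filter (fun u => R.Adj x u)).card : ℝ) ≤ a k := by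
        intro x hx
        rw [hZ, mem_union, mem_biUnion] at hx
        rcases hx with hx | ⟨i, hi, hx⟩
        · exact h1 k x hx
        · apply h2 k i _ x (hY1 i hi hx)
          rintro rfl
          exact hks hi
      set bad : Finset V := X0 ∪ Z.biUnion (fun x => (A k).filter (fun u => R.Adj x u)) with hbad
      have hbadc : (bad.card : ℝ) ≤ X0.card + (X0.card + Fintype.card ι * T) * a k := by
        have e1 : bad.card ≤ X0.card +
            (Z.biUnion (fun x => (A k).filter (fun u => R.Adj x u))).card :=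
          Finset.card_union_le _ _
        have e2 : (Z.biUnion (fun x => (A k).filter (fun u => R.Adj x u))).card ≤
            ∑ x ∈ Z, ((A k).filter (fun u => R.Adj x u)).card := Finset.card_biUnion_le
        have e3 : ((∑ x ∈ Z, ((A k).filter (fun u => R.Adj x u)).card : ℕ) : ℝ) ≤
            Z.card * a k := by
          push_cast
          have := Finset.sum_le_sum hZred
          rwa [Finset.sum_const, nsmul_eq_mul] at this
        have e4 : (Z.card : ℝ) * a k ≤ (X0.card + Fintype.card ι * T) * a k :=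
          mul_le_mul_of_nonneg_right hZc (ha k)
        have e5 : (bad.card : ℝ) ≤ X0.card +
            ((∑ x ∈ Z, ((A k).filter (fun u => R.Adj x u)).card : ℕ) : ℝ) := by
          exact_mod_cast e1.trans (by omega)
        linarith
      have hlarge : T ≤ (A k \ bad).card := by
        have e1 := Finset.le_card_sdiff bad (A k)
        have e2 : (A k).card ≤ (A k \ bad).card + bad.card := by omega
        have e3 : ((A k).card : ℝ) ≤ (A k \ bad).card + bad.card := by exact_mod_cast e2
        have e4 := h3 k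
        have e5 : (T : ℝ) ≤ (A k \ bad).card := by linarith
        exact_mod_cast e5
      obtain ⟨W, hW1, hW2⟩ := Finset.exists_subset_card_eq hlarge
      have hWA : W ⊆ A k := hW1.trans Finset.sdiff_subset
      have hWbl : ∀ x ∈ Z, ∀ y ∈ W, ¬ R.Adj x y := by
        intro x hx y hy hadj
        have := hW1 hy
        rw [mem_sdiff] at this
        apply this.2
        rw [hbad, mem_union, mem_biUnion]
        exact Or.inr ⟨x, hx, mem_filter.mpr ⟨this.1, hadj⟩⟩
      have hYk : ∀ i ∈ s, i ≠ k := by rintro i hi rfl; exact hks hi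
      refine ⟨Function.update Y k W, ?_, ?_, ?_, ?_⟩
      · intro i hi
        rw [Finset.mem_insert] at hi
        rcases hi with rfl | hi
        · rw [Function.update_self]; exact hWA
        · rw [Function.update_of_ne (hYk i hi)]; exact hY1 i hi
      · intro i hi
        rw [Finset.mem_insert] at hi
        rcases hi with rfl | hi
        · rw [Function.update_self]; exact hW2
        · rw [Function.update_of_ne (hYk i hi)]; exact hY2 i hi
      · intro i hi
        rw [Finset.mem_insert] at hi
        rcases hi with rfl | hi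
        · rw [Function.update_self]
          intro x hx y hy
          refine ⟨?_, hWbl x (by rw [hZ, mem_union]; exact Or.inl hx) y hy⟩
          rintro rfl
          have := hW1 hy
          rw [mem_sdiff] at this
          apply this.2
          rw [hbad, mem_union]
          exact Or.inl hx
        · rw [Function.update_of_ne (hYk i hi)]; exact hY3 i hi
      · have hcross : ∀ i ∈ s, ∀ x ∈ Y i, ∀ y ∈ W, bl R x y := by
          intro i hi x hx y hy
          refine ⟨?_, hWbl x (by rw [hZ, mem_union, mem_biUnion]; exact Or.inr ⟨i, hi, hx⟩) y hy⟩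
          rintro rfl
          have h5 := hdisj i k (hYk i hi)
          rw [Finset.disjoint_left] at h5
          exact h5 (hY1 i hi hx) (hWA hy)
        intro i hi j hj hij
        rw [Finset.mem_insert] at hi hj
        rcases hi with rfl | hi
        · rcases hj with rfl | hj
          · exact absurd rfl hij
          · rw [Function.update_self, Function.update_of_ne (hYk j hj)]
            intro x hx y hy
            exact bl_symm (hcross j hj y hy x hx)
        · rcases hj with rfl | hj
          · rw [Function.update_self, Function.update_of_ne (hYk i hi)]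
            exact hcross i hi
          · rw [Function.update_of_ne (hYk i hi), Function.update_of_ne (hYk j hj)]
            exact hY4 i hi j hj hij
  obtain ⟨Y, h4, h5, h6, h7⟩ := key univ
  exact ⟨Y, fun i => h4 i (mem_univ _), fun i => h5 i (mem_univ _), fun i => h6 i (mem_univ _),
    fun i j => h7 i (mem_univ _) j (mem_univ _)⟩

/-! ### Spots -/

/-- A set without blue cliques of size `k` contains a large set with small blue degrees. -/
lemma exists_spot (R : SimpleGraph V) (ε : ℝ) (hε : 0 < ε) (hε1 : ε ≤ 1) (k : ℕ) :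
    ∀ X : Finset V, (∀ Z ⊆ X, (∀ x ∈ Z, ∀ y ∈ Z, x ≠ y → ¬ R.Adj x y) → Z.card < k) →
      ∃ U ⊆ X, ε ^ k * X.card ≤ U.card ∧
        ∀ v ∈ U, ((U.filter (fun u => bl R v u)).card : ℝ) ≤ ε * U.card := by
  induction k with
  | zero =>
    intro X hX
    exact absurd (hX ∅ (Finset.empty_subset _) (by simp)) (by simp)
  | succ k ih =>
    intro X hX
    by_cases hgood : ∀ v ∈ X, ((X.filter (fun u => bl R v u)).card : ℝ) ≤ ε * X.card
    · refine ⟨X, Finset.Subset.refl _, ?_, hgood⟩
      have : ε ^ (k + 1) ≤ 1 := pow_le_one₀ hε.le hε1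
      have h0 : (0 : ℝ) ≤ X.card := Nat.cast_nonneg _
      nlinarith
    · push Not at hgood
      obtain ⟨v, hv, hlt⟩ := hgood
      obtain ⟨U, hU1, hU2, hU3⟩ := ih (X.filter (fun u => bl R v u)) (by
        intro Z hZ hind
        have hvZ : v ∉ Z := by
          intro h
          have := hZ h
          rw [mem_filter] at this
          exact this.2.1 rfl
        have h1 := hX (insert v Z) (by
          intro x hx
          rw [Finset.mem_insert] at hx
          rcases hx with rfl | hx
          · exact hv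
          · exact (mem_filter.mp (hZ hx)).1) (by
          intro x hx y hy hxy
          rw [Finset.mem_insert] at hx hy
          rcases hx with rfl | hx
          · rcases hy with rfl | hy
            · exact absurd rfl hxy
            · exact (mem_filter.mp (hZ hy)).2.2
          · rcases hy with rfl | hy
            · exact fun h => (mem_filter.mp (hZ hx)).2.2 h.symm
            · exact hind x hx y hy hxy)
        rw [Finset.card_insert_of_notMem hvZ] at h1
        omega)
      refine ⟨U, hU1.trans (Finset.filter_subset _ _), ?_, hU3⟩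
      refine le_trans ?_ hU2
      rw [pow_succ, mul_assoc]
      exact mul_le_mul_of_nonneg_left hlt.le (by positivity)

lemma NC_of_bl (R : SimpleGraph V) (ε : ℝ) (U : Finset V) (hU : 1 ≤ ε * U.card)
    (h : ∀ v ∈ U, ((U.filter (fun u => bl R v u)).card : ℝ) ≤ ε * U.card) : NC R (2 * ε) U := by
  intro v hv
  have hsub : U.filter (fun u => ¬ R.Adj v u) ⊆ insert v (U.filter (fun u => bl R v u)) := by
    intro u hu
    rw [mem_filter] at hu
    rw [Finset.mem_insert, mem_filter]
    by_cases h1 : u = v
    · exact Or.inl h1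
    · exact Or.inr ⟨hu.1, fun h2 => h1 h2.symm, hu.2⟩
  have h1 := (Finset.card_le_card hsub).trans (Finset.card_insert_le _ _)
  have h2 : ((U.filter (fun u => ¬ R.Adj v u)).card : ℝ) ≤
      (U.filter (fun u => bl R v u)).card + 1 := by exact_mod_cast h1
  have := h v hv
  linarith

/-- No large blue clique. -/
lemma BlueFree.no_clique {R : SimpleGraph V} {r s T : ℕ} (h : BlueFree R r s T) (hsT : s ≤ T)
    (Z : Finset V) (hind : ∀ x ∈ Z, ∀ y ∈ Z, x ≠ y → ¬ R.Adj x y) : Z.card < (r + 1) * T := by
  by_contra hcon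
  push Not at hcon
  obtain ⟨Z', hZ'1, hZ'2⟩ := Finset.exists_subset_card_eq hcon
  -- enumerate Z' by Fin ((r+1)*T) and split
  have e : {x // x ∈ Z'} ≃ Fin ((r + 1) * T) := Fintype.equivFinOfCardEq (by
    rw [Fintype.card_coe, hZ'2])
  have e2 : Fin (r + 1) × Fin T ≃ Fin ((r + 1) * T) := finProdFinEquiv
  set Y : Fin (r + 1) → Finset V := fun i =>
    univ.image (fun j : Fin T => ((e.symm (e2 (i, j))).1 : V)) with hY
  have hinj : ∀ i j i' j', ((e.symm (e2 (i, j))).1 : V) = (e.symm (e2 (i', j'))).1 →
      (i, j) = (i', j') := by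
    intro i j i' j' heq
    have h1 := Subtype.val_injective heq
    exact e2.injective (e.symm.injective h1)
  apply h.no_family hsT (ι := Fin (r + 1)) (by simp) Y
  · intro i
    rw [hY]
    dsimp only
    rw [Finset.card_image_of_injective]
    · simp
    · intro j j' hjj
      have := hinj i j i j' hjj
      simpa using this
  · intro i i' hii x hx y hy
    rw [hY] at hx hy
    dsimp only at hx hy
    rw [mem_image] at hx hy
    obtain ⟨j, _, rfl⟩ := hx
    obtain ⟨j', _, rfl⟩ := hy
    have hne : ((e.symm (e2 (i, j))).1 : V) ≠ (e.symm (e2 (i', j'))).1 := by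
      intro heq
      have := hinj i j i' j' heq
      simp only [Prod.mk.injEq] at this
      exact hii this.1
    exact ⟨hne, hind _ (hZ'1 (e.symm (e2 (i, j))).2) _ (hZ'1 (e.symm (e2 (i', j'))).2) hne⟩

/-- A maximal family of disjoint spots. -/
lemma exists_spots [Fintype V] {R : SimpleGraph V} {r s T : ℕ} (h : BlueFree R r s T)
    (hsT : s ≤ T) (ε ε1 : ℝ) (hε : 0 < ε) (hε1 : ε ≤ 1) (hε2 : 0 < ε1)
    (hbig : 1 ≤ ε * (ε ^ ((r + 1) * T) * (ε1 * Fintype.card V))) :
    ∃ Us : Finset (Finset V), (∀ U ∈ Us, ∀ W ∈ Us, U ≠ W → Disjoint U W) ∧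
      (∀ U ∈ Us, ε ^ ((r + 1) * T) * (ε1 * Fintype.card V) ≤ U.card) ∧
      (∀ U ∈ Us, NC R (2 * ε) U) ∧
      (Fintype.card V : ℝ) - ∑ U ∈ Us, (U.card : ℝ) ≤ ε1 * Fintype.card V := by
  set c : ℝ := ε ^ ((r + 1) * T) * (ε1 * Fintype.card V) with hc
  have hc0 : 0 < c := by
    by_contra hcon
    push Not at hcon
    have : ε * c ≤ 0 := mul_nonpos_of_nonneg_of_nonpos hε.le hcon
    linarith
  set P : Finset (Finset (Finset V)) := univ.filter (fun Us =>
    (∀ U ∈ Us, ∀ W ∈ Us, U ≠ W → Disjoint U W) ∧ (∀ U ∈ Us, c ≤ U.card) ∧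
    (∀ U ∈ Us, NC R (2 * ε) U)) with hP
  have hne : P.Nonempty := ⟨∅, by rw [hP, mem_filter]; simp⟩
  obtain ⟨Us, hUs, hmax⟩ := Finset.exists_max_image P Finset.card hne
  rw [hP, mem_filter] at hUs
  obtain ⟨_, h1, h2, h3⟩ := hUs
  refine ⟨Us, h1, h2, h3, ?_⟩
  by_contra hcon
  push Not at hcon
  set X : Finset V := univ \ Us.biUnion id with hX
  have hXc : (X.card : ℝ) = (Fintype.card V : ℝ) - ∑ U ∈ Us, (U.card : ℝ) := by
    have e1 : (Us.biUnion id).card = ∑ U ∈ Us, U.card := by
      rw [Finset.card_biUnion]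
      · rfl
      · intro U hU W hW hne
        exact h1 U hU W hW hne
    have e2 : X.card + (Us.biUnion id).card = Fintype.card V := by
      rw [hX, Finset.card_sdiff_add_card_eq_card (subset_univ _), Finset.card_univ]
    have e3 : (X.card : ℝ) + ∑ U ∈ Us, (U.card : ℝ) = Fintype.card V := by
      rw [e1] at e2; exact_mod_cast e2
    linarith
  obtain ⟨U, hU1, hU2, hU3⟩ := exists_spot R ε hε hε1 ((r + 1) * T) X
    (fun Z _ hind => h.no_clique hsT Z hind)
  have hUc : c ≤ U.card := by
    refine le_trans ?_ hU2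
    rw [hc]
    apply mul_le_mul_of_nonneg_left _ (by positivity)
    rw [hXc]; exact hcon.le
  have hUne : U.Nonempty := by
    rw [← Finset.card_pos]
    have : (0 : ℝ) < U.card := by linarith
    exact_mod_cast this
  have hUnc : NC R (2 * ε) U := by
    apply NC_of_bl R ε U _ hU3
    calc (1 : ℝ) ≤ ε * c := hbig
      _ ≤ ε * U.card := mul_le_mul_of_nonneg_left hUc hε.le
  have hUdisj : ∀ W ∈ Us, Disjoint U W := by
    intro W hW
    rw [Finset.disjoint_left]
    intro x hxU hxW
    have := hU1 hxU
    rw [hX, mem_sdiff, mem_biUnion] at this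
    exact this.2 ⟨W, hW, hxW⟩
  have hUnot : U ∉ Us := by
    intro hU
    have := hUdisj U hU
    rw [disjoint_self] at this
    exact hUne.ne_empty this
  have h5 := hmax (insert U Us) (by
    rw [hP, mem_filter]
    refine ⟨mem_univ _, ?_, ?_, ?_⟩
    · intro A hA B hB hAB
      rw [Finset.mem_insert] at hA hB
      rcases hA with rfl | hA
      · rcases hB with rfl | hB
        · exact absurd rfl hAB
        · exact hUdisj B hB
      · rcases hB with rfl | hB
        · exact (hUdisj A hA).symm
        · exact h1 A hA B hB hAB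
    · intro A hA
      rw [Finset.mem_insert] at hA
      rcases hA with rfl | hA
      · exact hUc
      · exact h2 A hA
    · intro A hA
      rw [Finset.mem_insert] at hA
      rcases hA with rfl | hA
      · exact hUnc
      · exact h3 A hA)
  rw [Finset.card_insert_of_notMem hUnot] at h5
  omega

end Blue

end Pool.Agent.Helper3.RG
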