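import Mathlib
import Pool.Agent.Helper3.RGBlue

set_option autoImplicit false

open Finset Classical

namespace Pool.Agent.Helper3.RG

section Struct

variable {V : Type*}

lemma eR_comm (R : SimpleGraph V) (U W : Finset V) : eR R U W = eR R W U := by
  unfold eR
  have h1 : ∀ (A B : Finset V), ∑ w ∈ B, ((A.filter (fun u => R.Adj u w)).card : ℝ) =
      ∑ w ∈ B, ∑ u ∈ A, if R.Adj u w then (1 : ℝ) else 0 := by
    intro A B
    apply Finset.sum_congr rfl
    intro w _
    rw [Finset.card_filter]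
    push_cast
    rfl
  rw [h1, h1, Finset.sum_comm]
  apply Finset.sum_congr rfl
  intro u _
  apply Finset.sum_congr rfl
  intro w _
  simp [R.adj_comm]

lemma card_dirty (R : SimpleGraph V) (U W : Finset V) (κ : ℝ) (hκ : 0 < κ)
    (h : eR R U W ≤ κ ^ 2 * (U.card * W.card)) :
    ((W.filter (fun w => κ * U.card < ((U.filter (fun u => R.Adj w u)).card : ℝ))).card : ℝ) ≤
      κ * W.card := by
  obtain ⟨D, hD⟩ : ∃ D, W.filter (fun w => κ * U.card <
    ((U.filter (fun u => R.Adj w u)).card : ℝ)) = D := ⟨_, rfl⟩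
  rw [hD]
  rcases Nat.eq_zero_or_pos U.card with h0 | h0
  · have : D = ∅ := by
      rw [← hD, Finset.filter_eq_empty_iff]
      intro w _
      rw [Finset.card_eq_zero] at h0
      rw [h0]
      simp
    rw [this]
    simp only [Finset.card_empty, Nat.cast_zero]
    positivity
  · have hU : (0 : ℝ) < U.card := by exact_mod_cast h0
    have h1 : D.card * (κ * U.card) ≤ eR R U W := by
      unfold eR
      calc (D.card : ℝ) * (κ * U.card) = ∑ _w ∈ D, κ * (U.card : ℝ) := by
            rw [Finset.sum_const, nsmul_eq_mul]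
        _ ≤ ∑ w ∈ D, ((U.filter (fun u => R.Adj u w)).card : ℝ) := by
            apply Finset.sum_le_sum
            intro w hw
            rw [← hD, mem_filter] at hw
            have h2 := hw.2.le
            refine h2.trans (le_of_eq ?_)
            congr 2
            ext u
            rw [mem_filter, mem_filter, R.adj_comm]
        _ ≤ _ := by
            apply Finset.sum_le_sum_of_subset_of_nonneg
            · rw [← hD]; exact Finset.filter_subset _ _
            · intro _ _ _; positivity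
    have h2 : D.card * (κ * U.card) ≤ κ ^ 2 * (U.card * W.card) := h1.trans h
    have h3 : (κ * U.card) * D.card ≤ (κ * U.card) * (κ * W.card) := by nlinarith
    exact le_of_mul_le_mul_left h3 (by positivity)

/-- The cleaned part of `C i`. -/
noncomputable def core {ι : Type*} (R : SimpleGraph V) (C : ι → Finset V) (κ : ℝ) (i : ι) :
    Finset V :=
  (C i).filter (fun v => ∀ j, j ≠ i → (((C j).filter (fun u => R.Adj v u)).card : ℝ) ≤
    κ * (C j).card)

lemma mem_core {ι : Type*} {R : SimpleGraph V} {C : ι → Finset V} {κ : ℝ} {i : ι} {v : V} :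
    v ∈ core R C κ i ↔ v ∈ C i ∧ ∀ j, j ≠ i →
      (((C j).filter (fun u => R.Adj v u)).card : ℝ) ≤ κ * (C j).card := by
  unfold core
  rw [mem_filter]

lemma core_subset {ι : Type*} {R : SimpleGraph V} {C : ι → Finset V} {κ : ℝ} {i : ι} :
    core R C κ i ⊆ C i := fun _ hv => (mem_core.mp hv).1

lemma core_card {ι : Type*} [Fintype ι] (R : SimpleGraph V) (C : ι → Finset V) (κ : ℝ)
    (hκ : 0 < κ) (i : ι)
    (he : ∀ j, j ≠ i → eR R (C j) (C i) ≤ κ ^ 2 * ((C j).card * (C i).card)) :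
    (C i).card - Fintype.card ι * (κ * (C i).card) ≤ ((core R C κ i).card : ℝ) := by
  obtain ⟨Dd, hDd⟩ : ∃ Dd : ι → Finset V, (fun j => (C i).filter (fun w => κ * (C j).card <
    (((C j).filter (fun u => R.Adj w u)).card : ℝ))) = Dd := ⟨_, rfl⟩
  have hDd' : ∀ j, (C i).filter (fun w => κ * (C j).card <
    (((C j).filter (fun u => R.Adj w u)).card : ℝ)) = Dd j := fun j => by rw [← hDd]
  have hsub : C i ⊆ core R C κ i ∪ (univ.filter (fun j => j ≠ i)).biUnion Dd := by
    intro v hv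
    rw [mem_union]
    by_cases hc : v ∈ core R C κ i
    · exact Or.inl hc
    · right
      rw [mem_core] at hc
      push Not at hc
      obtain ⟨j, hj, hlt⟩ := hc hv
      rw [mem_biUnion]
      refine ⟨j, mem_filter.mpr ⟨mem_univ _, hj⟩, ?_⟩
      rw [← hDd' j, mem_filter]
      exact ⟨hv, hlt⟩
  have h1 := (Finset.card_le_card hsub).trans (Finset.card_union_le _ _)
  have h2 : (((univ.filter (fun j => j ≠ i)).biUnion Dd).card : ℝ) ≤
      Fintype.card ι * (κ * (C i).card) := by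
    have h3 : (((univ.filter (fun j => j ≠ i)).biUnion Dd).card : ℝ) ≤
        ∑ j ∈ univ.filter (fun j => j ≠ i), ((Dd j).card : ℝ) := by
      exact_mod_cast Finset.card_biUnion_le
    refine h3.trans ?_
    have h4 : ∑ j ∈ univ.filter (fun j => j ≠ i), ((Dd j).card : ℝ) ≤
        ∑ _j ∈ univ.filter (fun j => j ≠ i), κ * ((C i).card : ℝ) := by
      apply Finset.sum_le_sum
      intro j hj
      rw [mem_filter] at hj
      rw [← hDd' j]
      exact card_dirty R (C j) (C i) κ hκ (he j hj.2)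
    refine h4.trans ?_
    rw [Finset.sum_const, nsmul_eq_mul]
    apply mul_le_mul_of_nonneg_right _ (by positivity)
    exact_mod_cast Finset.card_le_univ _
  have h5 : ((C i).card : ℝ) ≤ (core R C κ i).card +
      ((univ.filter (fun j => j ≠ i)).biUnion Dd).card := by exact_mod_cast h1
  linarith

/-- There are no `r + 1` large disjoint sets with sparse red density between them. -/
lemma no_spots {R : SimpleGraph V} {r s T : ℕ} (h : BlueFree R r s T) (hsT : s ≤ T)
    {ι : Type*} [Fintype ι] (hι : Fintype.card ι = r + 1) (U : ι → Finset V) (κ : ℝ) (hκ : 0 < κ)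
    (hκ2 : κ * ((r + 1) * (T + 1)) ≤ 1 / 2)
    (hdisj : ∀ i j, i ≠ j → Disjoint (U i) (U j)) (hsz : ∀ i, 2 * (T : ℝ) ≤ (U i).card)
    (he : ∀ i j, i ≠ j → eR R (U i) (U j) ≤ κ ^ 2 * ((U i).card * (U j).card)) : False := by
  obtain ⟨Y, hY1, hY2, _, hY4⟩ := completion R (core R U κ) T ∅ (fun i => κ * (U i).card)
    (by
      intro i j hij
      exact (hdisj i j hij).mono core_subset core_subset)
    (by intro i; positivity)
    (by intro i x hx; exact absurd hx (Finset.notMem_empty _))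
    (by
      intro i j hij v hv
      rw [mem_core] at hv
      refine le_trans ?_ (hv.2 i hij)
      have : (core R U κ i).filter (fun u => R.Adj v u) ⊆ (U i).filter (fun u => R.Adj v u) :=
        Finset.filter_subset_filter _ core_subset
      exact_mod_cast Finset.card_le_card this)
    (by
      intro i
      have h1 := core_card R U κ hκ i (fun j hj => he j i hj)
      rw [hι] at h1 ⊢
      push_cast at h1 ⊢
      have h2 := hsz i
      have h3 : κ * ((r + 1) * (T + 1)) * (U i).card ≤ 1 / 2 * (U i).card :=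
        mul_le_mul_of_nonneg_right hκ2 (Nat.cast_nonneg _)
      simp only [Finset.card_empty, Nat.cast_zero, zero_add, add_zero]
      nlinarith)
  exact h.no_family hsT hι Y (fun i => (hY2 i).ge) hY4

lemma eR_biUnion (R : SimpleGraph V) (A : Finset V) (Ls : Finset (Finset V))
    (hdisj : ∀ U ∈ Ls, ∀ W ∈ Ls, U ≠ W → Disjoint U W) :
    eR R A (Ls.biUnion id) = ∑ W ∈ Ls, eR R A W := by
  unfold eR
  rw [Finset.sum_biUnion]
  · rfl
  · intro U hU W hW hne
    exact hdisj U hU W hW hne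

lemma eR_biUnion2 (R : SimpleGraph V) (Ks Ls : Finset (Finset V))
    (hdisj : ∀ U ∈ Ks, ∀ W ∈ Ks, U ≠ W → Disjoint U W)
    (hdisj' : ∀ U ∈ Ls, ∀ W ∈ Ls, U ≠ W → Disjoint U W) :
    eR R (Ks.biUnion id) (Ls.biUnion id) = ∑ U ∈ Ks, ∑ W ∈ Ls, eR R U W := by
  rw [eR_comm, eR_biUnion R _ Ks hdisj]
  apply Finset.sum_congr rfl
  intro U _
  rw [eR_comm, eR_biUnion R _ Ls hdisj']

end Struct

/-- The classes of a finite family under reachability. -/
lemma comp_classes {V : Type} (Us : Finset (Finset V)) (Q : SimpleGraph (Finset V))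
    (hQ : ∀ U W, Q.Adj U W → W ∈ Us) :
    ∃ (ι : Type) (_ : Fintype ι) (K : ι → Finset (Finset V)), (∀ i, K i ⊆ Us) ∧
      (∀ i, (K i).Nonempty) ∧ (∀ i j, i ≠ j → Disjoint (K i) (K j)) ∧
      (∀ i, ∀ U ∈ K i, ∀ W, Q.Adj U W → W ∈ K i) ∧
      (∀ i, ∀ U ∈ K i, ∀ W ∈ K i, Q.Reachable U W) ∧
      (∀ f : Finset V → ℝ, ∑ i, ∑ U ∈ K i, f U = ∑ U ∈ Us, f U) := by
  obtain ⟨cp, hcp⟩ : ∃ cp : Finset V → Finset (Finset V),
      ∀ U W, W ∈ cp U ↔ W ∈ Us ∧ Q.Reachable U W :=
    ⟨fun U => Us.filter (fun W => Q.Reachable U W), fun U W => by rw [mem_filter]⟩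
  have hkey : ∀ U W, W ∈ cp U → cp U = cp W := by
    intro U W hW
    rw [hcp] at hW
    ext Z
    rw [hcp, hcp]
    constructor
    · rintro ⟨h1, h2⟩; exact ⟨h1, hW.2.symm.trans h2⟩
    · rintro ⟨h1, h2⟩; exact ⟨h1, hW.2.trans h2⟩
  have hself : ∀ U ∈ Us, U ∈ cp U := by
    intro U hU
    rw [hcp]
    exact ⟨hU, SimpleGraph.Reachable.refl _⟩
  have hrep : ∀ i : {K // K ∈ Us.image cp}, ∃ U ∈ Us, i.1 = cp U := by
    rintro ⟨K, hK⟩
    rw [mem_image] at hK
    obtain ⟨U, hU, rfl⟩ := hK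
    exact ⟨U, hU, rfl⟩
  have hmem : ∀ i : {K // K ∈ Us.image cp}, ∀ U ∈ i.1, i.1 = cp U := by
    intro i U hU
    obtain ⟨U0, hU0, h1⟩ := hrep i
    rw [h1] at hU ⊢
    exact hkey U0 U hU
  refine ⟨{K // K ∈ Us.image cp}, inferInstance, fun i => i.1, ?_, ?_, ?_, ?_, ?_, ?_⟩
  · intro i W hW
    obtain ⟨U, hU, h1⟩ := hrep i
    dsimp only at hW
    rw [h1, hcp] at hW
    exact hW.1
  · intro i
    obtain ⟨U, hU, h1⟩ := hrep i
    dsimp only
    rw [h1]
    exact ⟨U, hself U hU⟩
  · intro i j hij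
    rw [Finset.disjoint_left]
    intro U hUi hUj
    apply hij
    apply Subtype.ext
    rw [hmem i U hUi, hmem j U hUj]
  · intro i U hU W hUW
    dsimp only at hU ⊢
    rw [hmem i U hU, hcp]
    exact ⟨hQ U W hUW, hUW.reachable⟩
  · intro i U hU W hW
    dsimp only at hU hW
    rw [hmem i U hU, hcp] at hW
    exact hW.2
  · intro f
    have h1 : Us = (univ : Finset {K // K ∈ Us.image cp}).biUnion (fun i => i.1) := by
      ext U
      rw [mem_biUnion]
      constructor
      · intro hU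
        exact ⟨⟨cp U, mem_image_of_mem _ hU⟩, mem_univ _, hself U hU⟩
      · rintro ⟨i, _, hi⟩
        rw [hmem i U hi, hcp] at hi
        exact hi.1
    conv_rhs => rw [h1]
    rw [Finset.sum_biUnion]
    intro i _ j _ hij
    show Disjoint i.1 j.1
    rw [Finset.disjoint_left]
    intro U hUi hUj
    apply hij
    apply Subtype.ext
    rw [hmem i U hUi, hmem j U hUj]

/-- **Structure theorem**: either the embedding exists or the red graph is nearly extremal. -/
theorem structure_thm (d r s T : ℕ) (hr : 1 ≤ r) (hsT : s ≤ T) (κ e2 : ℝ) (hκ : 0 < κ)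
    (hκ2 : κ * ((r + 1) * (T + 1)) ≤ 1 / 2) (he2 : 0 < e2) :
    ∃ (β : ℝ) (n0 : ℕ), 0 < β ∧ ∀ (n b : ℕ), n0 ≤ n → (b : ℝ) ≤ β * n →
      ∀ (g : Guest n d b) (V : Type) [Fintype V] (R : SimpleGraph V),
      Fintype.card V = r * (n - 1) + s → BlueFree R r s T →
      (∃ φ : Fin n → V, Function.Injective φ ∧ ∀ u v, g.G.Adj u v → R.Adj (φ u) (φ v)) ∨
      ∃ C : Fin r → Finset V, (∀ i j, i ≠ j → Disjoint (C i) (C j)) ∧
        (∀ i, (1 - e2) * n ≤ (C i).card) ∧ (∀ i, ((C i).card : ℝ) ≤ (1 + e2) * n) ∧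
        (∀ i j, i ≠ j → eR R (C i) (C j) ≤ κ ^ 2 * ((C i).card * (C j).card)) := by
  have hrR : (1 : ℝ) ≤ r := by exact_mod_cast hr
  obtain ⟨t, ht0, ht1, ht2⟩ : ∃ t : ℝ, 0 < t ∧ 4 * r * t ≤ e2 ∧ 4 * r * t ≤ 1 := by
    refine ⟨min e2 1 / (4 * r), by positivity, ?_, ?_⟩
    · rw [mul_div_cancel₀ _ (by positivity)]; exact min_le_left _ _
    · rw [mul_div_cancel₀ _ (by positivity)]; exact min_le_right _ _
  have ht3 : t ≤ 1 / 4 := by nlinarith
  obtain ⟨ε0, hε00, hemb⟩ := comp_embed d (κ ^ 2) (by positivity)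
  obtain ⟨ε, hε0, hεa, hεb, hεc⟩ : ∃ ε : ℝ, 0 < ε ∧ 2 * ε ≤ ε0 ∧ 3 * d * (2 * ε) < t / 4 ∧
      ε ≤ 1 := by
    refine ⟨min (ε0 / 2) (min (t / 4 / (6 * (d + 1))) 1), ?_, ?_, ?_, ?_⟩
    · apply lt_min (by positivity) (lt_min (by positivity) (by norm_num))
    · have := min_le_left (ε0 / 2) (min (t / 4 / (6 * ((d : ℝ) + 1))) 1)
      linarith
    · have h1 : min (ε0 / 2) (min (t / 4 / (6 * ((d : ℝ) + 1))) 1) ≤ t / 4 / (6 * ((d : ℝ) + 1)) :=
        (min_le_right _ _).trans (min_le_left _ _)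
      rw [le_div_iff₀ (by positivity)] at h1
      have h2 : 0 < min (ε0 / 2) (min (t / 4 / (6 * ((d : ℝ) + 1))) 1) :=
        lt_min (by positivity) (lt_min (by positivity) (by norm_num))
      nlinarith
    · exact (min_le_right _ _).trans (min_le_right _ _)
  obtain ⟨a, ha, ha0⟩ : ∃ a : ℝ, ε ^ ((r + 1) * T) = a ∧ 0 < a := ⟨_, rfl, by positivity⟩
  obtain ⟨β, n1, hβ, hmain⟩ := hemb (2 * ε) (t / 4) (a * (t / 2)) (t / 4) (r + 1) (by positivity)
    hεa (by positivity) (by linarith) hεb (by positivity) (by positivity) (by positivity)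
  refine ⟨β, max n1 (max 2 (max s (max ⌈(r : ℝ) / t⌉₊ (max ⌈2 * (T : ℝ) / (a * (t / 2))⌉₊
    ⌈1 / (ε * (a * (t / 2)))⌉₊)))), hβ, ?_⟩
  intro n b hn hb g V _ R hV hbf
  have hn1 : n1 ≤ n := (le_max_left _ _).trans hn
  have hn' := (le_max_right _ _).trans hn
  have hn2 : 2 ≤ n := (le_max_left _ _).trans hn'
  have hn'' := (le_max_right _ _).trans hn'
  have hns : s ≤ n := (le_max_left _ _).trans hn''
  have hn3 := (le_max_right _ _).trans hn''
  have hnr : (r : ℝ) / t ≤ n := (Nat.le_ceil _).trans (by exact_mod_cast (le_max_left _ _).trans hn3)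
  have hn4 := (le_max_right _ _).trans hn3
  have hnT : 2 * (T : ℝ) / (a * (t / 2)) ≤ n :=
    (Nat.le_ceil _).trans (by exact_mod_cast (le_max_left _ _).trans hn4)
  have hnε : 1 / (ε * (a * (t / 2))) ≤ n :=
    (Nat.le_ceil _).trans (by exact_mod_cast (le_max_right _ _).trans hn4)
  rw [div_le_iff₀ (by positivity)] at hnr hnT hnε
  have hn2R : (2 : ℝ) ≤ n := by exact_mod_cast hn2
  have hnsR : (s : ℝ) ≤ n := by exact_mod_cast hns
  have hVR : (Fintype.card V : ℝ) = r * (n - 1) + s := by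
    rw [hV]; push_cast [Nat.cast_sub (by omega : 1 ≤ n)]; ring
  have hs0 : (0 : ℝ) ≤ s := Nat.cast_nonneg _
  have hVlow : (n : ℝ) / 2 ≤ Fintype.card V := by rw [hVR]; nlinarith
  obtain ⟨Us, hU1, hU2, hU3, hU4⟩ := exists_spots hbf hsT ε t hε0 hεc ht0 (by
    rw [ha]
    have : ε * (a * (t * ((n : ℝ) / 2))) ≤ ε * (a * (t * Fintype.card V)) := by gcongr
    nlinarith)
  rw [ha] at hU2
  have hU2' : ∀ U ∈ Us, a * (t / 2) * n ≤ U.card := by
    intro U hU
    refine le_trans ?_ (hU2 U hU)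
    have : a * (t * ((n : ℝ) / 2)) ≤ a * (t * Fintype.card V) := by gcongr
    linarith
  obtain ⟨Q, hQ⟩ : ∃ Q : SimpleGraph (Finset V), ∀ U W, Q.Adj U W ↔ (U ≠ W ∧ U ∈ Us ∧ W ∈ Us ∧
      κ ^ 2 * (U.card * W.card) ≤ eR R U W) := by
    refine ⟨{ Adj := fun U W => (U ≠ W ∧ U ∈ Us ∧ W ∈ Us ∧
                κ ^ 2 * (U.card * W.card) ≤ eR R U W)
              symm := ?_
              loopless := ?_ }, fun U W => Iff.rfl⟩
    · constructor
      rintro U W ⟨h1, h2, h3, h4⟩
      refine ⟨h1.symm, h3, h2, ?_⟩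
      rw [eR_comm R W U]
      nlinarith
    · exact ⟨fun U h => h.1 rfl⟩
  obtain ⟨ι, _, K, hK1, hK2, hK3, hK4, hK5, hK6⟩ := comp_classes Us Q
    (fun U W h => ((hQ U W).mp h).2.2.1)
  have hneq : ∀ i j, i ≠ j → ∀ U ∈ K i, ∀ W ∈ K j, U ≠ W := by
    intro i j hij U hU W hW hUW
    have h1 := hK3 i j hij
    rw [Finset.disjoint_left] at h1
    subst hUW
    exact h1 hU hW
  have hsp : ∀ i j, i ≠ j → ∀ U ∈ K i, ∀ W ∈ K j, eR R U W ≤ κ ^ 2 * (U.card * W.card) := by
    intro i j hij U hU W hW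
    by_contra hcon
    push Not at hcon
    have h1 : Q.Adj U W := by
      rw [hQ]
      exact ⟨hneq i j hij U hU W hW, hK1 i hU, hK1 j hW, hcon.le⟩
    have h2 := hK4 i U hU W h1
    exact hneq i j hij W h2 W hW rfl
  have hdK : ∀ i, ∀ U ∈ K i, ∀ W ∈ K i, U ≠ W → Disjoint U W := fun i U hU W hW hne =>
    hU1 U (hK1 i hU) W (hK1 i hW) hne
  -- Claim A
  have hA : Fintype.card ι ≤ r := by
    by_contra hcon
    push Not at hcon
    obtain ⟨e⟩ : Nonempty (Fin (r + 1) ↪ ι) :=
      Function.Embedding.nonempty_of_card_le (by simpa using hcon)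
    choose rep hrep using hK2
    refine no_spots hbf hsT (ι := Fin (r + 1)) (by simp) (fun i => rep (e i)) κ hκ hκ2 ?_ ?_ ?_
    · intro i j hij
      have hij' : e i ≠ e j := fun h => hij (e.injective h)
      exact hU1 _ (hK1 _ (hrep _)) _ (hK1 _ (hrep _)) (hneq _ _ hij' _ (hrep _) _ (hrep _))
    · intro i
      refine le_trans ?_ (hU2' _ (hK1 _ (hrep (e i))))
      linarith
    · intro i j hij
      have hij' : e i ≠ e j := fun h => hij (e.injective h)
      exact hsp _ _ hij' _ (hrep _) _ (hrep _)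
  by_cases hB : ∃ i, (1 + t / 4) * n ≤ (1 - t / 4) * ∑ U ∈ K i, (U.card : ℝ)
  · left
    obtain ⟨i, hi⟩ := hB
    exact hmain n b hn1 hb g V R (K i) Q (by rw [hVR]; nlinarith) (hdK i)
      (fun U hU => hU2' U (hK1 i hU)) (fun U hU => hU3 U (hK1 i hU)) (hK5 i) (hK4 i)
      (fun U hU W hW h => ((hQ U W).mp h).2.2.2) hi
  · right
    push Not at hB
    obtain ⟨S, hS⟩ : ∃ S : ι → ℝ, ∀ i, ∑ U ∈ K i, (U.card : ℝ) = S i := ⟨_, fun i => rfl⟩
    have hS1 : ∀ i, S i ≤ (1 + t) * n := by
      intro i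
      by_contra hcon
      push Not at hcon
      have h1 := hB i
      rw [hS] at h1
      have h2 : (1 - t / 4) * ((1 + t) * n) ≤ (1 - t / 4) * S i :=
        mul_le_mul_of_nonneg_left hcon.le (by linarith)
      have h3 : (1 + t / 4) * (n : ℝ) ≤ (1 - t / 4) * ((1 + t) * n) := by
        have : (1 + t / 4) ≤ (1 - t / 4) * (1 + t) := by nlinarith
        nlinarith
      linarith
    have hSsum : ∑ i, S i = ∑ U ∈ Us, (U.card : ℝ) := by
      rw [← hK6]
      exact Finset.sum_congr rfl (fun i _ => (hS i).symm)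
    have hSlow : r * n - t * r * n - t * n ≤ ∑ i, S i := by
      rw [hSsum]
      have h1 : (1 - t) * (Fintype.card V : ℝ) ≤ ∑ U ∈ Us, (U.card : ℝ) := by linarith
      refine le_trans ?_ h1
      rw [hVR]
      have h2 : 0 ≤ (1 - t) * s := mul_nonneg (by linarith) hs0
      nlinarith
    have hcard : Fintype.card ι = r := by
      by_contra hne
      have h1 : Fintype.card ι + 1 ≤ r := by omega
      have h2 : ∑ i, S i ≤ (r - 1) * ((1 + t) * n) := by
        calc ∑ i, S i ≤ ∑ _i : ι, (1 + t) * (n : ℝ) := Finset.sum_le_sum (fun i _ => hS1 i)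
          _ = Fintype.card ι * ((1 + t) * n) := by
              rw [Finset.sum_const, nsmul_eq_mul, Finset.card_univ]
          _ ≤ _ := by
              apply mul_le_mul_of_nonneg_right _ (by positivity)
              have : (Fintype.card ι : ℝ) + 1 ≤ r := by exact_mod_cast h1
              linarith
      nlinarith
    have e : ι ≃ Fin r := Fintype.equivFinOfCardEq hcard
    have hScard : ∀ i, (((K i).biUnion id).card : ℝ) = S i := by
      intro i
      rw [← hS, Finset.card_biUnion]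
      · push_cast; rfl
      · intro U hU W hW hne
        exact hdK i U hU W hW hne
    refine ⟨fun i => (K (e.symm i)).biUnion id, ?_, ?_, ?_, ?_⟩
    · intro i j hij
      have hij' : e.symm i ≠ e.symm j := fun h => hij (e.symm.injective h)
      rw [Finset.disjoint_left]
      intro x hx hx'
      rw [mem_biUnion] at hx hx'
      obtain ⟨U, hU, hxU⟩ := hx
      obtain ⟨W, hW, hxW⟩ := hx'
      have h1 := hU1 U (hK1 _ hU) W (hK1 _ hW) (hneq _ _ hij' U hU W hW)
      rw [Finset.disjoint_left] at h1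
      exact h1 hxU hxW
    · intro i
      dsimp only
      rw [hScard]
      have h1 : ∑ j, S j ≤ S (e.symm i) + (r - 1) * ((1 + t) * n) := by
        rw [← Finset.add_sum_erase _ _ (mem_univ (e.symm i))]
        have h2 : ∑ j ∈ univ.erase (e.symm i), S j ≤ (r - 1) * ((1 + t) * n) := by
          calc ∑ j ∈ univ.erase (e.symm i), S j ≤
              ∑ _j ∈ univ.erase (e.symm i), (1 + t) * (n : ℝ) :=
                Finset.sum_le_sum (fun i _ => hS1 i)
            _ = _ := by
                rw [Finset.sum_const, nsmul_eq_mul, Finset.card_erase_of_mem (mem_univ _),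
                  Finset.card_univ, hcard, Nat.cast_sub hr, Nat.cast_one]
        linarith
      nlinarith
    · intro i
      dsimp only
      rw [hScard]
      refine (hS1 _).trans ?_
      have : t ≤ e2 := by nlinarith
      nlinarith
    · intro i j hij
      have hij' : e.symm i ≠ e.symm j := fun h => hij (e.symm.injective h)
      dsimp only
      rw [eR_biUnion2 R _ _ (hdK _) (hdK _), hScard, hScard, ← hS, ← hS, Finset.sum_mul_sum,
        Finset.mul_sum]
      apply Finset.sum_le_sum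
      intro U hU
      rw [Finset.mul_sum]
      apply Finset.sum_le_sum
      intro W hW
      exact hsp _ _ hij' U hU W hW

end Pool.Agent.Helper3.RG
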