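import Mathlib
import Pool.Agent.Helper3.RGStruct

set_option autoImplicit false

open Finset Classical

namespace Pool.Agent.Helper3.RG

/-- Counting stars in a graph without a blue `K_{T,T}`. -/
lemma ktt_count {V : Type*} (R : SimpleGraph V) (P : Finset V) (T : ℕ) (hT : 1 ≤ T)
    (h : ¬ ∃ X Y : Finset V, X ⊆ P ∧ Y ⊆ P ∧ X.card = T ∧ Y.card = T ∧
      ∀ x ∈ X, ∀ y ∈ Y, bl R x y) :
    ∑ v ∈ P, ((P.filter (fun x => bl R v x)).card : ℝ) ^ T ≤ 2 * T ^ 2 * (P.card : ℝ) ^ T := by
  rcases P.eq_empty_or_nonempty with hP | hne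
  · rw [hP, Finset.sum_empty]; positivity
  have hpos : (0 : ℝ) < P.card := by exact_mod_cast Finset.card_pos.mpr hne
  have hTR : (1 : ℝ) ≤ T := by exact_mod_cast hT
  obtain ⟨Ω, hΩ⟩ : ∃ Ω, Fintype.piFinset (fun _ : Fin T => P) = Ω := ⟨_, rfl⟩
  have hΩc : (Ω.card : ℝ) = (P.card : ℝ) ^ T := by
    rw [← hΩ, Fintype.card_piFinset]
    simp
  have hΩm : ∀ t, t ∈ Ω ↔ ∀ a, t a ∈ P := by
    intro t
    rw [← hΩ, Fintype.mem_piFinset]
  have h1 : ∀ v ∈ P, ((P.filter (fun x => bl R v x)).card : ℝ) ^ T =
      ∑ t ∈ Ω, if (∀ a, bl R v (t a)) then (1 : ℝ) else 0 := by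
    intro v _
    have e1 : Ω.filter (fun t => ∀ a, bl R v (t a)) =
        Fintype.piFinset (fun _ : Fin T => P.filter (fun x => bl R v x)) := by
      ext t
      rw [mem_filter, hΩm, Fintype.mem_piFinset]
      simp only [mem_filter]
      exact ⟨fun h a => ⟨h.1 a, h.2 a⟩, fun h => ⟨fun a => (h a).1, fun a => (h a).2⟩⟩
    have e2 : ∑ t ∈ Ω, (if (∀ a, bl R v (t a)) then (1 : ℝ) else 0) =
        ((Ω.filter (fun t => ∀ a, bl R v (t a))).card : ℝ) := by
      rw [Finset.card_filter]; push_cast; rfl
    rw [e2, e1, Fintype.card_piFinset]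
    simp
  rw [Finset.sum_congr rfl h1, Finset.sum_comm]
  have h2 : ∀ t ∈ Ω, ∑ v ∈ P, (if (∀ a, bl R v (t a)) then (1 : ℝ) else 0) ≤
      T + P.card * (if Function.Injective t then 0 else 1) := by
    intro t ht
    rw [hΩm] at ht
    have e2 : ∑ v ∈ P, (if (∀ a, bl R v (t a)) then (1 : ℝ) else 0) =
        ((P.filter (fun v => ∀ a, bl R v (t a))).card : ℝ) := by
      rw [Finset.card_filter]; push_cast; rfl
    rw [e2]
    by_cases hinj : Function.Injective t
    · rw [if_pos hinj, mul_zero, add_zero]
      by_contra hcon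
      push Not at hcon
      have h3 : T ≤ (P.filter (fun v => ∀ a, bl R v (t a))).card := by
        have : T < (P.filter (fun v => ∀ a, bl R v (t a))).card := by exact_mod_cast hcon
        exact this.le
      obtain ⟨Y, hY1, hY2⟩ := Finset.exists_subset_card_eq h3
      apply h
      refine ⟨univ.image t, Y, ?_, hY1.trans (Finset.filter_subset _ _), ?_, hY2, ?_⟩
      · intro x hx
        rw [mem_image] at hx
        obtain ⟨a, _, rfl⟩ := hx
        exact ht a
      · rw [Finset.card_image_of_injective _ hinj]; simp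
      · intro x hx y hy
        rw [mem_image] at hx
        obtain ⟨a, _, rfl⟩ := hx
        have := hY1 hy
        rw [mem_filter] at this
        exact bl_symm (this.2 a)
    · rw [if_neg hinj, mul_one]
      have : ((P.filter (fun v => ∀ a, bl R v (t a))).card : ℝ) ≤ P.card := by
        exact_mod_cast Finset.card_filter_le _ _
      linarith
  refine (Finset.sum_le_sum h2).trans ?_
  rw [Finset.sum_add_distrib, Finset.sum_const, nsmul_eq_mul, ← Finset.mul_sum]
  have h4 : ∑ t ∈ Ω, (if Function.Injective t then (0 : ℝ) else 1) ≤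
      ∑ a : Fin T, ∑ b : Fin T, (1 / (P.card : ℝ)) * Ω.card := by
    have h5 : ∀ a b : Fin T, ((Ω.filter (fun t => a ≠ b ∧ t a = t b)).card : ℝ) ≤
        (1 / (P.card : ℝ)) * Ω.card := by
      intro a b
      by_cases hab : a = b
      · have : Ω.filter (fun t => a ≠ b ∧ t a = t b) = ∅ := by
          rw [Finset.filter_eq_empty_iff]
          intro t _ h6
          exact h6.1 hab
        rw [this]
        simp only [Finset.card_empty, Nat.cast_zero]
        positivity
      · rw [← hΩ]
        refine card_bad_le (fun _ : Fin T => P) b (fun t => a ≠ b ∧ t a = t b) _ ?_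
        intro x _
        have e3 : (P.filter (fun z => a ≠ b ∧ (Function.update x b z) a =
            (Function.update x b z) b)).card ≤ 1 := by
          rw [Finset.card_le_one]
          intro z hz z' hz'
          rw [mem_filter, Function.update_self, Function.update_of_ne hab] at hz hz'
          rw [← hz.2.2, ← hz'.2.2]
        have e4 : (1 / (P.card : ℝ)) * P.card = 1 := by field_simp
        rw [e4]
        exact_mod_cast e3
    calc ∑ t ∈ Ω, (if Function.Injective t then (0 : ℝ) else 1)
        ≤ ∑ t ∈ Ω, ∑ a : Fin T, ∑ b : Fin T, (if a ≠ b ∧ t a = t b then (1 : ℝ) else 0) := by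
          apply Finset.sum_le_sum
          intro t _
          by_cases hinj : Function.Injective t
          · rw [if_pos hinj]
            apply Finset.sum_nonneg; intro a _
            apply Finset.sum_nonneg; intro b _
            split_ifs <;> norm_num
          · rw [if_neg hinj]
            rw [Function.Injective] at hinj
            push Not at hinj
            obtain ⟨a, b, hab, hne'⟩ := hinj
            have e5 : (1 : ℝ) ≤ ∑ b' : Fin T, (if a ≠ b' ∧ t a = t b' then (1 : ℝ) else 0) := by
              refine le_trans ?_ (Finset.single_le_sum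
                (f := fun b' => if a ≠ b' ∧ t a = t b' then (1 : ℝ) else 0) ?_ (mem_univ b))
              · simp [hne', hab]
              · intro b' _; split_ifs <;> norm_num
            refine e5.trans (Finset.single_le_sum
                (f := fun a' => ∑ b' : Fin T, if a' ≠ b' ∧ t a' = t b' then (1 : ℝ) else 0) ?_
                  (mem_univ a))
            intro a' _
            apply Finset.sum_nonneg; intro b' _
            split_ifs <;> norm_num
      _ = ∑ a : Fin T, ∑ b : Fin T, ((Ω.filter (fun t => a ≠ b ∧ t a = t b)).card : ℝ) := by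
          rw [Finset.sum_comm]
          apply Finset.sum_congr rfl
          intro a _
          rw [Finset.sum_comm]
          apply Finset.sum_congr rfl
          intro b _
          rw [Finset.card_filter]
          push_cast
          rfl
      _ ≤ _ := by
          apply Finset.sum_le_sum; intro a _
          apply Finset.sum_le_sum; intro b _
          exact h5 a b
  have h6 : ∑ _a : Fin T, ∑ _b : Fin T, (1 / (P.card : ℝ)) * Ω.card =
      T * T * ((1 / (P.card : ℝ)) * Ω.card) := by
    simp only [Finset.sum_const, Finset.card_univ, Fintype.card_fin, nsmul_eq_mul]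
    ring
  rw [h6] at h4
  have h7 : (P.card : ℝ) * ∑ t ∈ Ω, (if Function.Injective t then (0 : ℝ) else 1) ≤
      P.card * (T * T * ((1 / (P.card : ℝ)) * Ω.card)) :=
    mul_le_mul_of_nonneg_left h4 hpos.le
  have h8 : (P.card : ℝ) * (T * T * ((1 / (P.card : ℝ)) * Ω.card)) = T * T * Ω.card := by
    field_simp
  rw [h8] at h7
  rw [hΩc] at h7 ⊢
  have h9 : (0 : ℝ) < (P.card : ℝ) ^ T := by positivity
  have h10 : (T : ℝ) * (P.card : ℝ) ^ T ≤ T * T * (P.card : ℝ) ^ T := by
    apply mul_le_mul_of_nonneg_right _ h9.le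
    nlinarith
  rw [mul_comm ((P.card : ℝ) ^ T) (T : ℝ)]
  calc (T : ℝ) * (P.card : ℝ) ^ T + (P.card : ℝ) * ∑ t ∈ Ω,
        (if Function.Injective t then (0 : ℝ) else 1)
      ≤ T * T * (P.card : ℝ) ^ T + T * T * (P.card : ℝ) ^ T := add_le_add h10 h7
    _ = 2 * T ^ 2 * (P.card : ℝ) ^ T := by ring

/-- Combinatorial structure in the extremal case. -/
lemma extremal_struct {V : Type} [Fintype V] (R : SimpleGraph V) (r s T n : ℕ) (hr : 1 ≤ r)
    (hsT : s ≤ T) (hn : 1 ≤ n) (hV : Fintype.card V = r * (n - 1) + s)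
    (hbf : BlueFree R r s T)
    (τ κ e2 e3 : ℝ) (C : Fin r → Finset V) (hdisj : ∀ i j, i ≠ j → Disjoint (C i) (C j))
    (hlow : ∀ i, (1 - e2) * n ≤ (C i).card) (hup : ∀ i, ((C i).card : ℝ) ≤ (1 + e2) * n)
    (hsp : ∀ i j, i ≠ j → eR R (C i) (C j) ≤ κ ^ 2 * ((C i).card * (C j).card))
    (hκ : 0 < κ) (hκτ : 2 * κ < τ) (he2 : e2 ≤ 1) (hrκ : r * κ ≤ 1)
    (h3 : (r + 1) * T * (τ * n) + 3 * T ≤ (1 - r * κ) * ((1 - e2) * n))
    (h4 : r * n + s - r * ((1 - r * κ) * ((1 - e2) * n)) ≤ e3 * n) :
    ∃ (A P B : Finset V) (f : ℕ), P ⊆ B ∧ (B \ P).card ≤ f ∧ (f : ℝ) ≤ e3 * n ∧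
      r * (n - 1) + 1 + f ≤ r * B.card ∧ (A \ P).card ≤ s ∧
      (1 - r * κ) * ((1 - e2) * n) ≤ A.card ∧ (A.card : ℝ) ≤ 2 * n ∧
      (∀ v ∈ B, τ * n ≤ ((A.filter (fun u => R.Adj v u)).card : ℝ)) ∧
      (¬ ∃ X Y : Finset V, X ⊆ P ∧ Y ⊆ P ∧ X.card = T ∧ Y.card = T ∧
        ∀ x ∈ X, ∀ y ∈ Y, bl R x y) := by
  have hnR : (1 : ℝ) ≤ n := by exact_mod_cast hn
  have hrR : (1 : ℝ) ≤ r := by exact_mod_cast hr
  have hτ0 : 0 < τ := by linarith
  obtain ⟨A, hA⟩ : ∃ A : Fin r → Finset V, core R C κ = A := ⟨_, rfl⟩
  have hAC : ∀ i, A i ⊆ C i := by intro i; rw [← hA]; exact core_subset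
  have hAlow : ∀ i, (1 - r * κ) * ((1 - e2) * n) ≤ (A i).card := by
    intro i
    have h1 := core_card R C κ hκ i (fun j hj => hsp j i hj)
    rw [Fintype.card_fin, hA] at h1
    have h2 : (1 - r * κ) * ((1 - e2) * n) ≤ (1 - r * κ) * (C i).card :=
      mul_le_mul_of_nonneg_left (hlow i) (by linarith)
    linarith
  have hAup : ∀ i, ((A i).card : ℝ) ≤ 2 * n := by
    intro i
    have h1 : ((A i).card : ℝ) ≤ (C i).card := by exact_mod_cast Finset.card_le_card (hAC i)
    have h2 := hup i
    nlinarith
  have hAdisj : ∀ i j, i ≠ j → Disjoint (A i) (A j) := fun i j hij =>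
    (hdisj i j hij).mono (hAC i) (hAC j)
  have hAred : ∀ i j, i ≠ j → ∀ v ∈ A j,
      (((A i).filter (fun u => R.Adj v u)).card : ℝ) < τ * n := by
    intro i j hij v hv
    rw [← hA, mem_core] at hv
    have h1 := hv.2 i hij
    have h2 : (((A i).filter (fun u => R.Adj v u)).card : ℝ) ≤
        ((C i).filter (fun u => R.Adj v u)).card := by
      exact_mod_cast Finset.card_le_card (Finset.filter_subset_filter _ (hAC i))
    have h3 := hup i
    have h5 : κ * (C i).card ≤ κ * (2 * n) := by
      apply mul_le_mul_of_nonneg_left _ hκ.le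
      nlinarith
    nlinarith
  obtain ⟨rs, hrs⟩ : ∃ rs : V → Finset (Fin r), ∀ v i, i ∈ rs v ↔
      τ * n ≤ (((A i).filter (fun u => R.Adj v u)).card : ℝ) :=
    ⟨fun v => univ.filter (fun i => τ * n ≤ (((A i).filter (fun u => R.Adj v u)).card : ℝ)),
      fun v i => by simp⟩
  have hrsA : ∀ j, ∀ v ∈ A j, ∀ i ∈ rs v, i = j := by
    intro j v hv i hi
    by_contra hij
    rw [hrs] at hi
    have := hAred i j hij v hv
    linarith
  -- S0
  have hS0 : (univ.filter (fun v => rs v = ∅)).card + 1 ≤ s := by
    by_contra hcon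
    have hcon' : s ≤ (univ.filter (fun v => rs v = ∅)).card := by omega
    obtain ⟨X0, hX1, hX2⟩ := Finset.exists_subset_card_eq hcon'
    obtain ⟨Y, hY1, hY2, hY3, hY4⟩ := completion R A T X0 (fun _ => τ * n) hAdisj
      (fun _ => by positivity)
      (by
        intro i x hx
        have h5 := hX1 hx
        rw [mem_filter] at h5
        have h6 : i ∉ rs x := by rw [h5.2]; exact Finset.notMem_empty _
        rw [hrs] at h6
        push Not at h6
        exact h6.le)
      (fun i j hij v hv => (hAred i j hij v hv).le)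
      (by
        intro i
        refine le_trans ?_ (hAlow i)
        refine le_trans ?_ h3
        rw [hX2, Fintype.card_fin]
        have hsT' : (s : ℝ) ≤ T := by exact_mod_cast hsT
        have : (s : ℝ) * (τ * n) ≤ T * (τ * n) := mul_le_mul_of_nonneg_right hsT' (by positivity)
        nlinarith)
    exact hbf.no_family' (ι := Fin r) (by simp) X0 hX2.ge Y (fun i => (hY2 i).ge) hY3 hY4
  -- no K_{T,T}
  have hKTT : ∀ i, ¬ ∃ X Y : Finset V, X ⊆ univ.filter (fun v => rs v = {i}) ∧
      Y ⊆ univ.filter (fun v => rs v = {i}) ∧ X.card = T ∧ Y.card = T ∧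
        ∀ x ∈ X, ∀ y ∈ Y, bl R x y := by
    rintro i ⟨X, Y, hX1, hY1, hX2, hY2, hXY⟩
    obtain ⟨Z, hZ1, hZ2, hZ3, hZ4⟩ := completion R (fun j : {j : Fin r // j ≠ i} => A j.1) T
      (X ∪ Y) (fun _ => τ * n) (fun j k hjk => hAdisj _ _ (fun h => hjk (Subtype.ext h)))
      (fun _ => by positivity)
      (by
        intro j x hx
        have h5 : rs x = {i} := by
          rw [mem_union] at hx
          rcases hx with hx | hx
          · exact (mem_filter.mp (hX1 hx)).2
          · exact (mem_filter.mp (hY1 hx)).2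
        have h6 : j.1 ∉ rs x := by rw [h5, mem_singleton]; exact j.2
        rw [hrs] at h6
        push Not at h6
        exact h6.le)
      (fun j k hjk v hv => (hAred j.1 k.1 (fun h => hjk (Subtype.ext h)) v hv).le)
      (by
        intro j
        refine le_trans ?_ (hAlow j.1)
        refine le_trans ?_ h3
        have h5 : ((X ∪ Y).card : ℝ) ≤ 2 * T := by
          have := Finset.card_union_le X Y
          rw [hX2, hY2] at this
          have h6 : ((X ∪ Y).card : ℝ) ≤ ((T + T : ℕ) : ℝ) := by exact_mod_cast this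
          push_cast at h6
          linarith
        have h6 : (Fintype.card {j : Fin r // j ≠ i} : ℝ) = r - 1 := by
          have : Fintype.card {j : Fin r // j ≠ i} = r - 1 := by
            rw [Fintype.card_subtype_compl]
            simp
          rw [this, Nat.cast_sub hr, Nat.cast_one]
        rw [h6]
        have h7 : (((X ∪ Y).card : ℝ) + (r - 1) * T) * (τ * n) ≤
            (2 * T + (r - 1) * T) * (τ * n) :=
          mul_le_mul_of_nonneg_right (by linarith) (by positivity)
        nlinarith)
    refine hbf.no_family hsT (ι := Bool ⊕ {j : Fin r // j ≠ i}) ?_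
      (Sum.elim (fun b => if b then X else Y) Z) ?_ ?_
    · rw [Fintype.card_sum, Fintype.card_subtype_compl]
      simp
      omega
    · rintro (b | j)
      · cases b
        · simp [hY2]
        · simp [hX2]
      · simp [hZ2 j]
    · have hX0 : ∀ b : Bool, ∀ x ∈ (if b then X else Y), x ∈ X ∪ Y := by
        intro b x hx
        cases b
        · simp only [Bool.false_eq_true, if_false] at hx
          exact mem_union_right _ hx
        · simp only [if_true] at hx
          exact mem_union_left _ hx
      rintro (b | j) (b' | j') hne x hx y hy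
      · simp only [Sum.elim_inl] at hx hy
        cases b
        · cases b'
          · exact absurd rfl hne
          · simp only [Bool.false_eq_true, if_false, if_true] at hx hy
            exact bl_symm (hXY y hy x hx)
        · cases b'
          · simp only [Bool.false_eq_true, if_false, if_true] at hx hy
            exact hXY x hx y hy
          · exact absurd rfl hne
      · simp only [Sum.elim_inl, Sum.elim_inr] at hx hy
        exact hZ3 j' x (hX0 b x hx) y hy
      · simp only [Sum.elim_inl, Sum.elim_inr] at hx hy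
        exact bl_symm (hZ3 j y (hX0 b' y hy) x hx)
      · simp only [Sum.elim_inr] at hx hy
        exact hZ4 j j' (fun h => hne (by rw [h])) x hx y hy
  -- F
  obtain ⟨F, hF⟩ : ∃ F : Finset V, univ.filter (fun v => 2 ≤ (rs v).card) = F := ⟨_, rfl⟩
  have hFm : ∀ v, v ∈ F ↔ 2 ≤ (rs v).card := by intro v; rw [← hF]; simp
  have hFc : (F.card : ℝ) ≤ e3 * n := by
    have h5 : Disjoint F (univ.biUnion A) := by
      rw [Finset.disjoint_left]
      intro v hv hv'
      rw [hFm] at hv
      rw [mem_biUnion] at hv'
      obtain ⟨j, _, hj⟩ := hv'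
      have h6 : rs v ⊆ {j} := by
        intro i hi
        rw [mem_singleton]
        exact hrsA j v hj i hi
      have := Finset.card_le_card h6
      rw [Finset.card_singleton] at this
      omega
    have h6 : F.card + (univ.biUnion A).card ≤ Fintype.card V := by
      rw [← Finset.card_union_of_disjoint h5]
      exact Finset.card_le_univ _
    have h7 : (univ.biUnion A).card = ∑ i, (A i).card := by
      rw [Finset.card_biUnion]
      intro i _ j _ hij
      exact hAdisj i j hij
    have h8 : (r : ℝ) * ((1 - r * κ) * ((1 - e2) * n)) ≤ ((univ.biUnion A).card : ℝ) := by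
      rw [h7]
      push_cast
      calc (r : ℝ) * ((1 - r * κ) * ((1 - e2) * n)) =
          ∑ _i : Fin r, (1 - r * κ) * ((1 - e2) * (n : ℝ)) := by
            rw [Finset.sum_const, nsmul_eq_mul, Finset.card_univ, Fintype.card_fin]
        _ ≤ _ := Finset.sum_le_sum (fun i _ => hAlow i)
    have h9 : (F.card : ℝ) + (univ.biUnion A).card ≤ r * (n - 1) + s := by
      have : ((F.card + (univ.biUnion A).card : ℕ) : ℝ) ≤ ((r * (n - 1) + s : ℕ) : ℝ) := by
        rw [← hV]; exact_mod_cast h6
      push_cast [Nat.cast_sub hn] at this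
      exact this
    nlinarith
  -- counting
  have hcount : r * (n - 1) + 1 + F.card ≤
      ∑ i, (univ.filter (fun v => i ∈ rs v)).card := by
    have h5 : ∑ i, (univ.filter (fun v => i ∈ rs v)).card = ∑ v, (rs v).card := by
      simp only [Finset.card_filter]
      rw [Finset.sum_comm]
      apply Finset.sum_congr rfl
      intro v _
      rw [← Finset.card_filter]
      congr 1
      ext i
      simp
    have h6 : Fintype.card V + F.card ≤
        ∑ v, (rs v).card + (univ.filter (fun v => rs v = ∅)).card := by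
      rw [← hF, Finset.card_filter, Finset.card_filter, ← Finset.card_univ (α := V),
        Finset.card_eq_sum_ones, ← Finset.sum_add_distrib, ← Finset.sum_add_distrib]
      apply Finset.sum_le_sum
      intro v _
      by_cases h7 : rs v = ∅
      · rw [if_pos h7, h7]; simp
      · rw [if_neg h7]
        have : 0 < (rs v).card := Finset.card_pos.mpr (Finset.nonempty_iff_ne_empty.mpr h7)
        split_ifs <;> omega
    rw [h5]
    omega
  have hex : ∃ i, r * (n - 1) + 1 + F.card ≤ r * (univ.filter (fun v => i ∈ rs v)).card := by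
    by_contra hcon
    push Not at hcon
    have h5 : ∑ i : Fin r, r * (univ.filter (fun v => i ∈ rs v)).card ≤
        ∑ _i : Fin r, (r * (n - 1) + F.card) := by
      apply Finset.sum_le_sum
      intro i _
      have := hcon i
      omega
    rw [← Finset.mul_sum, Finset.sum_const, Finset.card_univ, Fintype.card_fin, smul_eq_mul] at h5
    have h6 := Nat.le_of_mul_le_mul_left h5 (by omega)
    omega
  obtain ⟨i, hi⟩ := hex
  refine ⟨A i, univ.filter (fun v => rs v = {i}), univ.filter (fun v => i ∈ rs v), F.card,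
    ?_, ?_, hFc, hi, ?_, hAlow i, hAup i, ?_, hKTT i⟩
  · intro v hv
    rw [mem_filter] at hv ⊢
    refine ⟨mem_univ _, ?_⟩
    rw [hv.2]; exact mem_singleton_self i
  · apply Finset.card_le_card
    intro v hv
    rw [mem_sdiff, mem_filter, mem_filter] at hv
    rw [hFm]
    by_contra hcon
    apply hv.2
    refine ⟨mem_univ _, ?_⟩
    rw [Finset.eq_singleton_iff_unique_mem]
    refine ⟨hv.1.2, fun j hj => ?_⟩
    have h5 : (rs v).card ≤ 1 := by omega
    rw [Finset.card_le_one] at h5
    exact h5 j hj i hv.1.2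
  · refine le_trans ?_ (by omega : (univ.filter (fun v => rs v = ∅)).card ≤ s)
    apply Finset.card_le_card
    intro v hv
    rw [mem_sdiff, mem_filter] at hv
    rw [mem_filter]
    refine ⟨mem_univ _, ?_⟩
    rw [Finset.eq_empty_iff_forall_notMem]
    intro j hj
    apply hv.2
    refine ⟨mem_univ _, ?_⟩
    rw [Finset.eq_singleton_iff_unique_mem]
    have h6 := hrsA i v hv.1 j hj
    subst h6
    exact ⟨hj, fun k hk => hrsA j v hv.1 k hk⟩
  · intro v hv
    rw [mem_filter, hrs] at hv
    exact hv.2

end Pool.Agent.Helper3.RG
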