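import Mathlib
import Pool.Agent.Helper3.RGBlocks

set_option autoImplicit false

open Finset Classical

namespace Pool.Agent.Helper3.RG

section Candidates

variable {V : Type*}

lemma card_candidates {α : Type*} (R : SimpleGraph V) (tv : Finset V) (ψ : α → V)
    (Y : Finset α) (Us : Finset V) (ρ : ℝ) (K : ℕ)
    (hY : Y.card ≤ K) (hρ0 : 0 ≤ ρ)
    (hρ : ∀ y ∈ Y, ((tv.filter (fun x => ¬ R.Adj (ψ y) x)).card : ℝ) ≤ ρ) :
    ∃ C ⊆ tv, (∀ x ∈ C, x ∉ Us ∧ ∀ y ∈ Y, R.Adj (ψ y) x) ∧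
      (tv.card : ℝ) ≤ C.card + Us.card + K * ρ := by
  refine ⟨tv.filter (fun x => x ∉ Us ∧ ∀ y ∈ Y, R.Adj (ψ y) x), Finset.filter_subset _ _,
    fun x hx => (mem_filter.mp hx).2, ?_⟩
  have hsub : tv ⊆ tv.filter (fun x => x ∉ Us ∧ ∀ y ∈ Y, R.Adj (ψ y) x) ∪ (Us ∪
      Y.biUnion (fun y => tv.filter (fun x => ¬ R.Adj (ψ y) x))) := by
    intro x hx
    rw [mem_union, mem_filter, mem_union, mem_biUnion]
    by_cases h : x ∈ Us
    · exact Or.inr (Or.inl h)
    · by_cases h2 : ∀ y ∈ Y, R.Adj (ψ y) x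
      · exact Or.inl ⟨hx, h, h2⟩
      · push Not at h2
        obtain ⟨y, hy, hya⟩ := h2
        exact Or.inr (Or.inr ⟨y, hy, mem_filter.mpr ⟨hx, hya⟩⟩)
  have h1 := (Finset.card_le_card hsub).trans (Finset.card_union_le _ _)
  have h1' := Finset.card_union_le Us (Y.biUnion (fun y => tv.filter (fun x => ¬ R.Adj (ψ y) x)))
  have h2 : (Y.biUnion (fun y => tv.filter (fun x => ¬ R.Adj (ψ y) x))).card ≤
      ∑ y ∈ Y, (tv.filter (fun x => ¬ R.Adj (ψ y) x)).card := Finset.card_biUnion_le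
  have h4 : ∑ y ∈ Y, ((tv.filter (fun x => ¬ R.Adj (ψ y) x)).card : ℝ) ≤ Y.card * ρ := by
    have := Finset.sum_le_sum hρ
    rw [Finset.sum_const, nsmul_eq_mul] at this
    exact this
  have h5 : (Y.card : ℝ) * ρ ≤ K * ρ := by
    apply mul_le_mul_of_nonneg_right _ hρ0
    exact_mod_cast hY
  have h6 : (tv.card : ℝ) ≤ (tv.filter (fun x => x ∉ Us ∧ ∀ y ∈ Y, R.Adj (ψ y) x)).card +
      (Us.card + ∑ y ∈ Y, ((tv.filter (fun x => ¬ R.Adj (ψ y) x)).card : ℝ)) := by
    exact_mod_cast h1.trans (by omega)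
  linarith

end Candidates

section Potential

variable {V : Type*} {n : ℕ}

/-- Embedding `M` greedily into `Ast` while keeping a potential function small. -/
theorem potential_embed (G : SimpleGraph (Fin n)) (R : SimpleGraph V) (d : ℕ)
    (hbk : ∀ v, (bk G v).card ≤ d) (M : Finset (Fin n)) (Ast : Finset V)
    (Psi : ℕ → (Fin n → V) → ℝ) (X s0 : ℝ) (hX : 0 ≤ X) (hs0 : 0 < s0)
    (hnon : ∀ x ∈ Ast, ((Ast.filter (fun z => ¬ R.Adj x z)).card : ℝ) ≤ X)
    (hsz : d * X + M.card + s0 ≤ Ast.card)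
    (hstep : ∀ (t : ℕ) (ht : t < n) (φ : Fin n → V), (⟨t, ht⟩ : Fin n) ∈ M →
      ∀ C ⊆ Ast, C.Nonempty → s0 ≤ C.card →
      ∃ x ∈ C, Psi (t + 1) (Function.update φ ⟨t, ht⟩ x) ≤ Psi t φ)
    (hskip : ∀ (t : ℕ) (ht : t < n) (φ : Fin n → V), (⟨t, ht⟩ : Fin n) ∉ M →
      Psi (t + 1) φ ≤ Psi t φ)
    (φi : Fin n → V) :
    ∃ φ : Fin n → V, (∀ u ∈ M, ∀ v ∈ M, φ u = φ v → u = v) ∧
      (∀ u ∈ M, ∀ v ∈ M, G.Adj u v → R.Adj (φ u) (φ v)) ∧ (∀ v ∈ M, φ v ∈ Ast) ∧
      Psi n φ ≤ Psi 0 φi := by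
  have key : ∀ t : ℕ, t ≤ n → ∃ φ : Fin n → V, 
      (∀ u ∈ M, ∀ v ∈ M, (u : ℕ) < t → (v : ℕ) < t → φ u = φ v → u = v) ∧
      (∀ u ∈ M, ∀ v ∈ M, (u : ℕ) < t → (v : ℕ) < t → G.Adj u v → R.Adj (φ u) (φ v)) ∧
      (∀ v ∈ M, (v : ℕ) < t → φ v ∈ Ast) ∧ Psi t φ ≤ Psi 0 φi := by
    intro t
    induction t with
    | zero =>
      intro _
      exact ⟨φi, fun u _ v _ h => absurd h (by omega), fun u _ v _ h => absurd h (by omega),
        fun v _ h => absurd h (by omega), le_rfl⟩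
    | succ t ih =>
      intro ht
      have ht' : t < n := by omega
      obtain ⟨φ, h1, h2, h3, h4⟩ := ih (by omega)
      by_cases hτ : (⟨t, ht'⟩ : Fin n) ∈ M
      · set Y : Finset (Fin n) := M.filter (fun y : Fin n => (y : ℕ) < t ∧ G.Adj ⟨t, ht'⟩ y) with hY
        set Us : Finset V := (M.filter (fun y : Fin n => (y : ℕ) < t)).image φ with hUs
        have hYc : Y.card ≤ d := by
          refine le_trans (Finset.card_le_card ?_) (hbk ⟨t, ht'⟩)
          intro y hy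
          rw [hY, mem_filter] at hy
          unfold bk
          rw [mem_filter]
          exact ⟨mem_univ _, hy.2.1, hy.2.2⟩
        have hUc : (Us.card : ℝ) ≤ M.card := by
          have : Us.card ≤ M.card := Finset.card_image_le.trans
            (Finset.card_le_card (Finset.filter_subset _ _))
          exact_mod_cast this
        obtain ⟨C, hCA, hC, hcc⟩ := card_candidates R Ast φ Y Us X d hYc hX (by
          intro y hy
          rw [hY, mem_filter] at hy
          exact hnon _ (h3 y hy.1 hy.2.1))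
        have hCs : s0 ≤ C.card := by linarith
        have hCne : C.Nonempty := by
          rw [← Finset.card_pos]
          have : (0 : ℝ) < C.card := by linarith
          exact_mod_cast this
        obtain ⟨x, hx, hPsi⟩ := hstep t ht' φ hτ C hCA hCne hCs
        have hx1 := hCA hx
        obtain ⟨hx2, hx3⟩ := hC x hx
        refine ⟨Function.update φ ⟨t, ht'⟩ x, ?_, ?_, ?_, hPsi.trans h4⟩
        · intro u hu v hv hut hvt huv
          by_cases e1 : u = ⟨t, ht'⟩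
          · by_cases e2 : v = ⟨t, ht'⟩
            · rw [e1, e2]
            · exfalso
              rw [e1, Function.update_self, Function.update_of_ne e2] at huv
              apply hx2
              rw [hUs, mem_image]
              have : (v : ℕ) ≠ t := fun h' => e2 (Fin.ext h')
              exact ⟨v, mem_filter.mpr ⟨hv, by omega⟩, huv.symm⟩
          · have e1' : (u : ℕ) ≠ t := fun h' => e1 (Fin.ext h')
            by_cases e2 : v = ⟨t, ht'⟩
            · exfalso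
              rw [e2, Function.update_self, Function.update_of_ne e1] at huv
              apply hx2
              rw [hUs, mem_image]
              exact ⟨u, mem_filter.mpr ⟨hu, by omega⟩, huv⟩
            · have e2' : (v : ℕ) ≠ t := fun h' => e2 (Fin.ext h')
              rw [Function.update_of_ne e1, Function.update_of_ne e2] at huv
              exact h1 u hu v hv (by omega) (by omega) huv
        · intro u hu v hv hut hvt huv
          by_cases e1 : u = ⟨t, ht'⟩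
          · by_cases e2 : v = ⟨t, ht'⟩
            · exfalso; rw [e1, e2] at huv; exact G.loopless.irrefl _ huv
            · rw [e1, Function.update_self, Function.update_of_ne e2]
              have : (v : ℕ) ≠ t := fun h' => e2 (Fin.ext h')
              rw [e1] at huv
              exact (hx3 v (by rw [hY, mem_filter]; exact ⟨hv, by omega, huv⟩)).symm
          · have e1' : (u : ℕ) ≠ t := fun h' => e1 (Fin.ext h')
            by_cases e2 : v = ⟨t, ht'⟩
            · rw [e2, Function.update_self, Function.update_of_ne e1]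
              rw [e2] at huv
              exact hx3 u (by rw [hY, mem_filter]; exact ⟨hu, by omega, huv.symm⟩)
            · have e2' : (v : ℕ) ≠ t := fun h' => e2 (Fin.ext h')
              rw [Function.update_of_ne e1, Function.update_of_ne e2]
              exact h2 u hu v hv (by omega) (by omega) huv
        · intro v hv hvt
          by_cases e2 : v = ⟨t, ht'⟩
          · rw [e2, Function.update_self]; exact hx1
          · have e2' : (v : ℕ) ≠ t := fun h' => e2 (Fin.ext h')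
            rw [Function.update_of_ne e2]
            exact h3 v hv (by omega)
      · have hne : ∀ u ∈ M, (u : ℕ) < t + 1 → (u : ℕ) < t := by
          intro u hu hut
          have : (u : ℕ) ≠ t := fun h' => hτ (by
            have : u = ⟨t, ht'⟩ := Fin.ext h'
            rwa [← this])
          omega
        exact ⟨φ, fun u hu v hv hut hvt => h1 u hu v hv (hne u hu hut) (hne v hv hvt),
          fun u hu v hv hut hvt => h2 u hu v hv (hne u hu hut) (hne v hv hvt),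
          fun v hv hvt => h3 v hv (hne v hv hvt), (hskip t ht' φ hτ).trans h4⟩
  obtain ⟨φ, h1, h2, h3, h4⟩ := key n le_rfl
  exact ⟨φ, fun u hu v hv => h1 u hu v hv u.2 v.2, fun u hu v hv => h2 u hu v hv u.2 v.2,
    fun v hv => h3 v hv v.2, h4⟩

/-! ### The product potential -/

noncomputable def PP (nbs : Fin n → Finset (Fin n)) (χ : Fin n → ℝ) (u : Fin n) : ℝ :=
  ∏ y ∈ nbs u, χ y

noncomputable def QQ (i0 : ℕ) (I : Finset (Fin n)) (nbs : Fin n → Finset (Fin n))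
    (χ : Fin n → ℝ) : ℝ := (i0 : ℝ)⁻¹ * ∑ u ∈ I, PP nbs χ u

noncomputable def FF (h i0 : ℕ) (I : Fin h → Finset (Fin n)) (nbs : Fin n → Finset (Fin n))
    (χ : Fin n → ℝ) : ℝ := ∏ l, (1 - QQ i0 (I l) nbs χ)

lemma PP_congr (nbs : Fin n → Finset (Fin n)) (χ χ' : Fin n → ℝ) (u : Fin n)
    (h : ∀ y ∈ nbs u, χ y = χ' y) : PP nbs χ u = PP nbs χ' u :=
  Finset.prod_congr rfl h

lemma PP_nonneg (nbs : Fin n → Finset (Fin n)) (χ : Fin n → ℝ) (h : ∀ y, 0 ≤ χ y) (u : Fin n) :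
    0 ≤ PP nbs χ u := Finset.prod_nonneg (fun y _ => h y)

lemma PP_le_one (nbs : Fin n → Finset (Fin n)) (χ : Fin n → ℝ) (h : ∀ y, 0 ≤ χ y)
    (h1 : ∀ y, χ y ≤ 1) (u : Fin n) : PP nbs χ u ≤ 1 :=
  Finset.prod_le_one (fun y _ => h y) (fun y _ => h1 y)

lemma QQ_nonneg (i0 : ℕ) (I : Finset (Fin n)) (nbs : Fin n → Finset (Fin n))
    (χ : Fin n → ℝ) (h : ∀ y, 0 ≤ χ y) : 0 ≤ QQ i0 I nbs χ := by
  unfold QQ
  apply mul_nonneg (by positivity)
  exact Finset.sum_nonneg (fun u _ => PP_nonneg nbs χ h u)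

lemma QQ_le_one (i0 : ℕ) (I : Finset (Fin n)) (nbs : Fin n → Finset (Fin n))
    (χ : Fin n → ℝ) (h : ∀ y, 0 ≤ χ y) (h1 : ∀ y, χ y ≤ 1) (hI : I.card = i0) (hi : 0 < i0) :
    QQ i0 I nbs χ ≤ 1 := by
  unfold QQ
  have hi' : (0 : ℝ) < i0 := by exact_mod_cast hi
  rw [inv_mul_le_iff₀ hi', mul_one]
  calc ∑ u ∈ I, PP nbs χ u ≤ ∑ _u ∈ I, (1 : ℝ) :=
        Finset.sum_le_sum (fun u _ => PP_le_one nbs χ h h1 u)
    _ = i0 := by rw [Finset.sum_const, hI]; simp

lemma PP_affine (nbs : Fin n → Finset (Fin n)) (χ : Fin n → ℝ) (hχ : ∀ y, 0 ≤ χ y) (τ u : Fin n) :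
    ∃ a b : ℝ, 0 ≤ b ∧ ∀ s : ℝ, PP nbs (Function.update χ τ s) u = a + b * s := by
  by_cases hτ : τ ∈ nbs u
  · refine ⟨0, ∏ x ∈ nbs u \ {τ}, χ x, Finset.prod_nonneg (fun x _ => hχ x), ?_⟩
    intro s
    unfold PP
    rw [Finset.prod_update_of_mem hτ]
    ring
  · refine ⟨PP nbs χ u, 0, le_rfl, ?_⟩
    intro s
    unfold PP
    rw [Finset.prod_update_of_notMem hτ]
    ring

lemma QQ_affine (i0 : ℕ) (I : Finset (Fin n)) (nbs : Fin n → Finset (Fin n)) (χ : Fin n → ℝ)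
    (hχ : ∀ y, 0 ≤ χ y) (τ : Fin n) :
    ∃ a b : ℝ, 0 ≤ b ∧ ∀ s : ℝ, QQ i0 I nbs (Function.update χ τ s) = a + b * s := by
  choose a b hb hab using fun u => PP_affine nbs χ hχ τ u
  refine ⟨(i0 : ℝ)⁻¹ * ∑ u ∈ I, a u, (i0 : ℝ)⁻¹ * ∑ u ∈ I, b u, ?_, ?_⟩
  · apply mul_nonneg (by positivity)
    exact Finset.sum_nonneg (fun u _ => hb u)
  · intro s
    unfold QQ
    simp_rw [hab]
    rw [Finset.sum_add_distrib, ← Finset.sum_mul]
    ring

lemma QQ_const (i0 : ℕ) (I : Finset (Fin n)) (nbs : Fin n → Finset (Fin n)) (χ : Fin n → ℝ)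
    (τ : Fin n) (hτ : ∀ u ∈ I, τ ∉ nbs u) (s : ℝ) :
    QQ i0 I nbs (Function.update χ τ s) = QQ i0 I nbs χ := by
  unfold QQ
  congr 1
  apply Finset.sum_congr rfl
  intro u hu
  unfold PP
  rw [Finset.prod_update_of_notMem (hτ u hu)]

lemma FF_affine (h i0 : ℕ) (I : Fin h → Finset (Fin n)) (nbs : Fin n → Finset (Fin n))
    (hI : ∀ l, (I l).card = i0) (hi : 0 < i0)
    (hdisj : ∀ l l', l ≠ l' → ∀ u ∈ I l, ∀ v ∈ I l', Disjoint (nbs u) (nbs v))
    (χ : Fin n → ℝ) (hχ : ∀ y, 0 ≤ χ y) (hχ1 : ∀ y, χ y ≤ 1) (τ : Fin n) :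
    ∃ a b : ℝ, 0 ≤ b ∧ ∀ s : ℝ, FF h i0 I nbs (Function.update χ τ s) = a - b * s := by
  by_cases hex : ∃ l0, ∃ u ∈ I l0, τ ∈ nbs u
  · obtain ⟨l0, u0, hu0, hτ0⟩ := hex
    obtain ⟨a, b, hb, hab⟩ := QQ_affine i0 (I l0) nbs χ hχ τ
    set F : ℝ := ∏ l ∈ univ.erase l0, (1 - QQ i0 (I l) nbs χ) with hF
    have hF0 : 0 ≤ F := by
      apply Finset.prod_nonneg
      intro l _
      linarith [QQ_le_one i0 (I l) nbs χ hχ hχ1 (hI l) hi]
    refine ⟨(1 - a) * F, b * F, mul_nonneg hb hF0, ?_⟩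
    intro s
    unfold FF
    rw [← Finset.mul_prod_erase univ _ (mem_univ l0), hab]
    have : ∏ l ∈ univ.erase l0, (1 - QQ i0 (I l) nbs (Function.update χ τ s)) = F := by
      rw [hF]
      apply Finset.prod_congr rfl
      intro l hl
      rw [QQ_const]
      intro u hu hτu
      have := hdisj l l0 (Finset.ne_of_mem_erase hl) u hu u0 hu0
      rw [Finset.disjoint_left] at this
      exact this hτu hτ0
    rw [this]
    ring
  · push Not at hex
    refine ⟨FF h i0 I nbs χ, 0, le_rfl, ?_⟩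
    intro s
    unfold FF
    rw [zero_mul, sub_zero]
    apply Finset.prod_congr rfl
    intro l _
    rw [QQ_const]
    exact hex l

lemma FF_avg (h i0 : ℕ) (I : Fin h → Finset (Fin n)) (nbs : Fin n → Finset (Fin n))
    (hI : ∀ l, (I l).card = i0) (hi : 0 < i0)
    (hdisj : ∀ l l', l ≠ l' → ∀ u ∈ I l, ∀ v ∈ I l', Disjoint (nbs u) (nbs v))
    (χ : Fin n → ℝ) (hχ : ∀ y, 0 ≤ χ y) (hχ1 : ∀ y, χ y ≤ 1) (τ : Fin n)
    {α : Type*} (C : Finset α) (ξ : α → ℝ) (hξ : χ τ * C.card ≤ ∑ x ∈ C, ξ x) :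
    ∑ x ∈ C, FF h i0 I nbs (Function.update χ τ (ξ x)) ≤ C.card * FF h i0 I nbs χ := by
  obtain ⟨a, b, hb, hab⟩ := FF_affine h i0 I nbs hI hi hdisj χ hχ hχ1 τ
  have h1 : FF h i0 I nbs χ = a - b * χ τ := by
    rw [← hab (χ τ), Function.update_eq_self]
  simp_rw [hab]
  rw [h1, Finset.sum_sub_distrib, Finset.sum_const, nsmul_eq_mul, ← Finset.mul_sum]
  nlinarith [mul_le_mul_of_nonneg_left hξ hb]

lemma FF_nonneg (h i0 : ℕ) (I : Fin h → Finset (Fin n)) (nbs : Fin n → Finset (Fin n))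
    (hI : ∀ l, (I l).card = i0) (hi : 0 < i0)
    (χ : Fin n → ℝ) (hχ : ∀ y, 0 ≤ χ y) (hχ1 : ∀ y, χ y ≤ 1) : 0 ≤ FF h i0 I nbs χ := by
  unfold FF
  apply Finset.prod_nonneg
  intro l _
  linarith [QQ_le_one i0 (I l) nbs χ hχ hχ1 (hI l) hi]

/-- Initial value of the potential. -/
lemma FF_init (h i0 : ℕ) (I : Fin h → Finset (Fin n)) (nbs : Fin n → Finset (Fin n))
    (hI : ∀ l, (I l).card = i0) (hi : 0 < i0) (D : ℕ) (hD : ∀ l, ∀ u ∈ I l, (nbs u).card ≤ D)
    (s : ℝ) (hs0 : 0 ≤ s) (hs1 : s ≤ 1) :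
    FF h i0 I nbs (fun _ => s) ≤ (1 - s ^ D) ^ h := by
  have hi' : (0 : ℝ) < i0 := by exact_mod_cast hi
  unfold FF
  calc ∏ l, (1 - QQ i0 (I l) nbs (fun _ => s)) ≤ ∏ _l : Fin h, (1 - s ^ D) := by
        apply Finset.prod_le_prod
        · intro l _
          linarith [QQ_le_one i0 (I l) nbs (fun _ => s) (fun _ => hs0) (fun _ => hs1) (hI l) hi]
        · intro l _
          have : s ^ D ≤ QQ i0 (I l) nbs (fun _ => s) := by
            unfold QQ
            rw [le_inv_mul_iff₀ hi']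
            calc (i0 : ℝ) * s ^ D = ∑ _u ∈ I l, s ^ D := by
                  rw [Finset.sum_const, hI, nsmul_eq_mul]
              _ ≤ ∑ u ∈ I l, PP nbs (fun _ => s) u := by
                  apply Finset.sum_le_sum
                  intro u hu
                  unfold PP
                  rw [Finset.prod_const]
                  exact pow_le_pow_of_le_one hs0 hs1 (hD l u hu)
          linarith
    _ = (1 - s ^ D) ^ h := by simp

/-- Final value of the potential for a bad vertex. -/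
lemma FF_final (h i0 : ℕ) (I : Fin h → Finset (Fin n)) (nbs : Fin n → Finset (Fin n))
    (hi : 0 < i0) (χ : Fin n → ℝ)
    (c : ℝ) (hc0 : 0 ≤ c) (hc : 2 * h * c ≤ i0)
    (hbad : ∀ l, ∑ u ∈ I l, PP nbs χ u ≤ c) :
    1 / 2 ≤ FF h i0 I nbs χ := by
  have hi' : (0 : ℝ) < i0 := by exact_mod_cast hi
  rcases Nat.eq_zero_or_pos h with h0 | h0
  · subst h0
    unfold FF
    simp
    norm_num
  have hh : (1 : ℝ) ≤ h := by exact_mod_cast h0
  have hci : c / i0 ≤ 1 / 2 := by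
    rw [div_le_div_iff₀ hi' (by norm_num)]
    nlinarith
  have h1 : (1 - c / i0) ^ h ≤ FF h i0 I nbs χ := by
    unfold FF
    calc (1 - c / i0) ^ h = ∏ _l : Fin h, (1 - c / i0) := by simp
      _ ≤ ∏ l, (1 - QQ i0 (I l) nbs χ) := by
        apply Finset.prod_le_prod
        · intro l _; linarith
        · intro l _
          have : QQ i0 (I l) nbs χ ≤ c / i0 := by
            unfold QQ
            rw [inv_mul_eq_div]
            exact div_le_div_of_nonneg_right (hbad l) hi'.le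
          linarith
  refine le_trans ?_ h1
  have h2 := one_add_mul_le_pow (a := -(c / i0)) (by linarith) h
  have h3 : (h : ℝ) * (c / i0) ≤ 1 / 2 := by
    rw [← mul_div_assoc, div_le_iff₀ hi']
    linarith
  calc (1 : ℝ) / 2 ≤ 1 + h * -(c / i0) := by linarith
    _ ≤ (1 + -(c / i0)) ^ h := h2
    _ = (1 - c / i0) ^ h := by ring

end Potential

end Pool.Agent.Helper3.RG
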