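import Mathlib
import Pool.Agent.Helper3.RGPot

set_option autoImplicit false

open Finset Classical

namespace Pool.Agent.Helper3.RG

section Span

variable {n d b : ℕ} (g : Guest n d b)

/-- Compatibility of a host vertex `v` with an image `x`. -/
noncomputable def cmp {V : Type*} (R : SimpleGraph V) (v x : V) : ℝ :=
  if v = x ∨ R.Adj v x then 1 else 0

lemma cmp_nonneg {V : Type*} (R : SimpleGraph V) (v x : V) : 0 ≤ cmp R v x := by
  unfold cmp; split_ifs <;> norm_num

lemma cmp_le_one {V : Type*} (R : SimpleGraph V) (v x : V) : cmp R v x ≤ 1 := by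
  unfold cmp; split_ifs <;> norm_num

noncomputable def chi {V : Type*} {n : ℕ} (R : SimpleGraph V) (π : V → ℝ) (v : V) (t : ℕ)
    (φ : Fin n → V) (y : Fin n) : ℝ := if (y : ℕ) < t then cmp R v (φ y) else π v

lemma chi_nonneg {V : Type*} {n : ℕ} (R : SimpleGraph V) (π : V → ℝ) (v : V) (hπ : 0 ≤ π v)
    (t : ℕ) (φ : Fin n → V) (y : Fin n) : 0 ≤ chi R π v t φ y := by
  unfold chi; split_ifs
  · exact cmp_nonneg _ _ _
  · exact hπ

lemma chi_le_one {V : Type*} {n : ℕ} (R : SimpleGraph V) (π : V → ℝ) (v : V) (hπ : π v ≤ 1)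
    (t : ℕ) (φ : Fin n → V) (y : Fin n) : chi R π v t φ y ≤ 1 := by
  unfold chi; split_ifs
  · exact cmp_le_one _ _ _
  · exact hπ

lemma chi_succ {V : Type*} {n : ℕ} (R : SimpleGraph V) (π : V → ℝ) (v : V)
    (t : ℕ) (ht : t < n) (φ : Fin n → V) (x : V) :
    chi R π v (t + 1) (Function.update φ ⟨t, ht⟩ x) =
      Function.update (chi R π v t φ) ⟨t, ht⟩ (cmp R v x) := by
  funext y
  by_cases hy : y = ⟨t, ht⟩
  · subst hy
    rw [Function.update_self]
    unfold chi
    simp
  · have hy' : (y : ℕ) ≠ t := fun h' => hy (Fin.ext h')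
    rw [Function.update_of_ne hy]
    unfold chi
    by_cases h : (y : ℕ) < t
    · rw [if_pos (by omega), if_pos h, Function.update_of_ne hy]
    · rw [if_neg (by omega), if_neg h]

/-- Phase 1 of the spanning lemma. -/
theorem span_phase1 {V : Type} [Nonempty V] (R : SimpleGraph V) (B Ast : Finset V)
    (h i0 : ℕ) (hi : 0 < i0) (X s0 : ℝ) (π : V → ℝ) (hX : 0 ≤ X) (hs0 : 0 < s0)
    (I : Fin h → Finset (Fin n)) (hI : ∀ l, (I l).card = i0)
    (hdeg : ∀ l, ∀ u ∈ I l, (nb g.G u).card ≤ 4 * d)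
    (hdisj : ∀ l l', l ≠ l' → ∀ u ∈ I l, ∀ v ∈ I l', Disjoint (nb g.G u) (nb g.G v))
    (M : Finset (Fin n)) (hM : ∀ l, ∀ u ∈ I l, nb g.G u ⊆ M)
    (hnon : ∀ x ∈ Ast, ((Ast.filter (fun z => ¬ R.Adj x z)).card : ℝ) ≤ X)
    (hsz : d * X + M.card + s0 ≤ Ast.card)
    (hπ0 : ∀ v ∈ B, 0 ≤ π v) (hπ1 : ∀ v ∈ B, π v ≤ 1)
    (hπ : ∀ v ∈ B, ∀ C ⊆ Ast, s0 ≤ C.card → π v * C.card ≤ ∑ x ∈ C, cmp R v x)
    (c : ℝ) (hc0 : 0 ≤ c) (hc : 2 * h * c ≤ i0) (D0 : ℝ)
    (hsum : 2 * ∑ v ∈ B, (1 - π v ^ (4 * d)) ^ h < D0 + 1) :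
    ∃ φ : Fin n → V, (∀ u ∈ M, ∀ v ∈ M, φ u = φ v → u = v) ∧
      (∀ u ∈ M, ∀ v ∈ M, g.G.Adj u v → R.Adj (φ u) (φ v)) ∧ (∀ v ∈ M, φ v ∈ Ast) ∧
      ((B.filter (fun v => ∀ l, ∑ u ∈ I l, PP (nb g.G) (fun y => cmp R v (φ y)) u ≤ c)).card : ℝ)
        < D0 + 1 := by
  set Psi : ℕ → (Fin n → V) → ℝ := fun t φ =>
    ∑ v ∈ B, FF h i0 I (nb g.G) (chi R π v t φ) with hPsi
  obtain ⟨v0⟩ := ‹Nonempty V›
  obtain ⟨φ, h1, h2, h3, h4⟩ := potential_embed g.G R d g.hbk M Ast Psi X s0 hX hs0 hnon hsz
    (by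
      intro t ht φ hτ C hC hCne hCs
      apply Finset.exists_le_of_sum_le hCne
      rw [Finset.sum_const, nsmul_eq_mul, hPsi]
      dsimp only
      rw [Finset.sum_comm, Finset.mul_sum]
      apply Finset.sum_le_sum
      intro v hv
      have e1 : ∀ x ∈ C, FF h i0 I (nb g.G) (chi R π v (t + 1) (Function.update φ ⟨t, ht⟩ x)) =
          FF h i0 I (nb g.G) (Function.update (chi R π v t φ) ⟨t, ht⟩ (cmp R v x)) := by
        intro x _
        rw [chi_succ]
      rw [Finset.sum_congr rfl e1]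
      apply FF_avg h i0 I (nb g.G) hI hi hdisj _ (chi_nonneg R π v (hπ0 v hv) t φ)
        (chi_le_one R π v (hπ1 v hv) t φ)
      have e2 : chi R π v t φ ⟨t, ht⟩ = π v := by
        unfold chi; simp
      rw [e2]
      exact hπ v hv C hC hCs)
    (by
      intro t ht φ hτ
      rw [hPsi]
      dsimp only
      apply le_of_eq
      apply Finset.sum_congr rfl
      intro v _
      unfold FF
      apply Finset.prod_congr rfl
      intro l _
      congr 1
      unfold QQ
      congr 1
      apply Finset.sum_congr rfl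
      intro u hu
      apply PP_congr
      intro y hy
      have hyM := hM l u hu hy
      have hyt : (y : ℕ) ≠ t := by
        intro h'
        apply hτ
        have : y = ⟨t, ht⟩ := Fin.ext h'
        rwa [← this]
      unfold chi
      by_cases h5 : (y : ℕ) < t
      · rw [if_pos (by omega), if_pos h5]
      · rw [if_neg (by omega), if_neg h5])
    (fun _ => v0)
  refine ⟨φ, h1, h2, h3, ?_⟩
  -- initial value
  have hinit : Psi 0 (fun _ => v0) ≤ ∑ v ∈ B, (1 - π v ^ (4 * d)) ^ h := by
    rw [hPsi]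
    dsimp only
    apply Finset.sum_le_sum
    intro v hv
    have e1 : chi R π v 0 (fun _ : Fin n => v0) = fun _ => π v := by
      funext y; unfold chi; simp
    rw [e1]
    exact FF_init h i0 I (nb g.G) hI hi (4 * d) hdeg (π v) (hπ0 v hv) (hπ1 v hv)
  -- final value
  set bad := B.filter (fun v => ∀ l, ∑ u ∈ I l, PP (nb g.G) (fun y => cmp R v (φ y)) u ≤ c)
    with hbad
  have hchin : ∀ v, chi R π v n φ = fun y => cmp R v (φ y) := by
    intro v; funext y; unfold chi; rw [if_pos y.2]
  have hfin : (bad.card : ℝ) * (1 / 2) ≤ Psi n φ := by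
    rw [hPsi]
    dsimp only
    calc (bad.card : ℝ) * (1 / 2) = ∑ _v ∈ bad, (1 / 2 : ℝ) := by
          rw [Finset.sum_const, nsmul_eq_mul]
      _ ≤ ∑ v ∈ bad, FF h i0 I (nb g.G) (chi R π v n φ) := by
          apply Finset.sum_le_sum
          intro v hv
          rw [hbad, mem_filter] at hv
          rw [hchin]
          exact FF_final h i0 I (nb g.G) hi _ c hc0 hc hv.2
      _ ≤ ∑ v ∈ B, FF h i0 I (nb g.G) (chi R π v n φ) := by
          apply Finset.sum_le_sum_of_subset_of_nonneg (Finset.filter_subset _ _)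
          intro v hv _
          exact FF_nonneg h i0 I (nb g.G) hI hi _ (chi_nonneg R π v (hπ0 v hv) n φ)
            (chi_le_one R π v (hπ1 v hv) n φ)
  linarith


lemma sum_PP_eq {V : Type*} (R : SimpleGraph V) (J : Finset (Fin n)) (φ : Fin n → V) (v : V) :
    ∑ u ∈ J, PP (nb g.G) (fun y => cmp R v (φ y)) u =
      ((J.filter (fun u => ∀ y ∈ nb g.G u, v = φ y ∨ R.Adj v (φ y))).card : ℝ) := by
  rw [Finset.card_filter]
  push_cast
  apply Finset.sum_congr rfl
  intro u _
  unfold PP
  by_cases h : ∀ y ∈ nb g.G u, v = φ y ∨ R.Adj v (φ y)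
  · rw [if_pos h]
    apply Finset.prod_eq_one
    intro y hy
    unfold cmp
    rw [if_pos (h y hy)]
  · rw [if_neg h]
    push Not at h
    obtain ⟨y, hy, h1, h2⟩ := h
    apply Finset.prod_eq_zero hy
    unfold cmp
    rw [if_neg]
    push Not
    exact ⟨h1, h2⟩

/-- **Spanning embedding**, core version. -/
theorem span_core {V : Type} [Fintype V] [Nonempty V] (R : SimpleGraph V) (B Ast : Finset V)
    (h i0 D0 : ℕ) (hi : 0 < i0) (X s0 : ℝ) (π : V → ℝ) (hX : 0 ≤ X) (hs0 : 0 < s0)
    (hAB : Ast ⊆ B) (hBn : n + D0 ≤ B.card)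
    (hblk : 2 * (d + 1) * i0 + 4 * b ≤ n / h)
    (hnonB : ∀ x ∈ Ast, ((B.filter (fun z => ¬ R.Adj x z)).card : ℝ) ≤ X)
    (hsz : d * X + 8 * d * h * i0 + s0 ≤ Ast.card)
    (hsz2 : 3 * d * X + n < Ast.card + h * i0)
    (hc : 8 * d * h * X ≤ i0)
    (hπ0 : ∀ v ∈ B, 0 ≤ π v) (hπ1 : ∀ v ∈ B, π v ≤ 1)
    (hπ : ∀ v ∈ B, ∀ C ⊆ Ast, s0 ≤ C.card → π v * C.card ≤ ∑ x ∈ C, cmp R v x)
    (hsum : 2 * ∑ v ∈ B, (1 - π v ^ (4 * d)) ^ h < (D0 : ℝ) + 1) :
    ∃ φ : Fin n → V, Function.Injective φ ∧ ∀ u v, g.G.Adj u v → R.Adj (φ u) (φ v) := by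
  obtain ⟨I, hI, hdeg, hindep, hdisj, hIdisj⟩ := exists_blocks g h i0 hblk
  set It : Finset (Fin n) := univ.biUnion I with hIt
  have hItc : It.card = h * i0 := by
    rw [hIt, Finset.card_biUnion]
    · simp [hI]
    · intro l _ l' _ hne; exact hIdisj l l' hne
  set NI : Finset (Fin n) := It.biUnion (nb g.G) with hNI
  have hItdeg : ∀ u ∈ It, (nb g.G u).card ≤ 4 * d := by
    intro u hu
    rw [hIt, mem_biUnion] at hu
    obtain ⟨l, _, hl⟩ := hu
    exact hdeg l u hl
  have hItind : ∀ u ∈ It, ∀ v ∈ It, ¬ g.G.Adj u v := by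
    intro u hu v hv
    rw [hIt, mem_biUnion] at hu hv
    obtain ⟨l, _, hl⟩ := hu
    obtain ⟨l', _, hl'⟩ := hv
    exact hindep l l' u hl v hl'
  have hNIc : NI.card ≤ 4 * d * (h * i0) := by
    rw [hNI, ← hItc]
    calc (It.biUnion (nb g.G)).card ≤ ∑ u ∈ It, (nb g.G u).card := Finset.card_biUnion_le
      _ ≤ ∑ _u ∈ It, 4 * d := Finset.sum_le_sum hItdeg
      _ = 4 * d * It.card := by rw [Finset.sum_const, smul_eq_mul, mul_comm]
  have hNIsub : NI ⊆ univ \ It := by
    intro y hy
    rw [hNI, mem_biUnion] at hy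
    obtain ⟨u, hu, hyu⟩ := hy
    rw [mem_sdiff]
    refine ⟨mem_univ _, fun hyI => hItind u hu y hyI ?_⟩
    exact mem_nb.mp hyu
  obtain ⟨M, hM1, hM2, hM3, hM4⟩ := closure_exists g.G d g.hbk NI (univ \ It) hNIsub
  have hnbM : ∀ u ∈ It, nb g.G u ⊆ M := by
    intro u hu y hy
    apply hM1
    rw [hNI, mem_biUnion]
    exact ⟨u, hu, hy⟩
  have hIIt : ∀ l, ∀ u ∈ I l, u ∈ It := by
    intro l u hu; rw [hIt, mem_biUnion]; exact ⟨l, mem_univ _, hu⟩
  have hMc : (M.card : ℝ) ≤ 8 * d * h * i0 := by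
    have h1 : M.card ≤ 8 * d * h * i0 := by
      calc M.card ≤ 2 * NI.card := hM3
        _ ≤ 2 * (4 * d * (h * i0)) := Nat.mul_le_mul_left _ hNIc
        _ = 8 * d * h * i0 := by ring
    exact_mod_cast h1
  have hnonA : ∀ x ∈ Ast, ((Ast.filter (fun z => ¬ R.Adj x z)).card : ℝ) ≤ X := by
    intro x hx
    refine le_trans ?_ (hnonB x hx)
    exact_mod_cast Finset.card_le_card (Finset.filter_subset_filter _ hAB)
  have hd0 : (0 : ℝ) ≤ d := Nat.cast_nonneg d
  obtain ⟨φ0, hp1, hp2, hp3, hp4⟩ := span_phase1 g R B Ast h i0 hi X s0 π hX hs0 I hI hdeg hdisj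
    M (fun l u hu => hnbM u (hIIt l u hu)) hnonA (by linarith) hπ0 hπ1 hπ (4 * d * X)
    (by positivity) (by linarith) D0 hsum
  set bad := B.filter (fun v => ∀ l, ∑ u ∈ I l, PP (nb g.G) (fun y => cmp R v (φ0 y)) u ≤
    4 * d * X) with hbad
  have hbadc : bad.card ≤ D0 := by
    have : (bad.card : ℝ) < ((D0 + 1 : ℕ) : ℝ) := by push_cast; exact hp4
    have := Nat.cast_lt.mp this
    omega
  -- phase 2
  set D : Finset (Fin n) := univ \ It with hD
  have hDc : D.card = n - h * i0 := by
    rw [hD, Finset.card_sdiff_of_subset (subset_univ _), Finset.card_univ, Fintype.card_fin, hItc]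
  have hItn : h * i0 ≤ n := by
    rw [← hItc]
    calc It.card ≤ (univ : Finset (Fin n)).card := Finset.card_le_card (subset_univ _)
      _ = n := by simp
  have hDr : (D.card : ℝ) = n - h * i0 := by
    rw [hDc, Nat.cast_sub hItn]; push_cast; ring
  obtain ⟨φ, hq0, hq1, hq2, hq3⟩ := greedy_extend g.G R M D (fun _ => Ast) φ0 hp1 hp2 hp3
    (by
      intro u huD huM ψ hψ _
      set Y : Finset (Fin n) := D.filter (fun y => g.G.Adj u y ∧ (y ∈ M ∨ y < u)) with hY
      have hYcard : Y.card ≤ 3 * d := by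
        have hsub : Y ⊆ nbM g.G M u ∪ bk g.G u := by
          intro y hy
          rw [hY, mem_filter] at hy
          rw [mem_union]
          unfold nbM bk
          rw [mem_filter, mem_filter]
          rcases hy.2.2 with h | h
          · left; exact ⟨h, hy.2.1⟩
          · right; exact ⟨mem_univ _, h, hy.2.1⟩
        have h1 := (Finset.card_le_card hsub).trans (Finset.card_union_le _ _)
        have h2 := hM4 u huD huM
        have h3 := g.hbk u
        omega
      obtain ⟨x, hx1, hx2, hx3⟩ := exists_candidate R Ast ψ Y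
        ((D.filter (fun y => y ∈ M ∨ y < u)).image ψ) X ((n : ℝ) - h * i0) (3 * d)
        hYcard hX
        (by
          intro y hy
          rw [hY, mem_filter] at hy
          exact hnonA _ (hψ y hy.1 hy.2.2))
        (by
          rw [← hDr]
          have h1 : (Ast.filter (fun x => x ∈ (D.filter (fun y => y ∈ M ∨ y < u)).image ψ)).card ≤
              D.card := by
            calc _ ≤ ((D.filter (fun y => y ∈ M ∨ y < u)).image ψ).card := by
                  apply Finset.card_le_card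
                  intro x hx
                  exact (mem_filter.mp hx).2
              _ ≤ (D.filter (fun y => y ∈ M ∨ y < u)).card := Finset.card_image_le
              _ ≤ D.card := Finset.card_le_card (Finset.filter_subset _ _)
          exact_mod_cast h1)
        (by push_cast; linarith)
      refine ⟨x, hx1, ?_⟩
      intro y hyD hyu
      refine ⟨?_, fun hadj => hx3 y (by rw [hY, mem_filter]; exact ⟨hyD, hadj, hyu⟩)⟩
      intro hyx
      apply hx2
      rw [mem_image]
      exact ⟨y, mem_filter.mpr ⟨hyD, hyu⟩, hyx⟩)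
  -- phase 3
  have hR' : h * i0 ≤ ((B \ D.image φ) \ bad).card := by
    have h1 := Finset.le_card_sdiff (D.image φ) B
    have h2 := Finset.le_card_sdiff bad (B \ D.image φ)
    have h3 : (D.image φ).card ≤ D.card := Finset.card_image_le
    omega
  obtain ⟨R', hR'1, hR'2⟩ := Finset.exists_subset_card_eq hR'
  set tt : {u // u ∈ It} → Finset V := fun u =>
    R'.filter (fun v => ∀ y ∈ nb g.G u.1, R.Adj (φ y) v) with htt
  have hDmem : ∀ u ∈ It, ∀ y ∈ nb g.G u, y ∈ D := by
    intro u hu y hy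
    exact hM2 (hnbM u hu hy)
  have httc : ∀ u : {u // u ∈ It}, ((h * i0 : ℕ) : ℝ) - 4 * d * X ≤ (tt u).card := by
    intro u
    obtain ⟨C, hC1, hC2, hC3⟩ := card_candidates R R' φ (nb g.G u.1) ∅ X (4 * d)
      (hItdeg u.1 u.2) hX (by
        intro y hy
        have hyA : φ y ∈ Ast := hq3 y (hDmem u.1 u.2 y hy)
        refine le_trans ?_ (hnonB _ hyA)
        have hsub : R' ⊆ B := hR'1.trans (Finset.sdiff_subset.trans Finset.sdiff_subset)
        exact_mod_cast Finset.card_le_card (Finset.filter_subset_filter _ hsub))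
    have hCt : C ⊆ tt u := by
      intro x hx
      rw [htt]
      dsimp only
      rw [mem_filter]
      exact ⟨hC1 hx, (hC2 x hx).2⟩
    have h1 : (C.card : ℝ) ≤ (tt u).card := by exact_mod_cast Finset.card_le_card hCt
    rw [hR'2] at hC3
    simp only [Finset.card_empty, Nat.cast_zero, add_zero] at hC3
    push_cast at hC3 ⊢
    linarith
  have hHall : ∀ J : Finset {u // u ∈ It}, J.card ≤ (J.biUnion tt).card := by
    intro J
    rcases J.eq_empty_or_nonempty with rfl | ⟨u, hu⟩
    · simp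
    have hJle : J.card ≤ h * i0 := by
      have h1 : J.card ≤ Fintype.card {u // u ∈ It} := Finset.card_le_univ J
      rw [Fintype.card_coe, hItc] at h1
      exact h1
    by_cases hJ : (J.card : ℝ) ≤ ((h * i0 : ℕ) : ℝ) - 4 * d * X
    · have h1 : tt u ⊆ J.biUnion tt := by
        intro x hx; rw [mem_biUnion]; exact ⟨u, hu, hx⟩
      have h2 : ((tt u).card : ℝ) ≤ (J.biUnion tt).card := by
        exact_mod_cast Finset.card_le_card h1
      have h3 : (J.card : ℝ) ≤ (J.biUnion tt).card := hJ.trans ((httc u).trans h2)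
      exact_mod_cast h3
    · push Not at hJ
      have hsub : R' ⊆ J.biUnion tt := by
        intro v hv
        have hv' := hR'1 hv
        rw [mem_sdiff, mem_sdiff] at hv'
        obtain ⟨⟨hvB, hvim⟩, hvbad⟩ := hv'
        have hnb : ¬ ∀ l, ∑ u ∈ I l, PP (nb g.G) (fun y => cmp R v (φ0 y)) u ≤ 4 * d * X := by
          intro hcon
          apply hvbad
          rw [hbad, mem_filter]
          exact ⟨hvB, hcon⟩
        push Not at hnb
        obtain ⟨l, hl⟩ := hnb
        rw [sum_PP_eq] at hl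
        by_contra hcon
        rw [mem_biUnion] at hcon
        push Not at hcon
        -- the compatible vertices are outside `J`
        set Cp := (I l).filter (fun u => ∀ y ∈ nb g.G u, v = φ0 y ∨ R.Adj v (φ0 y)) with hCp
        have hCpd : Disjoint Cp (J.image Subtype.val) := by
          rw [Finset.disjoint_left]
          intro u hu1 hu2
          rw [mem_image] at hu2
          obtain ⟨u', hu'J, rfl⟩ := hu2
          apply hcon u' hu'J
          rw [htt]
          dsimp only
          rw [mem_filter]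
          refine ⟨hv, fun y hy => ?_⟩
          rw [hCp, mem_filter] at hu1
          have hyM : y ∈ M := hnbM u'.1 u'.2 hy
          have hyD : y ∈ D := hDmem u'.1 u'.2 y hy
          have e1 := hu1.2 y hy
          rw [← hq0 y hyM] at e1
          rcases e1 with e1 | e1
          · exfalso
            apply hvim
            rw [mem_image]
            exact ⟨y, hyD, e1.symm⟩
          · exact e1.symm
        have hun : Cp ∪ J.image Subtype.val ⊆ It := by
          intro x hx
          rw [mem_union] at hx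
          rcases hx with hx | hx
          · rw [hCp, mem_filter] at hx
            exact hIIt l x hx.1
          · rw [mem_image] at hx
            obtain ⟨u', _, rfl⟩ := hx
            exact u'.2
        have hcard := Finset.card_le_card hun
        rw [Finset.card_union_of_disjoint hCpd,
          Finset.card_image_of_injective _ Subtype.val_injective, hItc] at hcard
        have hcard' : (Cp.card : ℝ) + J.card ≤ ((h * i0 : ℕ) : ℝ) := by exact_mod_cast hcard
        linarith
      have := Finset.card_le_card hsub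
      omega
  obtain ⟨f, hf1, hf2⟩ := (Finset.all_card_le_biUnion_card_iff_exists_injective tt).mp hHall
  have hfR : ∀ u, f u ∈ R' := by
    intro u
    have := hf2 u
    rw [htt] at this
    exact (mem_filter.mp this).1
  have hfim : ∀ u, ∀ y ∈ D, φ y ≠ f u := by
    intro u y hy heq
    have h1 := hR'1 (hfR u)
    rw [mem_sdiff, mem_sdiff] at h1
    apply h1.1.2
    rw [mem_image]
    exact ⟨y, hy, heq⟩
  have hfadj : ∀ u : {u // u ∈ It}, ∀ y, g.G.Adj u.1 y → R.Adj (φ y) (f u) := by
    intro u y hy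
    have := hf2 u
    rw [htt] at this
    exact (mem_filter.mp this).2 y (mem_nb.mpr hy)
  have hDI : ∀ u, u ∉ It → u ∈ D := by
    intro u hu
    rw [hD, mem_sdiff]
    exact ⟨mem_univ _, hu⟩
  refine ⟨fun u => if hu : u ∈ It then f ⟨u, hu⟩ else φ u, ?_, ?_⟩
  · intro u v huv
    dsimp only at huv
    by_cases hu : u ∈ It
    · by_cases hv : v ∈ It
      · rw [dif_pos hu, dif_pos hv] at huv
        have := hf1 huv
        simpa using this
      · rw [dif_pos hu, dif_neg hv] at huv
        exact absurd huv.symm (hfim _ v (hDI v hv))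
    · by_cases hv : v ∈ It
      · rw [dif_neg hu, dif_pos hv] at huv
        exact absurd huv (hfim _ u (hDI u hu))
      · rw [dif_neg hu, dif_neg hv] at huv
        exact hq1 u (hDI u hu) v (hDI v hv) huv
  · intro u v huv
    dsimp only
    by_cases hu : u ∈ It
    · by_cases hv : v ∈ It
      · exact absurd huv (hItind u hu v hv)
      · rw [dif_pos hu, dif_neg hv]
        exact (hfadj ⟨u, hu⟩ v huv).symm
    · by_cases hv : v ∈ It
      · rw [dif_neg hu, dif_pos hv]
        exact hfadj ⟨v, hv⟩ u huv.symm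
      · rw [dif_neg hu, dif_neg hv]
        exact hq2 u (hDI u hu) v (hDI v hv) huv

end Span

end Pool.Agent.Helper3.RG
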