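import Mathlib
import Pool.Agent.Helper3.RGExt
import Pool.Agent.Helper3.RGSpan

set_option autoImplicit false

open Finset Classical

namespace Pool.Agent.Helper3.RG

lemma heavy_count {V : Type*} (R : SimpleGraph V) (P : Finset V) (T : ℕ) (x : ℝ) (hx : 0 < x)
    (hP : 0 < P.card)
    (h : ∑ v ∈ P, ((P.filter (fun x => bl R v x)).card : ℝ) ^ T ≤ 2 * T ^ 2 * (P.card : ℝ) ^ T) :
    ((P.filter (fun v => x * P.card < ((P.filter (fun x => bl R v x)).card : ℝ))).card : ℝ) ≤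
      2 * T ^ 2 / x ^ T := by
  have hpos : (0 : ℝ) < P.card := by exact_mod_cast hP
  have h1 : ((P.filter (fun v => x * P.card < ((P.filter (fun x => bl R v x)).card : ℝ))).card : ℝ)
      * (x * P.card) ^ T ≤ ∑ v ∈ P, ((P.filter (fun x => bl R v x)).card : ℝ) ^ T := by
    calc _ = ∑ _v ∈ P.filter (fun v => x * P.card < ((P.filter (fun x => bl R v x)).card : ℝ)),
          (x * (P.card : ℝ)) ^ T := by rw [Finset.sum_const, nsmul_eq_mul]
      _ ≤ ∑ v ∈ P.filter (fun v => x * P.card < ((P.filter (fun x => bl R v x)).card : ℝ)),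
          ((P.filter (fun x => bl R v x)).card : ℝ) ^ T := by
          apply Finset.sum_le_sum
          intro v hv
          rw [mem_filter] at hv
          exact pow_le_pow_left₀ (by positivity) hv.2.le T
      _ ≤ _ := by
          apply Finset.sum_le_sum_of_subset_of_nonneg (Finset.filter_subset _ _)
          intro _ _ _; positivity
  have h2 := h1.trans h
  rw [mul_pow, ← mul_assoc] at h2
  have h3 := le_of_mul_le_mul_right h2 (by positivity : (0 : ℝ) < (P.card : ℝ) ^ T)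
  rw [le_div_iff₀ (by positivity)]
  exact h3

lemma sum_cmp {V : Type*} (R : SimpleGraph V) (v : V) (C : Finset V) :
    ∑ x ∈ C, cmp R v x = (C.card : ℝ) - (C.filter (fun x => bl R v x)).card := by
  have h1 : ∀ x ∈ C, cmp R v x = 1 - (if bl R v x then (1 : ℝ) else 0) := by
    intro x _
    unfold cmp bl
    by_cases h1 : v = x
    · rw [if_pos (Or.inl h1), if_neg (fun h => h.1 h1)]; norm_num
    · by_cases h2 : R.Adj v x
      · rw [if_pos (Or.inr h2), if_neg (fun h => h.2 h2)]; norm_num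
      · rw [if_neg (by tauto), if_pos ⟨h1, h2⟩]; norm_num
  rw [Finset.sum_congr rfl h1, Finset.sum_sub_distrib, Finset.sum_const, nsmul_eq_mul, mul_one,
    Finset.card_filter]
  push_cast
  rfl

lemma sum_cmp_ge {V : Type*} (R : SimpleGraph V) (v : V) (A C : Finset V) (hCA : C ⊆ A) :
    ((A.filter (fun u => R.Adj v u)).card : ℝ) - (A.card - C.card) ≤ ∑ x ∈ C, cmp R v x := by
  rw [sum_cmp]
  have h1 : A.filter (fun u => R.Adj v u) ⊆ (A \ C) ∪ (C \ (C.filter (fun x => bl R v x))) := by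
    intro u hu
    rw [mem_filter] at hu
    rw [mem_union, mem_sdiff, mem_sdiff, mem_filter]
    by_cases hC : u ∈ C
    · right
      exact ⟨hC, fun h => h.2.2 hu.2⟩
    · left
      exact ⟨hu.1, hC⟩
  have h2 := (Finset.card_le_card h1).trans (Finset.card_union_le _ _)
  have h3 := Finset.card_sdiff_add_card_eq_card hCA
  have h4 := Finset.card_sdiff_add_card_eq_card (Finset.filter_subset (fun x => bl R v x) C)
  have h5 : ((A \ C).card : ℝ) + C.card = A.card := by exact_mod_cast h3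
  have h6 : ((C \ (C.filter (fun x => bl R v x))).card : ℝ) +
      (C.filter (fun x => bl R v x)).card = C.card := by exact_mod_cast h4
  have h7 : ((A.filter (fun u => R.Adj v u)).card : ℝ) ≤ (A \ C).card +
      (C \ (C.filter (fun x => bl R v x))).card := by exact_mod_cast h2
  linarith

/-- The potential sum estimate. -/
lemma pot_sum_le {V : Type*} (P B : Finset V) (T k m f : ℕ) (c0 ε q Lc p : ℝ)
    (bv : V → ℝ) (π : V → ℝ) (hPB : P ⊆ B) (hf : (B \ P).card ≤ f) (hp : 0 < p)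
    (hq0 : 0 ≤ q) (hq1 : q ≤ 1) (hbv : ∀ v, 0 ≤ bv v) (hc0 : 0 < c0)
    (hε : m * c0 * ε ≤ 1 / 2) (hεc : c0 * ε ≤ 1)
    (hπ1 : ∀ v ∈ P, bv v ≤ ε * p → π v = 1 - c0 * (bv v / p))
    (hπ2 : ∀ v ∈ B, (v ∉ P ∨ ε * p < bv v) → 0 ≤ 1 - π v ^ m ∧ 1 - π v ^ m ≤ q)
    (hsum : ∑ v ∈ P, bv v ^ T ≤ Lc * p ^ T) (hε0 : 0 < ε) :
    ∑ v ∈ B, (1 - π v ^ m) ^ (T + k) ≤
      f * q ^ k + q ^ k * (Lc / ε ^ T) + (m * c0) ^ T * (1 / 2) ^ k * Lc := by
  have hqT : q ^ (T + k) ≤ q ^ k := pow_le_pow_of_le_one hq0 hq1 (Nat.le_add_left _ _)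
  rw [← Finset.sum_sdiff hPB]
  have h1 : ∑ v ∈ B \ P, (1 - π v ^ m) ^ (T + k) ≤ f * q ^ k := by
    calc ∑ v ∈ B \ P, (1 - π v ^ m) ^ (T + k) ≤ ∑ _v ∈ B \ P, q ^ k := by
          apply Finset.sum_le_sum
          intro v hv
          rw [mem_sdiff] at hv
          obtain ⟨h2, h3⟩ := hπ2 v hv.1 (Or.inl hv.2)
          exact (pow_le_pow_left₀ h2 h3 _).trans hqT
      _ = (B \ P).card * q ^ k := by rw [Finset.sum_const, nsmul_eq_mul]
      _ ≤ f * q ^ k := by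
          apply mul_le_mul_of_nonneg_right _ (by positivity)
          exact_mod_cast hf
  have h2 : ∑ v ∈ P, (1 - π v ^ m) ^ (T + k) ≤
      ∑ v ∈ P, (q ^ k * (1 / (ε * p) ^ T) * bv v ^ T +
        (m * c0) ^ T * (1 / 2) ^ k * (1 / p ^ T) * bv v ^ T) := by
    apply Finset.sum_le_sum
    intro v hv
    by_cases hlt : ε * p < bv v
    · obtain ⟨h3, h4⟩ := hπ2 v (hPB hv) (Or.inr hlt)
      have h5 : (1 - π v ^ m) ^ (T + k) ≤ q ^ k := (pow_le_pow_left₀ h3 h4 _).trans hqT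
      have h6 : (1 : ℝ) ≤ 1 / (ε * p) ^ T * bv v ^ T := by
        rw [one_div, inv_mul_eq_div, ← div_pow]
        apply one_le_pow₀
        rw [one_le_div (by positivity)]
        exact hlt.le
      have h7 : q ^ k * 1 ≤ q ^ k * (1 / (ε * p) ^ T * bv v ^ T) :=
        mul_le_mul_of_nonneg_left h6 (by positivity)
      have h8 : 0 ≤ (m * c0) ^ T * (1 / 2) ^ k * (1 / p ^ T) * bv v ^ T := by
        have := hbv v
        positivity
      nlinarith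
    · push Not at hlt
      rw [hπ1 v hv hlt]
      have hθ0 : 0 ≤ bv v / p := div_nonneg (hbv v) hp.le
      have hθ1 : bv v / p ≤ ε := by rw [div_le_iff₀ hp]; exact hlt
      have hy0 : 0 ≤ c0 * (bv v / p) := by positivity
      have hy1 : c0 * (bv v / p) ≤ 1 := by
        refine le_trans ?_ hεc
        exact mul_le_mul_of_nonneg_left hθ1 hc0.le
      have h3 := one_add_mul_le_pow (by linarith : (-2 : ℝ) ≤ -(c0 * (bv v / p))) m
      have h4 : 1 - (1 - c0 * (bv v / p)) ^ m ≤ m * c0 * (bv v / p) := by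
        have : (1 + -(c0 * (bv v / p))) ^ m = (1 - c0 * (bv v / p)) ^ m := by ring
        rw [this] at h3
        nlinarith
      have h5 : 0 ≤ 1 - (1 - c0 * (bv v / p)) ^ m := by
        have : (1 - c0 * (bv v / p)) ^ m ≤ 1 := pow_le_one₀ (by linarith) (by linarith)
        linarith
      have h6 : m * c0 * (bv v / p) ≤ 1 / 2 := by
        refine le_trans ?_ hε
        apply mul_le_mul_of_nonneg_left hθ1 (by positivity)
      have h7 : (1 - (1 - c0 * (bv v / p)) ^ m) ^ (T + k) ≤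
          (m * c0) ^ T * (1 / 2) ^ k * (1 / p ^ T) * bv v ^ T := by
        calc (1 - (1 - c0 * (bv v / p)) ^ m) ^ (T + k) ≤ (m * c0 * (bv v / p)) ^ (T + k) :=
              pow_le_pow_left₀ h5 h4 _
          _ = (m * c0 * (bv v / p)) ^ T * (m * c0 * (bv v / p)) ^ k := by rw [pow_add]
          _ ≤ (m * c0 * (bv v / p)) ^ T * (1 / 2) ^ k := by
              apply mul_le_mul_of_nonneg_left _ (by positivity)
              exact pow_le_pow_left₀ (by positivity) h6 _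
          _ = _ := by rw [mul_pow, div_pow]; ring
      have h8 : 0 ≤ q ^ k * (1 / (ε * p) ^ T) * bv v ^ T := by
        have := hbv v
        positivity
      linarith
  rw [Finset.sum_add_distrib, ← Finset.mul_sum, ← Finset.mul_sum] at h2
  have h3 : q ^ k * (1 / (ε * p) ^ T) * ∑ v ∈ P, bv v ^ T ≤ q ^ k * (Lc / ε ^ T) := by
    calc q ^ k * (1 / (ε * p) ^ T) * ∑ v ∈ P, bv v ^ T ≤
        q ^ k * (1 / (ε * p) ^ T) * (Lc * p ^ T) :=
          mul_le_mul_of_nonneg_left hsum (by positivity)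
      _ = _ := by rw [mul_pow]; field_simp
  have h4 : (m * c0) ^ T * (1 / 2) ^ k * (1 / p ^ T) * ∑ v ∈ P, bv v ^ T ≤
      (m * c0) ^ T * (1 / 2) ^ k * Lc := by
    calc (m * c0) ^ T * (1 / 2) ^ k * (1 / p ^ T) * ∑ v ∈ P, bv v ^ T ≤
        (m * c0) ^ T * (1 / 2) ^ k * (1 / p ^ T) * (Lc * p ^ T) :=
          mul_le_mul_of_nonneg_left hsum (by positivity)
      _ = _ := by field_simp
  linarith

lemma arith1 (d h τ ρ ξ : ℝ) (hd : 1 ≤ d) (hh : 1 ≤ h) (hτ1 : τ ≤ 1) (hρ0 : 0 < ρ) (hξ0 : 0 < ξ)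
    (hρ1 : 64 * ((d + 1) * h) * ρ = τ) (hξ1 : 16 * ((d + 1) * h) * ξ = ρ) :
    64 * ρ ≤ 1 ∧ 16 * (d * h) * ξ ≤ ρ ∧ 16 * ξ ≤ ρ ∧ 16 * (d * ξ) ≤ ρ ∧
      64 * (d * h) * ρ ≤ τ ∧ 64 * ρ ≤ τ := by
  have a1 : 1 * ρ ≤ h * ρ := mul_le_mul_of_nonneg_right hh hρ0.le
  have a2 : 0 ≤ d * h * ρ := by positivity
  have a3 : 1 * ξ ≤ h * ξ := mul_le_mul_of_nonneg_right hh hξ0.le
  have a4 : 0 ≤ d * h * ξ := by positivity
  have a5 : 1 * (d * ξ) ≤ h * (d * ξ) := mul_le_mul_of_nonneg_right hh (by positivity)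
  refine ⟨?_, ?_, ?_, ?_, ?_, ?_⟩ <;> linarith

lemma arith2 (n s L1 h d τ ρ ξ i0 Ac Astc : ℝ) (hn : 1 ≤ n) (hs : 0 ≤ s) (hL1 : 0 ≤ L1)
    (hd : 1 ≤ d) (hh : 1 ≤ h) (hτ1 : τ ≤ 1) (hρ0 : 0 < ρ) (hξ0 : 0 < ξ)
    (c2 : 16 * (d * h) * ξ ≤ ρ) (c3 : 16 * ξ ≤ ρ) (c4 : 16 * (d * ξ) ≤ ρ)
    (c5 : 64 * (d * h) * ρ ≤ τ) (c6 : 64 * ρ ≤ τ) (hi0a : i0 ≤ ρ * n) (hi0b : ρ * n - 1 < i0)
    (hρn : 8 * (s + L1 + h + 1) ≤ ρ * n) (hA1 : (1 - ξ / 4) * n ≤ Ac)
    (hAst : Ac - s - L1 ≤ Astc) :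
    n / 2 ≤ Astc - d * (ξ * n) - 8 * d * h * i0 ∧
      Ac - (Astc - d * (ξ * n) - 8 * d * h * i0) ≤ τ * n / 2 ∧
      3 * d * (ξ * n) + n < Astc + h * i0 ∧ 8 * d * h * (ξ * n) ≤ i0 := by
  have hn0 : 0 ≤ n := by linarith
  have e1 : 16 * (d * ξ) * n ≤ ρ * n := mul_le_mul_of_nonneg_right c4 hn0
  have e2 : 8 * d * h * i0 ≤ 8 * d * h * (ρ * n) := mul_le_mul_of_nonneg_left hi0a (by positivity)
  have e2' : 64 * (d * h) * ρ * n ≤ τ * n := mul_le_mul_of_nonneg_right c5 hn0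
  have e3 : 64 * ρ * n ≤ τ * n := mul_le_mul_of_nonneg_right c6 hn0
  have e4 : τ * n ≤ 1 * n := mul_le_mul_of_nonneg_right hτ1 hn0
  have e5 : 16 * ξ * n ≤ ρ * n := mul_le_mul_of_nonneg_right c3 hn0
  have e6 : 16 * (d * h) * ξ * n ≤ ρ * n := mul_le_mul_of_nonneg_right c2 hn0
  have e7 : h * (ρ * n - 1) ≤ h * i0 := mul_le_mul_of_nonneg_left hi0b.le (by linarith)
  have e8 : 1 * (ρ * n) ≤ h * (ρ * n) := mul_le_mul_of_nonneg_right hh (by positivity)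
  have e9 : 0 < ρ * n := by positivity
  refine ⟨?_, ?_, ?_, ?_⟩ <;> linarith

lemma arith3 (n b i0 d h τ ρ : ℝ) (hn : 1 ≤ n) (hd : 1 ≤ d) (hh : 1 ≤ h) (hτ1 : τ ≤ 1)
    (hρ1 : 64 * ((d + 1) * h) * ρ = τ) (hi0a : i0 ≤ ρ * n) (hb : b ≤ 1 / (8 * h) * n) :
    (2 * (d + 1) * i0 + 4 * b) * h ≤ n := by
  have h2 : 2 * (d + 1) * i0 * h ≤ τ * n / 32 := by
    calc 2 * (d + 1) * i0 * h = (2 * ((d + 1) * h)) * i0 := by ring
      _ ≤ (2 * ((d + 1) * h)) * (ρ * n) := mul_le_mul_of_nonneg_left hi0a (by positivity)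
      _ = (64 * ((d + 1) * h) * ρ) * n / 32 := by ring
      _ = _ := by rw [hρ1]
  have h3 : 4 * b * h ≤ n / 2 := by
    calc 4 * b * h ≤ 4 * (1 / (8 * h) * n) * h := by gcongr
      _ = n / 2 := by field_simp; norm_num
  have e4 : τ * n ≤ 1 * n := mul_le_mul_of_nonneg_right hτ1 (by linarith)
  linarith

lemma arith4 (c bvx w f ξ ξ1 Pc r n : ℝ) (h1 : c ≤ bvx + w + 1) (h2 : bvx ≤ ξ1 * Pc) (h3 : w ≤ f)
    (h4 : f ≤ ξ / 4 * n) (h5 : ξ1 * (r + 1) = ξ / 2) (h6 : Pc ≤ (r + 1) * n) (h7 : 4 ≤ n * ξ)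
    (h8 : 0 < ξ1) : c ≤ ξ * n := by
  have h9 : ξ1 * Pc ≤ ξ1 * ((r + 1) * n) := mul_le_mul_of_nonneg_left h6 h8.le
  have h10 : ξ1 * ((r + 1) * n) = ξ / 2 * n := by rw [← h5]; ring
  linarith

lemma arith5 (τ Cc Ac S a n s0 : ℝ) (hτ0 : 0 < τ) (h1 : a - (Ac - Cc) ≤ S) (h2 : τ * n ≤ a)
    (h3 : Cc ≤ Ac) (h4 : Ac ≤ 2 * n) (h5 : s0 ≤ Cc) (h6 : Ac - s0 ≤ τ * n / 2) :
    τ / 4 * Cc ≤ S := by
  have h7 : τ / 4 * Cc ≤ τ / 4 * (2 * n) := mul_le_mul_of_nonneg_left (h3.trans h4) (by positivity)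
  linarith

theorem extremal_span (d r s T : ℕ) (hd : 1 ≤ d) (hr : 1 ≤ r) (hT : 1 ≤ T) (τ : ℝ)
    (hτ0 : 0 < τ) (hτ1 : τ ≤ 1) :
    ∃ (e3 β : ℝ) (n0 : ℕ), 0 < e3 ∧ 0 < β ∧ ∀ (n b : ℕ), n0 ≤ n → (b : ℝ) ≤ β * n →
      ∀ (g : Guest n d b) (V : Type) [Fintype V] (R : SimpleGraph V) (A P B : Finset V) (f : ℕ),
      (Fintype.card V : ℝ) ≤ (r + 1) * n → P ⊆ B → (B \ P).card ≤ f → (f : ℝ) ≤ e3 * n →
      r * (n - 1) + 1 + f ≤ r * B.card → (A \ P).card ≤ s → (1 - e3) * n ≤ A.card →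
      (A.card : ℝ) ≤ 2 * n →
      (∀ v ∈ B, τ * n ≤ ((A.filter (fun u => R.Adj v u)).card : ℝ)) →
      (¬ ∃ X Y : Finset V, X ⊆ P ∧ Y ⊆ P ∧ X.card = T ∧ Y.card = T ∧
        ∀ x ∈ X, ∀ y ∈ Y, bl R x y) →
      ∃ φ : Fin n → V, Function.Injective φ ∧ ∀ u v, g.G.Adj u v → R.Adj (φ u) (φ v) := by
  have hrR : (1 : ℝ) ≤ r := by exact_mod_cast hr
  have hdR : (1 : ℝ) ≤ d := by exact_mod_cast hd
  have hTR : (1 : ℝ) ≤ T := by exact_mod_cast hT
  obtain ⟨m, hm⟩ : ∃ m : ℕ, 4 * d = m := ⟨_, rfl⟩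
  have hm1 : 1 ≤ m := by omega
  have hmR : (1 : ℝ) ≤ m := by exact_mod_cast hm1
  obtain ⟨c0, hc0⟩ : ∃ c0 : ℝ, 2 * ((r : ℝ) + 1) = c0 := ⟨_, rfl⟩
  have hc0p : 0 < c0 := by rw [← hc0]; positivity
  obtain ⟨ε, hε⟩ : ∃ ε : ℝ, 1 / (2 * (m * c0)) = ε := ⟨_, rfl⟩
  have hε0 : 0 < ε := by rw [← hε]; positivity
  have hε1 : m * c0 * ε = 1 / 2 := by rw [← hε]; field_simp
  have hε2 : c0 * ε ≤ 1 := by
    have h1 : 1 * (c0 * ε) ≤ m * (c0 * ε) := mul_le_mul_of_nonneg_right hmR (by positivity)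
    linarith
  obtain ⟨Lc, hLc⟩ : ∃ Lc : ℝ, 2 * (T : ℝ) ^ 2 = Lc := ⟨_, rfl⟩
  have hLc0 : 0 < Lc := by rw [← hLc]; positivity
  obtain ⟨q, hq⟩ : ∃ q : ℝ, 1 - (τ / 4) ^ m = q := ⟨_, rfl⟩
  have hq0 : 0 ≤ q := by
    rw [← hq]
    have : (τ / 4) ^ m ≤ 1 := pow_le_one₀ (by positivity) (by linarith)
    linarith
  have hq1 : q < 1 := by
    rw [← hq]
    have : 0 < (τ / 4) ^ m := by positivity
    linarith
  obtain ⟨k1, hk1⟩ := exists_pow_lt_of_lt_one (show (0 : ℝ) < 1 / (4 * r) by positivity) hq1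
  obtain ⟨k2, hk2⟩ := exists_pow_lt_of_lt_one
    (show (0 : ℝ) < 1 / (8 * r * (Lc / ε ^ T)) by positivity) hq1
  obtain ⟨k3, hk3⟩ := exists_pow_lt_of_lt_one
    (show (0 : ℝ) < 1 / (8 * r * ((m * c0) ^ T * Lc)) by positivity)
    (show (1 / 2 : ℝ) < 1 by norm_num)
  obtain ⟨k, hk⟩ : ∃ k, k1 + k2 + k3 = k := ⟨_, rfl⟩
  have hK1 : q ^ k ≤ 1 / (4 * r) :=
    (pow_le_pow_of_le_one hq0 hq1.le (by omega)).trans hk1.le
  have hK2 : q ^ k * (Lc / ε ^ T) ≤ 1 / (8 * r) := by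
    have h1 : q ^ k ≤ 1 / (8 * r * (Lc / ε ^ T)) :=
      (pow_le_pow_of_le_one hq0 hq1.le (by omega)).trans hk2.le
    calc q ^ k * (Lc / ε ^ T) ≤ 1 / (8 * r * (Lc / ε ^ T)) * (Lc / ε ^ T) :=
          mul_le_mul_of_nonneg_right h1 (by positivity)
      _ = 1 / (8 * r) := by field_simp
  have hK3 : (m * c0) ^ T * (1 / 2) ^ k * Lc ≤ 1 / (8 * r) := by
    have h1 : (1 / 2 : ℝ) ^ k ≤ 1 / (8 * r * ((m * c0) ^ T * Lc)) :=
      (pow_le_pow_of_le_one (by norm_num) (by norm_num) (by omega)).trans hk3.le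
    calc (m * c0) ^ T * (1 / 2) ^ k * Lc = (1 / 2 : ℝ) ^ k * ((m * c0) ^ T * Lc) := by ring
      _ ≤ 1 / (8 * r * ((m * c0) ^ T * Lc)) * ((m * c0) ^ T * Lc) :=
          mul_le_mul_of_nonneg_right h1 (by positivity)
      _ = 1 / (8 * r) := by field_simp
  clear hk1 hk2 hk3
  obtain ⟨h, hh⟩ : ∃ h : ℕ, T + k = h := ⟨_, rfl⟩
  have hh1 : 1 ≤ h := by omega
  have hhR : (1 : ℝ) ≤ h := by exact_mod_cast hh1
  obtain ⟨ρ, hρ⟩ : ∃ ρ : ℝ, τ / (64 * ((d + 1) * h)) = ρ := ⟨_, rfl⟩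
  have hρ0 : 0 < ρ := by rw [← hρ]; positivity
  have hρ1 : 64 * ((d + 1) * h) * ρ = τ := by rw [← hρ]; field_simp
  obtain ⟨ξ, hξ⟩ : ∃ ξ : ℝ, ρ / (16 * ((d + 1) * h)) = ξ := ⟨_, rfl⟩
  have hξ0 : 0 < ξ := by rw [← hξ]; positivity
  have hξ1 : 16 * ((d + 1) * h) * ξ = ρ := by rw [← hξ]; field_simp
  obtain ⟨ξ1, hξ1d⟩ : ∃ ξ1 : ℝ, ξ / (2 * ((r : ℝ) + 1)) = ξ1 := ⟨_, rfl⟩
  have hξ10 : 0 < ξ1 := by rw [← hξ1d]; positivity
  have hξ11 : ξ1 * (r + 1) = ξ / 2 := by rw [← hξ1d]; field_simp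
  obtain ⟨L1, hL1⟩ : ∃ L1 : ℝ, Lc / ξ1 ^ T = L1 := ⟨_, rfl⟩
  have hL10 : 0 < L1 := by rw [← hL1]; positivity
  -- consequences
  obtain ⟨c1, c2, c3, c4, c5, c6⟩ := arith1 d h τ ρ ξ hdR hhR hτ1 hρ0 hξ0 hρ1 hξ1
  refine ⟨ξ / 4, 1 / (8 * h), max 1 (max ⌈4 / ξ⌉₊ ⌈8 * (s + L1 + h + 1) / ρ⌉₊), by positivity,
    by positivity, ?_⟩
  intro n b hn hb g V _ R A P B f hV hPB hBP hf hB hAP hA1 hA2 hrich hktt
  have hn1 : 1 ≤ n := (le_max_left _ _).trans hn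
  have hn' := (le_max_right _ _).trans hn
  have hn2 : 4 / ξ ≤ n := (Nat.le_ceil _).trans (by exact_mod_cast (le_max_left _ _).trans hn')
  have hn3 : 8 * (s + L1 + h + 1) / ρ ≤ n :=
    (Nat.le_ceil _).trans (by exact_mod_cast (le_max_right _ _).trans hn')
  rw [div_le_iff₀ (by positivity)] at hn2 hn3
  have hnR : (1 : ℝ) ≤ n := by exact_mod_cast hn1
  have hs0R : (0 : ℝ) ≤ s := Nat.cast_nonneg _
  have hρn : 8 * (s + L1 + h + 1) ≤ ρ * n := by linarith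
  -- i0
  obtain ⟨i0, hi0⟩ : ∃ i0 : ℕ, ⌊ρ * n⌋₊ = i0 := ⟨_, rfl⟩
  have hi0a : (i0 : ℝ) ≤ ρ * n := by rw [← hi0]; exact Nat.floor_le (by positivity)
  have hi0b : ρ * n - 1 < i0 := by
    have := Nat.lt_floor_add_one (ρ * n)
    rw [hi0] at this
    linarith
  have hi0c : (1 : ℝ) < i0 := by linarith
  have hi0d : 0 < i0 := by
    have : (1 : ℕ) < i0 := by exact_mod_cast hi0c
    omega
  -- P
  have hPA : (A.card : ℝ) - s ≤ P.card := by
    have h1 : A ⊆ (A \ P) ∪ P := by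
      intro x hx
      rw [mem_union, mem_sdiff]
      tauto
    have h2 := (Finset.card_le_card h1).trans (Finset.card_union_le _ _)
    have h3 : (A.card : ℝ) ≤ s + P.card := by exact_mod_cast h2.trans (by omega)
    linarith
  have hAbig : (n : ℝ) / 2 ≤ A.card := by
    have e1 : 16 * ξ * n ≤ ρ * n := mul_le_mul_of_nonneg_right c3 (by linarith)
    have e2 : 64 * ρ * n ≤ 1 * n := mul_le_mul_of_nonneg_right c1 (by linarith)
    linarith
  have hPcard : (0 : ℝ) < P.card := by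
    have e2 : 64 * ρ * n ≤ 1 * n := mul_le_mul_of_nonneg_right c1 (by linarith)
    linarith
  have hPcardN : 0 < P.card := by exact_mod_cast hPcard
  have hPup : (P.card : ℝ) ≤ (r + 1) * n := by
    refine le_trans ?_ hV
    exact_mod_cast Finset.card_le_univ _
  obtain ⟨bv, hbv⟩ : ∃ bv : V → ℝ, ∀ v, ((P.filter (fun x => bl R v x)).card : ℝ) = bv v :=
    ⟨_, fun v => rfl⟩
  have hbv0 : ∀ v, 0 ≤ bv v := by intro v; rw [← hbv]; positivity
  have hcount := ktt_count R P T hT hktt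
  have hheavy := heavy_count R P T ξ1 hξ10 hPcardN hcount
  rw [hLc, hL1] at hheavy
  simp only [hbv, hLc] at hcount hheavy
  -- Ast
  obtain ⟨Ast, hAst⟩ : ∃ Ast : Finset V, (A ∩ P).filter (fun v => bv v ≤ ξ1 * P.card) = Ast :=
    ⟨_, rfl⟩
  have hAstA : Ast ⊆ A := by
    rw [← hAst]; exact (Finset.filter_subset _ _).trans Finset.inter_subset_left
  have hAstP : Ast ⊆ P := by
    rw [← hAst]; exact (Finset.filter_subset _ _).trans Finset.inter_subset_right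
  have hAstc : (A.card : ℝ) - s - L1 ≤ Ast.card := by
    have h1 : A ⊆ (A \ P) ∪ (P.filter (fun v => ξ1 * P.card < bv v) ∪ Ast) := by
      intro x hx
      rw [mem_union, mem_sdiff, mem_union, mem_filter, ← hAst, mem_filter, mem_inter]
      by_cases h2 : x ∈ P
      · by_cases h3 : bv x ≤ ξ1 * P.card
        · tauto
        · push Not at h3; tauto
      · tauto
    have h2 := (Finset.card_le_card h1).trans ((Finset.card_union_le _ _).trans
      (Nat.add_le_add_left (Finset.card_union_le _ _) _))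
    have h3 : (A.card : ℝ) ≤ (A \ P).card + ((P.filter (fun v => ξ1 * P.card < bv v)).card +
        Ast.card) := by exact_mod_cast h2
    have h4 : ((A \ P).card : ℝ) ≤ s := by exact_mod_cast hAP
    linarith
  obtain ⟨hs0a, hs0b, hsz2, hc⟩ := arith2 n s L1 h d τ ρ ξ i0 A.card Ast.card hnR hs0R hL10.le hdR
    hhR hτ1 hρ0 hξ0 c2 c3 c4 c5 c6 hi0a hi0b hρn hA1 hAstc
  -- X
  have hX0 : 0 ≤ ξ * n := by positivity
  obtain ⟨s0, hs0⟩ : ∃ s0 : ℝ, (Ast.card : ℝ) - d * (ξ * n) - 8 * d * h * i0 = s0 := ⟨_, rfl⟩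
  rw [hs0] at hs0a hs0b
  -- D0
  have hBn : n ≤ B.card := by
    by_contra hcon
    push Not at hcon
    have h1 : B.card ≤ n - 1 := by omega
    have h2 : r * B.card ≤ r * (n - 1) := Nat.mul_le_mul_left _ h1
    omega
  obtain ⟨D0, hD0⟩ : ∃ D0, B.card = n + D0 := ⟨B.card - n, by omega⟩
  have hD0R : (1 + (f : ℝ)) ≤ r * (D0 + 1) := by
    have h1 : ((r * (n - 1) + 1 + f : ℕ) : ℝ) ≤ ((r * B.card : ℕ) : ℝ) := by exact_mod_cast hB
    rw [hD0] at h1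
    push_cast [Nat.cast_sub hn1] at h1
    linarith
  -- π
  obtain ⟨π, hπ⟩ : ∃ π : V → ℝ, ∀ v, π v = if v ∈ P ∧ bv v ≤ ε * P.card then
      1 - c0 * (bv v / P.card) else τ / 4 := ⟨_, fun v => rfl⟩
  have hπ1 : ∀ v ∈ P, bv v ≤ ε * P.card → π v = 1 - c0 * (bv v / P.card) := by
    intro v hv hle
    rw [hπ, if_pos ⟨hv, hle⟩]
  have hπ2 : ∀ v, (v ∉ P ∨ ε * P.card < bv v) → π v = τ / 4 := by
    intro v hv
    rw [hπ, if_neg]
    rintro ⟨h1, h2⟩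
    rcases hv with hv | hv
    · exact hv h1
    · exact absurd h2 (not_le.mpr hv)
  have hcase : ∀ v, (v ∈ P ∧ bv v ≤ ε * P.card) ∨ (v ∉ P ∨ ε * P.card < bv v) := by
    intro v
    by_cases h1 : v ∈ P
    · by_cases h2 : bv v ≤ ε * P.card
      · exact Or.inl ⟨h1, h2⟩
      · push Not at h2; exact Or.inr (Or.inr h2)
    · exact Or.inr (Or.inl h1)
  have hθ : ∀ v, bv v ≤ ε * P.card → c0 * (bv v / P.card) ≤ 1 := by
    intro v hv
    have h1 : bv v / P.card ≤ ε := by rw [div_le_iff₀ hPcard]; exact hv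
    exact (mul_le_mul_of_nonneg_left h1 hc0p.le).trans hε2
  have hθ0 : ∀ v, 0 ≤ c0 * (bv v / P.card) := by
    intro v
    exact mul_nonneg hc0p.le (div_nonneg (hbv0 v) hPcard.le)
  have hne : Nonempty V := by
    obtain ⟨v, _⟩ := Finset.card_pos.mp hPcardN
    exact ⟨v⟩
  have hblk : 2 * (d + 1) * i0 + 4 * b ≤ n / h := by
    rw [Nat.le_div_iff_mul_le (by omega)]
    have h1 := arith3 n b i0 d h τ ρ hnR hdR hhR hτ1 hρ1 hi0a hb
    have h2 : (((2 * (d + 1) * i0 + 4 * b) * h : ℕ) : ℝ) ≤ (n : ℝ) := by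
      push_cast; exact h1
    exact_mod_cast h2
  have hnonB : ∀ x ∈ Ast, ((B.filter (fun z => ¬ R.Adj x z)).card : ℝ) ≤ ξ * n := by
    intro x hx
    have hxP : x ∈ P := hAstP hx
    have h1 : B.filter (fun z => ¬ R.Adj x z) ⊆
        insert x ((P.filter (fun z => bl R x z)) ∪ (B \ P)) := by
      intro z hz
      rw [mem_filter] at hz
      rw [Finset.mem_insert, mem_union, mem_filter, mem_sdiff]
      by_cases h2 : z = x
      · exact Or.inl h2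
      · right
        by_cases h3 : z ∈ P
        · left; exact ⟨h3, fun h4 => h2 h4.symm, hz.2⟩
        · right; exact ⟨hz.1, h3⟩
    have h2 := (Finset.card_le_card h1).trans ((Finset.card_insert_le _ _).trans
      (Nat.add_le_add_right (Finset.card_union_le _ _) 1))
    have h3 : ((B.filter (fun z => ¬ R.Adj x z)).card : ℝ) ≤
        (P.filter (fun z => bl R x z)).card + (B \ P).card + 1 := by exact_mod_cast h2
    rw [hbv] at h3
    have h4 : bv x ≤ ξ1 * P.card := by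
      rw [← hAst, mem_filter] at hx
      exact hx.2
    have h5 : ((B \ P).card : ℝ) ≤ f := by exact_mod_cast hBP
    exact arith4 _ _ _ _ ξ ξ1 P.card r n h3 h4 h5 hf hξ11 hPup hn2 hξ10
  have hπ0' : ∀ v ∈ B, 0 ≤ π v := by
    intro v _
    rcases hcase v with ⟨h1, h2⟩ | h1
    · rw [hπ1 v h1 h2]; exact sub_nonneg.mpr (hθ v h2)
    · rw [hπ2 v h1]; exact (div_pos hτ0 (by norm_num)).le
  have hπ1' : ∀ v ∈ B, π v ≤ 1 := by
    intro v _
    rcases hcase v with ⟨h1, h2⟩ | h1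
    · rw [hπ1 v h1 h2]; exact sub_le_self _ (hθ0 v)
    · rw [hπ2 v h1]; exact (div_le_one (by norm_num)).mpr (hτ1.trans (by norm_num))
  have hπ' : ∀ v ∈ B, ∀ C ⊆ Ast, s0 ≤ C.card → π v * C.card ≤ ∑ x ∈ C, cmp R v x := by
    intro v hv C hC hCs
    rcases hcase v with ⟨h1, h2⟩ | h1
    · rw [hπ1 v h1 h2, sum_cmp]
      have h3 : ((C.filter (fun x => bl R v x)).card : ℝ) ≤ bv v := by
        rw [← hbv]
        exact_mod_cast Finset.card_le_card (Finset.filter_subset_filter _ (hC.trans hAstP))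
      have h4 : (P.card : ℝ) ≤ c0 * C.card := by
        calc (P.card : ℝ) ≤ (r + 1) * n := hPup
          _ = c0 * (n / 2) := by rw [← hc0]; ring
          _ ≤ c0 * C.card := mul_le_mul_of_nonneg_left (hs0a.trans hCs) hc0p.le
      have h5 : bv v ≤ c0 * (bv v / P.card) * C.card := by
        calc bv v = (bv v / P.card) * P.card := by field_simp
          _ ≤ (bv v / P.card) * (c0 * C.card) :=
              mul_le_mul_of_nonneg_left h4 (div_nonneg (hbv0 v) hPcard.le)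
          _ = _ := by ring
      calc (1 - c0 * (bv v / P.card)) * (C.card : ℝ) =
            C.card - c0 * (bv v / P.card) * C.card := by ring
        _ ≤ C.card - bv v := sub_le_sub_left h5 _
        _ ≤ _ := sub_le_sub_left h3 _
    · rw [hπ2 v h1]
      have h3 := sum_cmp_ge R v A C (hC.trans hAstA)
      have h4 := hrich v hv
      have h5 : (C.card : ℝ) ≤ A.card := by exact_mod_cast Finset.card_le_card (hC.trans hAstA)
      exact arith5 τ C.card A.card _ _ n s0 hτ0 h3 h4 h5 hA2 hCs hs0b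
  have hsum' : 2 * ∑ v ∈ B, (1 - π v ^ (4 * d)) ^ h < (D0 : ℝ) + 1 := by
    have h1 := pot_sum_le P B T k m f c0 ε q Lc P.card bv π hPB hBP hPcard hq0 hq1.le hbv0 hc0p
      hε1.le hε2 hπ1 (by
        intro v _ hv
        rw [hπ2 v hv]
        exact ⟨by rw [hq]; exact hq0, by rw [hq]⟩) hcount hε0
    rw [hh] at h1
    rw [hm]
    have hf0 : (0 : ℝ) ≤ f := Nat.cast_nonneg _
    have h2 : f * q ^ k ≤ f * (1 / (4 * r)) := mul_le_mul_of_nonneg_left hK1 hf0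
    have h3 : 2 * (f * (1 / (4 * (r : ℝ))) + 1 / (8 * r) + 1 / (8 * r)) = (f + 1) / (2 * r) := by
      field_simp
      ring
    have h4 : ((f : ℝ) + 1) / (2 * r) < D0 + 1 := by
      rw [div_lt_iff₀ (by positivity)]
      linarith
    linarith
  exact span_core g R B Ast h i0 D0 hi0d (ξ * n) s0 π hX0 (by linarith) (hAstP.trans hPB)
    hD0.ge hblk hnonB (by rw [← hs0]; linarith) hsz2 hc hπ0' hπ1' hπ' hsum'

end Pool.Agent.Helper3.RG
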