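import Mathlib
import Pool.Agent.Helper3.RGExt2

set_option autoImplicit false

open Finset Classical

namespace Pool.Agent.Helper3.RG

/-- **Main embedding theorem** for ordered guests. -/
theorem main_embed (d r s T : ℕ) (hd : 1 ≤ d) (hr : 1 ≤ r) (hT : 1 ≤ T) (hsT : s ≤ T) :
    ∃ (β : ℝ) (n0 : ℕ), 0 < β ∧ ∀ (n b : ℕ), n0 ≤ n → (b : ℝ) ≤ β * n →
      ∀ (g : Guest n d b) (V : Type) [Fintype V] (R : SimpleGraph V),
      Fintype.card V = r * (n - 1) + s → BlueFree R r s T →
      ∃ φ : Fin n → V, Function.Injective φ ∧ ∀ u v, g.G.Adj u v → R.Adj (φ u) (φ v) := by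
  have hrR : (1 : ℝ) ≤ r := by exact_mod_cast hr
  have hTR : (1 : ℝ) ≤ T := by exact_mod_cast hT
  have hD : (1 : ℝ) ≤ ((r : ℝ) + 1) * (T + 1) := by nlinarith
  obtain ⟨τ, hτ⟩ : ∃ τ : ℝ, 1 / (8 * (((r : ℝ) + 1) * (T + 1))) = τ := ⟨_, rfl⟩
  have hτ0 : 0 < τ := by rw [← hτ]; positivity
  have hτD : τ * (((r : ℝ) + 1) * (T + 1)) = 1 / 8 := by rw [← hτ]; field_simp
  have hτ1 : τ ≤ 1 := by nlinarith
  obtain ⟨e3, β1, n1, he3, hβ1, hspan⟩ := extremal_span d r s T hd hr hT τ hτ0 hτ1
  obtain ⟨κ, hκ, hκa, hκb⟩ : ∃ κ : ℝ, 0 < κ ∧ κ ≤ τ / 4 ∧ 8 * (r * (r * κ)) ≤ e3 := by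
    refine ⟨min (τ / 4) (e3 / (8 * (r * r))), by positivity, min_le_left _ _, ?_⟩
    have h1 := min_le_right (τ / 4) (e3 / (8 * ((r : ℝ) * r)))
    rw [le_div_iff₀ (by positivity)] at h1
    linarith
  obtain ⟨e2, he2, he2a, he2b⟩ : ∃ e2 : ℝ, 0 < e2 ∧ e2 ≤ 1 / 4 ∧ 4 * (r * e2) ≤ e3 := by
    refine ⟨min (1 / 4) (e3 / (4 * r)), by positivity, min_le_left _ _, ?_⟩
    have h1 := min_le_right (1 / 4) (e3 / (4 * (r : ℝ)))
    rw [le_div_iff₀ (by positivity)] at h1
    linarith
  have hκD : κ * (((r : ℝ) + 1) * (T + 1)) ≤ 1 / 32 := by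
    calc κ * (((r : ℝ) + 1) * (T + 1)) ≤ τ / 4 * (((r : ℝ) + 1) * (T + 1)) :=
          mul_le_mul_of_nonneg_right hκa (by positivity)
      _ = τ * (((r : ℝ) + 1) * (T + 1)) / 4 := by ring
      _ = 1 / 32 := by rw [hτD]; norm_num
  obtain ⟨β2, n2, hβ2, hstr⟩ := structure_thm d r s T hr hsT κ e2 hκ (by linarith) he2
  refine ⟨min β1 β2, max (max n1 n2) (max 1 (max (24 * T) ⌈2 * (s : ℝ) / e3⌉₊)),
    lt_min hβ1 hβ2, ?_⟩
  intro n b hn hb g V _ R hV hbf
  have hna : n1 ≤ n := (le_max_left _ _).trans ((le_max_left _ _).trans hn)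
  have hnb : n2 ≤ n := (le_max_right _ _).trans ((le_max_left _ _).trans hn)
  have hn' := (le_max_right _ _).trans hn
  have hn1 : 1 ≤ n := (le_max_left _ _).trans hn'
  have hn'' := (le_max_right _ _).trans hn'
  have hnT : 24 * T ≤ n := (le_max_left _ _).trans hn''
  have hns : 2 * (s : ℝ) / e3 ≤ n :=
    (Nat.le_ceil _).trans (by exact_mod_cast (le_max_right _ _).trans hn'')
  rw [div_le_iff₀ he3] at hns
  have hnR : (1 : ℝ) ≤ n := by exact_mod_cast hn1
  have hnTR : 24 * (T : ℝ) ≤ n := by exact_mod_cast hnT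
  have hb1 : (b : ℝ) ≤ β1 * n :=
    hb.trans (mul_le_mul_of_nonneg_right (min_le_left _ _) (by linarith))
  have hb2 : (b : ℝ) ≤ β2 * n :=
    hb.trans (mul_le_mul_of_nonneg_right (min_le_right _ _) (by linarith))
  rcases hstr n b hnb hb2 g V R hV hbf with h | ⟨C, hC1, hC2, hC3, hC4⟩
  · exact h
  · have hrκ : r * κ ≤ 1 / 32 := by
      have h1 : (r : ℝ) ≤ ((r : ℝ) + 1) * (T + 1) := by
        have : 0 ≤ (r : ℝ) * T := by positivity
        linarith
      have h2 : κ * r ≤ κ * (((r : ℝ) + 1) * (T + 1)) := mul_le_mul_of_nonneg_left h1 hκ.le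
      linarith
    have hrκ0 : 0 < r * κ := by positivity
    have hAn : (1 - r * κ - e2) * n ≤ (1 - r * κ) * ((1 - e2) * n) := by
      have : (1 - r * κ - e2) ≤ (1 - r * κ) * (1 - e2) := by nlinarith
      nlinarith
    have hrκe : r * κ + e2 ≤ e3 := by nlinarith
    obtain ⟨A, P, B, f, h1, h2, h3, h4, h5, h6, h7, h8, h9⟩ :=
      extremal_struct R r s T n hr hsT hn1 hV hbf τ κ e2 e3 C hC1 hC2 hC3 hC4 hκ
        (by linarith) (by linarith) (by linarith)
        (by
          refine le_trans ?_ hAn
          have e1 : (r + 1) * T * τ ≤ 1 / 8 := by nlinarith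
          have e2' : (r + 1) * T * (τ * n) ≤ 1 / 8 * n := by
            calc ((r : ℝ) + 1) * T * (τ * n) = ((r + 1) * T * τ) * n := by ring
              _ ≤ 1 / 8 * n := mul_le_mul_of_nonneg_right e1 (by linarith)
          have e3' : (1 / 2 : ℝ) * n ≤ (1 - r * κ - e2) * n :=
            mul_le_mul_of_nonneg_right (by linarith) (by linarith)
          linarith)
        (by
          have e1 : (r : ℝ) * ((1 - r * κ - e2) * n) ≤ r * ((1 - r * κ) * ((1 - e2) * n)) :=
            mul_le_mul_of_nonneg_left hAn (by linarith)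
          have e4 : (r * (r * κ) + r * e2) * n ≤ e3 / 2 * n :=
            mul_le_mul_of_nonneg_right (by linarith) (by linarith)
          linarith)
    refine hspan n b hna hb1 g V R A P B f ?_ h1 h2 h3 h4 h5 ?_ h7 h8 h9
    · rw [hV]
      push_cast [Nat.cast_sub hn1]
      have : (s : ℝ) ≤ T := by exact_mod_cast hsT
      linarith
    · refine le_trans ?_ (hAn.trans h6)
      exact mul_le_mul_of_nonneg_right (by linarith) (by linarith)

/-! ### Building guests -/

lemma degen_rank {α : Type*} (Adj : α → α → Prop) (d : ℕ) (S : Finset α) :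
    (∀ S' ⊆ S, S'.Nonempty → ∃ v ∈ S', (S'.filter (fun w => Adj v w)).card ≤ d) →
    ∃ rk : α → ℕ, (∀ v ∈ S, rk v < S.card) ∧ (∀ u ∈ S, ∀ v ∈ S, rk u = rk v → u = v) ∧
      ∀ v ∈ S, (S.filter (fun w => rk w < rk v ∧ Adj v w)).card ≤ d := by
  induction hS : S.card generalizing S with
  | zero =>
    intro _
    rw [Finset.card_eq_zero] at hS
    subst hS
    exact ⟨fun _ => 0, by simp, by simp, by simp⟩
  | succ k ih =>
    intro hdeg
    have hne : S.Nonempty := by rw [← Finset.card_pos]; omega
    obtain ⟨v, hv, hvd⟩ := hdeg S (Finset.Subset.refl _) hne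
    have hc : (S.erase v).card = k := by rw [Finset.card_erase_of_mem hv]; omega
    obtain ⟨rk, h1, h2, h3⟩ := ih (S.erase v) hc
      (fun S' hS' hne' => hdeg S' (hS'.trans (Finset.erase_subset _ _)) hne')
    refine ⟨Function.update rk v k, ?_, ?_, ?_⟩
    · intro u hu
      by_cases huv : u = v
      · subst huv; rw [Function.update_self]; omega
      · rw [Function.update_of_ne huv]
        have := h1 u (Finset.mem_erase.mpr ⟨huv, hu⟩)
        omega
    · intro u hu w hw heq
      by_cases huv : u = v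
      · by_cases hwv : w = v
        · rw [huv, hwv]
        · subst huv
          rw [Function.update_self, Function.update_of_ne hwv] at heq
          have := h1 w (Finset.mem_erase.mpr ⟨hwv, hw⟩)
          omega
      · by_cases hwv : w = v
        · subst hwv
          rw [Function.update_self, Function.update_of_ne huv] at heq
          have := h1 u (Finset.mem_erase.mpr ⟨huv, hu⟩)
          omega
        · rw [Function.update_of_ne huv, Function.update_of_ne hwv] at heq
          exact h2 u (Finset.mem_erase.mpr ⟨huv, hu⟩) w (Finset.mem_erase.mpr ⟨hwv, hw⟩) heq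
    · intro u hu
      by_cases huv : u = v
      · subst huv
        refine le_trans (Finset.card_le_card ?_) hvd
        intro w hw
        rw [mem_filter] at hw ⊢
        exact ⟨hw.1, hw.2.2⟩
      · refine le_trans (Finset.card_le_card ?_) (h3 u (Finset.mem_erase.mpr ⟨huv, hu⟩))
        intro w hw
        rw [mem_filter] at hw ⊢
        obtain ⟨hw1, hw2, hw3⟩ := hw
        by_cases hwv : w = v
        · exfalso
          subst hwv
          rw [Function.update_self, Function.update_of_ne huv] at hw2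
          have := h1 u (Finset.mem_erase.mpr ⟨huv, hu⟩)
          omega
        · rw [Function.update_of_ne huv, Function.update_of_ne hwv] at hw2
          exact ⟨Finset.mem_erase.mpr ⟨hwv, hw1⟩, hw2, hw3⟩

lemma exists_col {n d : ℕ} (G : SimpleGraph (Fin n)) (hbk : ∀ v, (bk G v).card ≤ d) :
    ∃ col : Fin n → Fin (d + 1), ∀ u v, G.Adj u v → col u ≠ col v := by
  have key : ∀ t : ℕ, ∃ col : Fin n → Fin (d + 1), ∀ u v : Fin n, (u : ℕ) < t → (v : ℕ) < t →
      G.Adj u v → col u ≠ col v := by
    intro t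
    induction t with
    | zero => exact ⟨fun _ => 0, fun u v hu => absurd hu (Nat.not_lt_zero _)⟩
    | succ t ih =>
      obtain ⟨col, hcol⟩ := ih
      by_cases ht : t < n
      · obtain ⟨w, hw⟩ : ∃ w : Fin n, (w : ℕ) = t := ⟨⟨t, ht⟩, rfl⟩
        obtain ⟨a, ha⟩ : ∃ a : Fin (d + 1), a ∉ (bk G w).image col := by
          by_contra hcon
          push Not at hcon
          have h1 : (univ : Finset (Fin (d + 1))) ⊆ (bk G w).image col := fun a _ => hcon a
          have h2 := Finset.card_le_card h1
          rw [Finset.card_univ, Fintype.card_fin] at h2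
          have h3 := (Finset.card_image_le (s := bk G w) (f := col)).trans (hbk w)
          omega
        have hfree : ∀ u : Fin n, (u : ℕ) < t → G.Adj w u → col u ≠ a := by
          intro u hu hadj heq
          apply ha
          rw [mem_image]
          refine ⟨u, ?_, heq⟩
          unfold bk
          rw [mem_filter]
          refine ⟨mem_univ _, ?_, hadj⟩
          rw [Fin.lt_def, hw]; exact hu
        refine ⟨Function.update col w a, ?_⟩
        intro u v hu hv hadj
        by_cases huw : u = w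
        · by_cases hvw : v = w
          · exfalso
            rw [huw, hvw] at hadj
            exact G.loopless.irrefl _ hadj
          · rw [huw, Function.update_self, Function.update_of_ne hvw]
            have hv' : (v : ℕ) < t := by
              have : (v : ℕ) ≠ t := fun h => hvw (Fin.ext (by rw [h, hw]))
              omega
            rw [huw] at hadj
            exact (hfree v hv' hadj).symm
        · by_cases hvw : v = w
          · rw [hvw, Function.update_self, Function.update_of_ne huw]
            have hu' : (u : ℕ) < t := by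
              have : (u : ℕ) ≠ t := fun h => huw (Fin.ext (by rw [h, hw]))
              omega
            rw [hvw] at hadj
            exact hfree u hu' hadj.symm
          · rw [Function.update_of_ne huw, Function.update_of_ne hvw]
            have hu' : (u : ℕ) < t := by
              have : (u : ℕ) ≠ t := fun h => huw (Fin.ext (by rw [h, hw]))
              omega
            have hv' : (v : ℕ) < t := by
              have : (v : ℕ) ≠ t := fun h => hvw (Fin.ext (by rw [h, hw]))
              omega
            exact hcol u v hu' hv' hadj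
      · refine ⟨col, ?_⟩
        intro u v hu hv hadj
        exact hcol u v (by omega) (by omega) hadj
  obtain ⟨col, hcol⟩ := key n
  exact ⟨col, fun u v hadj => hcol u v u.2 v.2 hadj⟩

/-- From the degeneracy and bandwidth hypotheses to an ordered guest. -/
lemma exists_guest {n d b : ℕ} (G : SimpleGraph (Fin n))
    (hdeg : ∀ S : Finset (Fin n), S.Nonempty →
      ∃ v ∈ S, ({w : Fin n | w ∈ S ∧ G.Adj v w} : Set (Fin n)).ncard ≤ d)
    (f : Fin n ≃ Fin n) (hf : ∀ u v : Fin n, G.Adj u v →
      |((f u : ℕ) : ℤ) - ((f v : ℕ) : ℤ)| ≤ (b : ℤ)) :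
    ∃ (g : Guest n d b) (ρ : Fin n → Fin n), Function.Injective ρ ∧
      ∀ u v, G.Adj u v → g.G.Adj (ρ u) (ρ v) := by
  obtain ⟨rk, h1, h2, h3⟩ := degen_rank G.Adj d univ (by
    intro S' _ hne
    obtain ⟨v, hv, hvd⟩ := hdeg S' hne
    refine ⟨v, hv, ?_⟩
    have : ({w : Fin n | w ∈ S' ∧ G.Adj v w} : Set (Fin n)) =
        ((S'.filter (fun w => G.Adj v w) : Finset (Fin n)) : Set (Fin n)) := by
      ext w; simp
    rw [this, Set.ncard_coe_finset] at hvd
    exact hvd)
  rw [Finset.card_univ, Fintype.card_fin] at h1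
  obtain ⟨ρ, hρ⟩ : ∃ ρ : Fin n → Fin n, ∀ v, (ρ v : ℕ) = rk v :=
    ⟨fun v => ⟨rk v, h1 v (mem_univ _)⟩, fun v => rfl⟩
  have hρi : Function.Injective ρ := by
    intro u v huv
    apply h2 u (mem_univ _) v (mem_univ _)
    rw [← hρ, ← hρ, huv]
  have hρb : Function.Bijective ρ := Finite.injective_iff_bijective.mp hρi
  obtain ⟨e, he⟩ : ∃ e : Fin n ≃ Fin n, ∀ v, e v = ρ v :=
    ⟨Equiv.ofBijective ρ hρb, fun v => rfl⟩
  have hbk : ∀ v, (bk (G.comap e.symm) v).card ≤ d := by
    intro v
    refine le_trans ?_ (h3 (e.symm v) (mem_univ _))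
    refine Finset.card_le_card_of_injOn e.symm ?_ (e.symm.injective.injOn)
    intro w hw
    unfold bk at hw
    simp only [coe_filter, mem_univ, true_and, Set.mem_ofPred_eq, SimpleGraph.comap_adj] at hw ⊢
    refine ⟨?_, hw.2⟩
    rw [← hρ, ← hρ, ← he, ← he, Equiv.apply_symm_apply, Equiv.apply_symm_apply]
    exact hw.1
  obtain ⟨col, hcol⟩ := exists_col (G.comap e.symm) hbk
  refine ⟨{ G := G.comap e.symm
            hbk := hbk
            p := fun v => (f (e.symm v) : ℕ)
            hp_lt := fun v => (f (e.symm v)).2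
            hp_inj := ?_
            hbw := ?_
            col := col
            hcol := hcol }, e, e.injective, ?_⟩
  · intro u v huv
    exact e.symm.injective (f.injective (Fin.ext huv))
  · intro u v huv
    have h4 := hf _ _ huv
    rw [abs_le] at h4
    omega
  · intro u v huv
    show G.Adj (e.symm (e u)) (e.symm (e v))
    rw [Equiv.symm_apply_apply, Equiv.symm_apply_apply]
    exact huv

end Pool.Agent.Helper3.RG
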