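import Mathlib
import Pool.Agent.Helper3.RGMain

set_option autoImplicit false

open Finset Classical

namespace Pool.Agent.Helper3.RG

lemma blueFree_of_not_contained {m N r s : ℕ} (H : SimpleGraph (Fin m)) (c : Fin m → Fin (r + 1))
    (hc : ∀ u v, H.Adj u v → c u ≠ c v) (i : Fin (r + 1))
    (hi : (univ.filter (fun u => c u = i)).card = s) (F : SimpleGraph (Fin N))
    (h : ¬ H.IsContained Fᶜ) : BlueFree F r s m := by
  rintro ⟨Y0, Y, h0, h1, h2, h3⟩
  apply h
  obtain ⟨Z, hZi, hZs⟩ : ∃ Z : Fin (r + 1) → Finset (Fin N), Z i = Y0 ∧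
      ∀ j, Z (i.succAbove j) = Y j :=
    ⟨Fin.insertNth (α := fun _ => Finset (Fin N)) i Y0 Y, by simp, by simp⟩
  have hZc : ∀ j, (univ.filter (fun u => c u = j)).card ≤ (Z j).card := by
    intro j
    rcases Fin.eq_self_or_eq_succAbove i j with rfl | ⟨y, rfl⟩
    · rw [hi, hZi]; exact h0
    · rw [hZs]
      refine le_trans (Finset.card_le_univ _) ?_
      rw [Fintype.card_fin]
      exact h1 y
  have hZb : ∀ j j', j ≠ j' → ∀ x ∈ Z j, ∀ y ∈ Z j', bl F x y := by
    intro j j' hjj x hx y hy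
    rcases Fin.eq_self_or_eq_succAbove i j with h4 | ⟨a, ha⟩
    · rcases Fin.eq_self_or_eq_succAbove i j' with h5 | ⟨b, hb⟩
      · exact absurd (h4.trans h5.symm) hjj
      · rw [h4, hZi] at hx
        rw [hb, hZs] at hy
        exact h2 b x hx y hy
    · rcases Fin.eq_self_or_eq_succAbove i j' with h5 | ⟨b, hb⟩
      · rw [h5, hZi] at hy
        rw [ha, hZs] at hx
        exact bl_symm (h2 a y hy x hx)
      · rw [ha, hZs] at hx
        rw [hb, hZs] at hy
        exact h3 a b (fun hab => hjj (by rw [ha, hb, hab])) x hx y hy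
  have hemb : ∀ j, Nonempty ({u // u ∈ univ.filter (fun u => c u = j)} ↪ {x // x ∈ Z j}) := by
    intro j
    apply Function.Embedding.nonempty_of_card_le
    rw [Fintype.card_coe, Fintype.card_coe]
    exact hZc j
  have e := fun j => Classical.choice (hemb j)
  have hmem : ∀ j u, c u = j → u ∈ univ.filter (fun u => c u = j) := by
    intro j u hu
    rw [mem_filter]
    exact ⟨mem_univ _, hu⟩
  obtain ⟨φ, hφ⟩ : ∃ φ : Fin m → Fin N, ∀ j u (hu : c u = j), φ u = (e j ⟨u, hmem j u hu⟩).1 := by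
    refine ⟨fun u => (e (c u) ⟨u, hmem (c u) u rfl⟩).1, ?_⟩
    rintro j u rfl
    rfl
  have hφZ : ∀ u, φ u ∈ Z (c u) := by
    intro u
    rw [hφ (c u) u rfl]
    exact (e (c u) ⟨u, _⟩).2
  have hinj : Function.Injective φ := by
    intro u v huv
    by_cases huv' : c u = c v
    · rw [hφ (c v) u huv', hφ (c v) v rfl] at huv
      have h4 := (e (c v)).injective (Subtype.ext huv)
      exact congrArg Subtype.val h4
    · exfalso
      have h4 := hZb _ _ huv' _ (hφZ u) _ (hφZ v)
      exact h4.1 huv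
  have hhom : ∀ u v, H.Adj u v → Fᶜ.Adj (φ u) (φ v) := by
    intro u v huv
    have h4 := hZb _ _ (hc u v huv) _ (hφZ u) _ (hφZ v)
    rw [SimpleGraph.compl_adj]
    exact h4
  exact ⟨⟨⟨φ, fun {u v} huv => hhom u v huv⟩, hinj⟩⟩

lemma fiber_card (N L a K : ℕ) (p : Fin N → ℕ) (hp : ∀ x, p x = (x : ℕ) / L) (hL : 0 < L)
    (hK1 : N ≤ a * L + K ∨ L ≤ K) :
    (univ.filter (fun x => p x = a)).card ≤ K := by
  have h1 : (univ.filter (fun x => p x = a)).card ≤ (Finset.Ico (a * L) (a * L + K)).card := by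
    refine Finset.card_le_card_of_injOn Fin.val ?_ Fin.val_injective.injOn
    intro x hx
    simp only [coe_filter, mem_univ, true_and, Set.mem_ofPred_eq, hp] at hx
    rw [Finset.mem_coe, Finset.mem_Ico]
    have h2 := Nat.div_add_mod (x : ℕ) L
    have h3 := Nat.mod_lt (x : ℕ) hL
    rw [hx, mul_comm] at h2
    have h4 := x.2
    constructor
    · omega
    · rcases hK1 with h5 | h5
      · omega
      · omega
  rwa [Nat.card_Ico, Nat.add_sub_cancel_left] at h1

lemma lower_bound {m n r s : ℕ} (hn : 2 ≤ n) (hs : 1 ≤ s) (hsn : s ≤ n)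
    (G : SimpleGraph (Fin n)) (hG : G.Connected) (H : SimpleGraph (Fin m))
    (hmin : ∀ c : Fin m → Fin (r + 1), (∀ u v : Fin m, H.Adj u v → c u ≠ c v) →
      ∀ i : Fin (r + 1), s ≤ (univ.filter (fun u => c u = i)).card) :
    ∃ F : SimpleGraph (Fin (r * (n - 1) + s - 1)),
      ¬ G.IsContained F ∧ ¬ H.IsContained Fᶜ := by
  have hL : 0 < n - 1 := by omega
  obtain ⟨p, hp⟩ : ∃ p : Fin (r * (n - 1) + s - 1) → ℕ, ∀ x, p x = (x : ℕ) / (n - 1) :=
    ⟨_, fun x => rfl⟩
  have hpr : ∀ x, p x < r + 1 := by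
    intro x
    rw [hp]
    apply Nat.div_lt_of_lt_mul
    have := x.2
    have h1 : (n - 1) * (r + 1) = r * (n - 1) + (n - 1) := by ring
    omega
  obtain ⟨F, hF⟩ : ∃ F : SimpleGraph (Fin (r * (n - 1) + s - 1)), ∀ x y, F.Adj x y ↔
      (x ≠ y ∧ p x = p y) := by
    refine ⟨{ Adj := fun x y => x ≠ y ∧ p x = p y
              symm := ?_
              loopless := ?_ }, fun x y => Iff.rfl⟩
    · constructor
      rintro x y ⟨h1, h2⟩
      exact ⟨h1.symm, h2.symm⟩
    · exact ⟨fun x h => h.1 rfl⟩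
  refine ⟨F, ?_, ?_⟩
  · rintro ⟨φ⟩
    have hconst : ∀ u v, G.Reachable u v → p (φ.toHom u) = p (φ.toHom v) := by
      rintro u v ⟨w⟩
      induction w with
      | nil => rfl
      | cons h _ ih => exact ((hF _ _).mp (φ.toHom.map_adj h)).2.trans ih
    obtain ⟨u0⟩ : Nonempty (Fin n) := ⟨⟨0, by omega⟩⟩
    have h1 : (univ : Finset (Fin n)).card ≤
        (univ.filter (fun x => p x = p (φ.toHom u0))).card := by
      refine Finset.card_le_card_of_injOn φ.toHom ?_ φ.injective'.injOn
      intro u _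
      simp only [coe_filter, mem_univ, true_and, Set.mem_ofPred_eq]
      exact hconst u u0 (hG.preconnected u u0)
    have h2 := fiber_card (r * (n - 1) + s - 1) (n - 1) (p (φ.toHom u0)) (n - 1) p hp hL
      (Or.inr le_rfl)
    rw [Finset.card_univ, Fintype.card_fin] at h1
    omega
  · rintro ⟨ψ⟩
    have h1 := hmin (fun u => ⟨p (ψ.toHom u), hpr _⟩) (by
      intro u v huv heq
      have h2 := ψ.toHom.map_adj huv
      rw [SimpleGraph.compl_adj] at h2
      apply h2.2
      rw [hF]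
      refine ⟨h2.1, ?_⟩
      have := congrArg Fin.val heq
      exact this) (Fin.last r)
    have h2 : (univ.filter (fun u : Fin m => (⟨p (ψ.toHom u), hpr _⟩ : Fin (r + 1)) =
        Fin.last r)).card ≤ (univ.filter (fun x => p x = r)).card := by
      refine Finset.card_le_card_of_injOn ψ.toHom ?_ ψ.injective'.injOn
      intro u hu
      simp only [coe_filter, mem_univ, true_and, Set.mem_ofPred_eq] at hu ⊢
      have := congrArg Fin.val hu
      exact this
    have h3 := fiber_card (r * (n - 1) + s - 1) (n - 1) r (s - 1) p hp hL (Or.inl (by omega))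
    omega

lemma one_le_class {m r s : ℕ} (H : SimpleGraph (Fin m))
    (hk : H.chromaticNumber = ((r + 1 : ℕ) : ℕ∞)) (c : Fin m → Fin (r + 1))
    (hc : ∀ u v : Fin m, H.Adj u v → c u ≠ c v) (i : Fin (r + 1))
    (hi : (univ.filter (fun u => c u = i)).card = s) : 1 ≤ s := by
  by_contra hcon
  have hs : s = 0 := by omega
  rw [hs, Finset.card_eq_zero, Finset.filter_eq_empty_iff] at hi
  have h1 : ∀ u, ∃ a : Fin r, i.succAbove a = c u := by
    intro u
    exact Fin.exists_succAbove_eq (hi (mem_univ u))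
  choose c' hc' using h1
  have h2 : H.Colorable r := by
    refine ⟨SimpleGraph.Coloring.mk c' ?_⟩
    intro u v huv heq
    apply hc u v huv
    rw [← hc' u, ← hc' v, heq]
  have h3 := h2.chromaticNumber_le
  rw [hk] at h3
  have h4 : r + 1 ≤ r := by exact_mod_cast h3
  omega

lemma ncard_filter {m k : ℕ} (c : Fin m → Fin k) (i : Fin k) :
    ({u : Fin m | c u = i} : Set (Fin m)).ncard = (univ.filter (fun u => c u = i)).card := by
  have : ({u : Fin m | c u = i} : Set (Fin m)) =
      ((univ.filter (fun u => c u = i) : Finset (Fin m)) : Set (Fin m)) := by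
    ext u; simp
  rw [this, Set.ncard_coe_finset]

theorem final :
    ∀ d : ℕ, ∀ β : ℕ → ℕ,
      Filter.Tendsto (fun n : ℕ => (β n : ℝ) / (n : ℝ)) Filter.atTop (nhds 0) →
      ∀ (m : ℕ) (H : SimpleGraph (Fin m)), 0 < m →
        ∃ n0 : ℕ, ∀ n : ℕ, n0 ≤ n →
          ∀ G : SimpleGraph (Fin n), G.Connected →
            (∀ S : Finset (Fin n), S.Nonempty →
              ∃ v ∈ S, ({w : Fin n | w ∈ S ∧ G.Adj v w} : Set (Fin n)).ncard ≤ d) →
            (∃ f : Fin n ≃ Fin n, ∀ u v : Fin n, G.Adj u v →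
              |((f u : ℕ) : ℤ) - ((f v : ℕ) : ℤ)| ≤ (β n : ℤ)) →
            ∀ k s : ℕ, H.chromaticNumber = (k : ℕ∞) →
              (∃ c : Fin m → Fin k, (∀ u v : Fin m, H.Adj u v → c u ≠ c v) ∧
                ∃ i : Fin k, ({u : Fin m | c u = i} : Set (Fin m)).ncard = s) →
              (∀ c : Fin m → Fin k, (∀ u v : Fin m, H.Adj u v → c u ≠ c v) →
                ∀ i : Fin k, s ≤ ({u : Fin m | c u = i} : Set (Fin m)).ncard) →
              (∀ F : SimpleGraph (Fin ((k - 1) * (n - 1) + s)),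
                  G.IsContained F ∨ H.IsContained Fᶜ) ∧
              (∃ F : SimpleGraph (Fin ((k - 1) * (n - 1) + s - 1)),
                  ¬ G.IsContained F ∧ ¬ H.IsContained Fᶜ) := by
  intro d β hβ m H hm
  have hthr : ∀ r s : ℕ, ∃ n0 : ℕ, 1 ≤ r → s ≤ m → ∀ n : ℕ, n0 ≤ n →
      ∀ (g : Guest n (max d 1) (β n)) (F : SimpleGraph (Fin (r * (n - 1) + s))),
      BlueFree F r s m → ∃ φ : Fin n → Fin (r * (n - 1) + s), Function.Injective φ ∧
        ∀ u v, g.G.Adj u v → F.Adj (φ u) (φ v) := by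
    intro r s
    by_cases hrs : 1 ≤ r ∧ s ≤ m
    · obtain ⟨β', n1, hβ', hmain⟩ := main_embed (max d 1) r s m (le_max_right _ _) hrs.1 hm hrs.2
      have h1 : ∀ᶠ n : ℕ in Filter.atTop, (β n : ℝ) / (n : ℝ) < β' := by
        have := hβ.eventually (gt_mem_nhds hβ')
        exact this
      rw [Filter.eventually_atTop] at h1
      obtain ⟨n2, hn2⟩ := h1
      refine ⟨max (max n1 n2) 1, ?_⟩
      intro _ _ n hn g F hbf
      have hn1 : n1 ≤ n := (le_max_left _ _).trans ((le_max_left _ _).trans hn)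
      have hn2' : n2 ≤ n := (le_max_right _ _).trans ((le_max_left _ _).trans hn)
      have hn3 : 1 ≤ n := (le_max_right _ _).trans hn
      have hnR : (0 : ℝ) < n := by exact_mod_cast hn3
      have h2 := (hn2 n hn2').le
      rw [div_le_iff₀ hnR] at h2
      exact hmain n (β n) hn1 h2 g _ F (by rw [Fintype.card_fin]) hbf
    · exact ⟨0, fun h1 h2 => absurd ⟨h1, h2⟩ hrs⟩
  choose N hN using hthr
  refine ⟨max 2 (max m ((Finset.range (m + 1)).sup
    (fun r => (Finset.range (m + 1)).sup (fun s => N r s)))), ?_⟩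
  intro n hn G hG hdeg hband k s hk hcex hmin
  obtain ⟨f, hf⟩ := hband
  obtain ⟨c, hc, i, hi⟩ := hcex
  have hn2 : 2 ≤ n := (le_max_left _ _).trans hn
  have hnm : m ≤ n := (le_max_left _ _).trans ((le_max_right _ _).trans hn)
  have hnN := (le_max_right _ _).trans ((le_max_right _ _).trans hn)
  obtain ⟨r, rfl⟩ : ∃ r, k = r + 1 := ⟨k - 1, by have := i.pos; omega⟩
  rw [ncard_filter] at hi
  simp only [ncard_filter] at hmin
  have hsm : s ≤ m := by
    rw [← hi]
    refine (Finset.card_le_univ _).trans ?_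
    rw [Fintype.card_fin]
  have hrm : r + 1 ≤ m := by
    have h1 := H.colorable_of_fintype.chromaticNumber_le
    rw [hk, Fintype.card_fin] at h1
    exact_mod_cast h1
  have hs1 : 1 ≤ s := one_le_class H hk c hc i hi
  rw [Nat.add_sub_cancel]
  refine ⟨?_, lower_bound hn2 hs1 (hsm.trans hnm) G hG H hmin⟩
  intro F
  by_cases hH : H.IsContained Fᶜ
  · exact Or.inr hH
  · left
    have hbf := blueFree_of_not_contained H c hc i hi F hH
    rcases Nat.eq_zero_or_pos r with hr0 | hr0
    · exfalso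
      subst hr0
      apply hbf
      refine ⟨univ, fun _ => ∅, ?_, fun j => j.elim0, fun j => j.elim0, fun j => j.elim0⟩
      rw [Finset.card_univ, Fintype.card_fin]
      omega
    · obtain ⟨g, ρ, hρ1, hρ2⟩ := exists_guest (d := max d 1) G (fun S hS => by
        obtain ⟨v, hv, hvd⟩ := hdeg S hS
        exact ⟨v, hv, hvd.trans (le_max_left _ _)⟩) f hf
      have hNn : N r s ≤ n := by
        refine le_trans ?_ hnN
        refine le_trans ?_ (Finset.le_sup (f := fun r => (Finset.range (m + 1)).sup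
          (fun s => N r s)) (Finset.mem_range.mpr (by omega : r < m + 1)))
        exact Finset.le_sup (f := fun s => N r s) (Finset.mem_range.mpr (by omega : s < m + 1))
      obtain ⟨φ, hφ1, hφ2⟩ := hN r s hr0 hsm n hNn g F hbf
      exact ⟨⟨⟨fun u => φ (ρ u), fun {u v} huv => hφ2 _ _ (hρ2 u v huv)⟩,
        fun u v huv => hρ1 (hφ1 huv)⟩⟩

end Pool.Agent.Helper3.RG
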